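import Pool.Agent.Helper44x.DM.Bl
import Pool.Agent.W558.WD.Plane

/-!
Polynomial rings with gradings of complexity at most two: homogeneous ideals become principal on
smooth modifications.
-/

set_option autoImplicit false
set_option linter.unusedVariables false
set_option linter.unusedSectionVars false

open TensorProduct AlgebraicGeometry CategoryTheory Pool.Agent.W558 Pool.Agent.H920R2
open Pool.Agent.W466.RS.Gr

namespace Pool.Agent.Helper44x.DM

section mon

open MvPolynomial

variable {k : Type} [Field k] {n r : ℕ}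

/-- The Laurent monomials. -/
noncomputable def lmon (k : Type) [Field k] {n : ℕ} (e : Fin n → ℤ) :
    FractionRing (MvPolynomial (Fin n) k) :=
  ∏ j, algebraMap (MvPolynomial (Fin n) k) (FractionRing (MvPolynomial (Fin n) k)) (X j) ^ e j

lemma aX_ne (j : Fin n) :
    algebraMap (MvPolynomial (Fin n) k) (FractionRing (MvPolynomial (Fin n) k)) (X j) ≠ 0 :=
  am_ne (X_ne_zero j)

lemma lmon_ne (e : Fin n → ℤ) : lmon k e ≠ 0 :=
  Finset.prod_ne_zero_iff.2 fun j _ => zpow_ne_zero _ (aX_ne j)

lemma lmon_add (e e' : Fin n → ℤ) : lmon k (e + e') = lmon k e * lmon k e' := by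
  unfold lmon
  rw [← Finset.prod_mul_distrib]
  exact Finset.prod_congr rfl fun j _ => by rw [Pi.add_apply, zpow_add₀ (aX_ne j)]

lemma lmon_zero : lmon k (0 : Fin n → ℤ) = 1 :=
  Finset.prod_eq_one fun j _ => by rw [Pi.zero_apply, zpow_zero]

lemma lmon_neg (e : Fin n → ℤ) : lmon k (-e) = (lmon k e)⁻¹ := by
  apply eq_inv_of_mul_eq_one_left
  rw [← lmon_add, neg_add_cancel, lmon_zero]

lemma lmon_zsmul (c : ℤ) (e : Fin n → ℤ) : lmon k (c • e) = lmon k e ^ c := by
  unfold lmon
  rw [← Finset.prod_zpow]
  exact Finset.prod_congr rfl fun j _ => by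
    rw [Pi.smul_apply, smul_eq_mul, mul_comm, zpow_mul]

lemma lmon_sum {σ : Type*} (s : Finset σ) (e : σ → Fin n → ℤ) :
    lmon k (∑ i ∈ s, e i) = ∏ i ∈ s, lmon k (e i) := by
  classical
  induction s using Finset.induction_on with
  | empty => rw [Finset.sum_empty, Finset.prod_empty, lmon_zero]
  | insert i s hi ih => rw [Finset.sum_insert hi, Finset.prod_insert hi, lmon_add, ih]

lemma algebraMap_monomial (α : Fin n →₀ ℕ) (c : k) :
    algebraMap (MvPolynomial (Fin n) k) (FractionRing (MvPolynomial (Fin n) k)) (monomial α c) =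
      algebraMap k _ c * lmon k (fun j => (α j : ℤ)) := by
  rw [monomial_eq, map_mul, Finsupp.prod_fintype _ _ fun i => pow_zero _, map_prod]
  congr 1
  unfold lmon
  exact Finset.prod_congr rfl fun j _ => by rw [map_pow, zpow_natCast]

variable (w : Fin n → (Fin r → ℤ))

/-- The weights of the monomials. -/
noncomputable def wt : (Fin n → ℤ) →ₗ[ℤ] (Fin r → ℤ) := Fintype.linearCombination ℤ w

lemma wt_apply (e : Fin n → ℤ) : wt w e = ∑ j, e j • w j := Fintype.linearCombination_apply _ _ _

lemma wt_nat (α : Fin n →₀ ℕ) : wt w (fun j => (α j : ℤ)) = Finsupp.weight w α := by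
  rw [wt_apply, Finsupp.weight_apply, Finsupp.sum_fintype _ _ fun i => by rw [zero_smul]]
  exact Finset.sum_congr rfl fun j _ => by rw [natCast_zsmul]

attribute [local instance] MvPolynomial.weightedGradedAlgebra

lemma HF_lmon (e : Fin n → ℤ) : HF (weightedHomogeneousSubmodule k w) (wt w e) (lmon k e) := by
  rw [wt_apply]
  refine HF.prod Finset.univ (fun j => e j • w j) _ fun j _ => ?_
  refine (HF.of_mem ?_).zpow (aX_ne j) _
  exact isWeightedHomogeneous_X k w j

lemma lmon_mem (e : Fin n → ℤ) (he : wt w e = 0) :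
    lmon k e ∈ homFrac (weightedHomogeneousSubmodule k w) := by
  apply HF.mem
  rw [← he]
  exact HF_lmon w e

variable (b : Module.Basis (Fin 2) ℤ (LinearMap.ker (wt w)))

/-- The generators of the field of homogeneous fractions of degree zero. -/
noncomputable def zg (i : Fin 2) : homFrac (weightedHomogeneousSubmodule k w) :=
  ⟨lmon k (b i : Fin n → ℤ), lmon_mem w _ (b i).2⟩

lemma zg_ind : AlgebraicIndependent k (zg (k := k) w b) := by
  let F := FractionRing (MvPolynomial (Fin n) k)
  let wf : Fin n → (Fin n → ℤ) := fun i => Pi.single i 1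
  have h1 : AlgebraicIndependent (homFrac (weightedHomogeneousSubmodule k wf))
      (fun i => (lmon k (b i : Fin n → ℤ) : F)) := by
    refine algInd (𝒜 := weightedHomogeneousSubmodule k wf) _
      (fun i => (b i : Fin n → ℤ)) ?_ ?_ ?_
    · exact b.linearIndependent.map' (LinearMap.ker (wt w)).subtype (Submodule.ker_subtype _)
    · intro i
      have h2 := HF_lmon (k := k) wf (b i : Fin n → ℤ)
      have h3 : wt wf (b i : Fin n → ℤ) = (b i : Fin n → ℤ) := by
        rw [wt_apply]
        funext j
        rw [Finset.sum_apply, Finset.sum_eq_single j]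
        · simp [wf]
        · intro l _ hl
          simp [wf, hl]
        · intro h
          exact absurd (Finset.mem_univ j) h
      rw [h3] at h2
      exact h2
    · exact fun i => lmon_ne _
  have h2 : AlgebraicIndependent k (fun i => (lmon k (b i : Fin n → ℤ) : F)) :=
    h1.restrictScalars (FaithfulSMul.algebraMap_injective k
      (homFrac (weightedHomogeneousSubmodule k wf)))
  have h3 : (fun i => (lmon k (b i : Fin n → ℤ) : F)) =
      (homFrac (weightedHomogeneousSubmodule k w)).val ∘ zg (k := k) w b := rfl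
  rw [h3] at h2
  exact h2.of_comp _

lemma lmon_mem_adjoin (e : Fin n → ℤ) (he : wt w e = 0) :
    lmon k e ∈ IntermediateField.adjoin k
      (Set.range fun i => (zg (k := k) w b i : FractionRing (MvPolynomial (Fin n) k))) := by
  let e' : LinearMap.ker (wt w) := ⟨e, he⟩
  have h1 := b.sum_repr e'
  have h2 : ∑ i, b.repr e' i • (b i : Fin n → ℤ) = e := by
    have h3 := congrArg (Subtype.val : LinearMap.ker (wt w) → (Fin n → ℤ)) h1
    rw [AddSubmonoidClass.coe_finsetSum] at h3
    exact h3
  rw [← h2, lmon_sum]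
  refine prod_mem fun i _ => ?_
  rw [lmon_zsmul]
  have h4 : (lmon k (b i : Fin n → ℤ)) ∈ IntermediateField.adjoin k
      (Set.range fun i => (zg (k := k) w b i : FractionRing (MvPolynomial (Fin n) k))) :=
    IntermediateField.subset_adjoin k _ (Set.mem_range_self i)
  exact zpow_mem h4 _

lemma div_mem_adjoin {d : Fin r → ℤ} {a : MvPolynomial (Fin n) k}
    (ha : a ∈ weightedHomogeneousSubmodule k w d) (β : Fin n → ℤ) (hβ : wt w β = d) :
    algebraMap _ (FractionRing (MvPolynomial (Fin n) k)) a * (lmon k β)⁻¹ ∈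
      IntermediateField.adjoin k
        (Set.range fun i => (zg (k := k) w b i : FractionRing (MvPolynomial (Fin n) k))) := by
  rw [a.as_sum, map_sum, Finset.sum_mul]
  refine sum_mem fun α hα => ?_
  rw [algebraMap_monomial, mul_assoc, ← lmon_neg, ← lmon_add]
  refine mul_mem (IntermediateField.algebraMap_mem _ _) (lmon_mem_adjoin w b _ ?_)
  rw [map_add, map_neg, wt_nat, hβ, (mem_weightedHomogeneousSubmodule k w d a).1 ha
    (mem_support_iff.1 hα), add_neg_cancel]

lemma zg_top : IntermediateField.adjoin k (Set.range (zg (k := k) w b)) = ⊤ := by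
  have key : ∀ x ∈ homFrac (weightedHomogeneousSubmodule k w), x ∈ IntermediateField.adjoin k
      (Set.range fun i => (zg (k := k) w b i : FractionRing (MvPolynomial (Fin n) k))) := by
    rintro x ⟨d, a, ha, c, hc, hc0, rfl⟩
    obtain ⟨β, hβ⟩ : ∃ β, coeff β c ≠ 0 := by
      by_contra hcon
      push Not at hcon
      exact hc0 (MvPolynomial.ext _ _ fun β => by rw [hcon β, coeff_zero])
    have hβd : wt w (fun j => (β j : ℤ)) = d := by
      rw [wt_nat]
      exact (mem_weightedHomogeneousSubmodule k w d c).1 hc hβ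
    have h1 := div_mem_adjoin w b ha _ hβd
    have h2 := div_mem_adjoin w b hc _ hβd
    have h3 := div_mem h1 h2
    rw [mul_div_mul_right _ _ (inv_ne_zero (lmon_ne _))] at h3
    exact h3
  have h4 : (IntermediateField.adjoin k (Set.range (zg (k := k) w b))).map
      (homFrac (weightedHomogeneousSubmodule k w)).val = IntermediateField.adjoin k
      (Set.range fun i => (zg (k := k) w b i : FractionRing (MvPolynomial (Fin n) k))) := by
    rw [IntermediateField.adjoin_map, ← Set.range_comp]
    rfl
  rw [eq_top_iff]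
  intro x _
  have h5 := key x.1 x.2
  rw [← h4] at h5
  obtain ⟨y, hy, hyx⟩ := h5
  have h6 : y = x := Subtype.ext hyx
  exact h6 ▸ hy

include b in
lemma trdeg_homFrac : Algebra.trdeg k (homFrac (weightedHomogeneousSubmodule k w)) = 2 := by
  have hfr := frac_of_top (zg_top (k := k) w b)
  have halg : Algebra.IsAlgebraic (Algebra.adjoin k (Set.range (zg (k := k) w b)))
      (homFrac (weightedHomogeneousSubmodule k w)) := by
    refine ⟨fun x => ?_⟩
    obtain ⟨a, ha, c, hc, hc0, rfl⟩ := hfr x
    refine ⟨Polynomial.C ⟨c, hc⟩ * Polynomial.X - Polynomial.C ⟨a, ha⟩, ?_, ?_⟩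
    · intro h0
      have h1 := congrArg (fun P => Polynomial.coeff P 1) h0
      simp only [Polynomial.coeff_sub, Polynomial.coeff_C_mul, Polynomial.coeff_X_one, mul_one,
        Polynomial.coeff_zero] at h1
      rw [Polynomial.coeff_C, if_neg one_ne_zero, sub_zero] at h1
      exact hc0 (congrArg Subtype.val h1)
    · rw [map_sub, map_mul, Polynomial.aeval_C, Polynomial.aeval_X, Polynomial.aeval_C]
      change c * (a * c⁻¹) - a = 0
      field_simp
      ring
  have hb : IsTranscendenceBasis k (zg (k := k) w b) :=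
    (zg_ind w b).isTranscendenceBasis_iff_isAlgebraic.2 halg
  have h5 := hb.lift_cardinalMk_eq_trdeg
  simpa using h5.symm

include b in
lemma hasModel_homFrac : HasModel k (homFrac (weightedHomogeneousSubmodule k w)) := by
  refine hasModel_plane (trdeg_homFrac w b) (u := zg (k := k) w b) ?_ (zg_top w b)
  intro i h
  exact lmon_ne (k := k) _ (congrArg Subtype.val h)

end mon

section coarse

variable {n r : ℕ}

lemma rank_null {M N : Type} [AddCommGroup M] [AddCommGroup N] [Module.Finite ℤ M] 
    (f : M →ₗ[ℤ] N) : Module.finrank ℤ (LinearMap.range f) + Module.finrank ℤ (LinearMap.ker f) =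
      Module.finrank ℤ M := by
  rw [← f.quotKerEquivRange.finrank_eq]
  exact Submodule.finrank_quotient_add_finrank _

/-- Coarser gradings. -/
theorem exists_coarser (w : Fin n → (Fin r → ℤ))
    (hn : Module.finrank ℤ (LinearMap.ker (wt w)) < n) :
    ∃ w' : Fin n → (Fin r → ℤ), LinearMap.ker (wt w) ≤ LinearMap.ker (wt w') ∧
      Module.finrank ℤ (LinearMap.ker (wt w')) = Module.finrank ℤ (LinearMap.ker (wt w)) + 1 := by
  classical
  obtain ⟨e, s, hes⟩ : ∃ e s, wt w e s ≠ 0 := by
    by_contra hcon
    push Not at hcon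
    have h1 : LinearMap.ker (wt w) = ⊤ := by
      rw [eq_top_iff]
      intro e _
      exact funext fun s => hcon e s
    rw [h1, finrank_top, Module.finrank_pi, Fintype.card_fin] at hn
    exact lt_irrefl _ hn
  set u : Fin r → ℤ := wt w e with hu
  let π : (Fin r → ℤ) →ₗ[ℤ] (Fin r → ℤ) :=
    { toFun := fun x t => u s * x t - u t * x s
      map_add' := fun x y => by funext t; simp only [Pi.add_apply]; ring
      map_smul' := fun c x => by
        funext t; simp only [Pi.smul_apply, smul_eq_mul, RingHom.id_apply]; ring }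
  have hπ : ∀ x t, π x t = u s * x t - u t * x s := fun _ _ => rfl
  have hw' : wt (fun i => π (w i)) = π ∘ₗ wt w := by
    apply LinearMap.ext
    intro x
    rw [LinearMap.comp_apply, wt_apply, wt_apply, map_sum]
    exact Finset.sum_congr rfl fun j _ => by rw [map_smul]
  refine ⟨fun i => π (w i), ?_, ?_⟩
  · intro x hx
    rw [LinearMap.mem_ker] at hx ⊢
    rw [hw', LinearMap.comp_apply, hx, map_zero]
  · set K' := LinearMap.ker (wt fun i => π (w i)) with hK'
    have hm : ∀ x, x ∈ K' ↔ ∀ t, u s * wt w x t = u t * wt w x s := by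
      intro x
      rw [hK', LinearMap.mem_ker, hw', LinearMap.comp_apply]
      constructor
      · intro h t
        have h1 := congrFun h t
        rw [hπ] at h1
        exact sub_eq_zero.1 h1
      · intro h
        funext t
        rw [hπ, h t]
        exact sub_self _
    let f : K' →ₗ[ℤ] ℤ := (LinearMap.proj s ∘ₗ wt w) ∘ₗ K'.subtype
    have hf : ∀ x : K', f x = wt w x s := fun _ => rfl
    have hker : ∀ x : K', x ∈ LinearMap.ker f ↔ (x : Fin n → ℤ) ∈ LinearMap.ker (wt w) := by
      intro x
      rw [LinearMap.mem_ker, LinearMap.mem_ker, hf]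
      constructor
      · intro h
        funext t
        have h1 := (hm x).1 x.2 t
        rw [h, mul_zero] at h1
        exact (mul_eq_zero.1 h1).resolve_left hes
      · intro h
        rw [h]
        rfl
    have hle : LinearMap.ker (wt w) ≤ K' := by
      intro x hx
      rw [hm]
      intro t
      rw [LinearMap.mem_ker] at hx
      rw [hx]
      simp
    have he1 : LinearMap.ker f ≃ₗ[ℤ] LinearMap.ker (wt w) :=
      { toFun := fun x => ⟨x.1.1, (hker x.1).1 x.2⟩
        map_add' := fun _ _ => rfl
        map_smul' := fun _ _ => rfl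
        invFun := fun x => ⟨⟨x.1, hle x.2⟩, (hker ⟨x.1, hle x.2⟩).2 x.2⟩
        left_inv := fun _ => rfl
        right_inv := fun _ => rfl }
    have he2 : Module.finrank ℤ (LinearMap.range f) = 1 := by
      have heK : e ∈ K' := by
        rw [hm]
        intro t
        exact mul_comm _ _
      have h0 : f ⟨e, heK⟩ ≠ 0 := hes
      have hle1 : Module.finrank ℤ (LinearMap.range f) ≤ 1 := by
        have := Submodule.finrank_le (LinearMap.range f)
        rwa [Module.finrank_self] at this
      have hpos : 0 < Module.finrank ℤ (LinearMap.range f) := by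
        have : Nontrivial (LinearMap.range f) := by
          refine ⟨⟨⟨f ⟨e, heK⟩, ⟨_, rfl⟩⟩, 0, fun h => h0 (congrArg Subtype.val h)⟩⟩
        exact Module.finrank_pos
      omega
    have h3 := rank_null f
    rw [he2, he1.finrank_eq] at h3
    omega

/-- Coarser gradings of complexity two. -/
theorem exists_two (hn : 2 ≤ n) : ∀ (c : ℕ) (w : Fin n → (Fin r → ℤ)),
    Module.finrank ℤ (LinearMap.ker (wt w)) + c = 2 →
    ∃ w' : Fin n → (Fin r → ℤ), LinearMap.ker (wt w) ≤ LinearMap.ker (wt w') ∧
      Module.finrank ℤ (LinearMap.ker (wt w')) = 2 := by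
  intro c
  induction c with
  | zero => intro w hw; exact ⟨w, le_rfl, hw⟩
  | succ c ih =>
    intro w hw
    obtain ⟨w', h1, h2⟩ := exists_coarser w (by omega)
    obtain ⟨w'', h3, h4⟩ := ih w' (by omega)
    exact ⟨w'', h1.trans h3, h4⟩

lemma finrank_ker (w : Fin n → (Fin r → ℤ))
    (hn : n ≤ Module.finrank ℤ (Submodule.span ℤ (Set.range w)) + 2) :
    Module.finrank ℤ (LinearMap.ker (wt w)) ≤ 2 := by
  have h1 := rank_null (wt w)
  have h2 : LinearMap.range (wt w) = Submodule.span ℤ (Set.range w) :=
    Fintype.range_linearCombination ℤ w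
  rw [h2, Module.finrank_pi, Fintype.card_fin] at h1
  omega

end coarse

section main

open MvPolynomial

variable {k : Type} [Field k] {n r : ℕ}

attribute [local instance] MvPolynomial.weightedGradedAlgebra

/-- Ideals in principal ideal domains. -/
theorem hasPR_pid {A : Type} [CommRing A] [IsDomain A] [Algebra k A] [Algebra.Smooth k A]
    (hA : IsPrincipalIdealRing A) (J : Ideal A) (hJ : J ≠ ⊥) : HasPR k A J := by
  have hc : blChart k (fun _ : Fin 1 => (1 : A)) 0 = (gA k A).range := by
    unfold blChart
    apply le_antisymm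
    · rw [Algebra.adjoin_le_iff]
      rintro _ (⟨a, rfl⟩ | ⟨j, rfl⟩)
      · exact ⟨a, rfl⟩
      · change algebraMap A (FractionRing A) 1 / algebraMap A (FractionRing A) 1 ∈ _
        rw [map_one, div_one]
        exact Subalgebra.one_mem _
    · rintro _ ⟨a, rfl⟩
      exact Algebra.subset_adjoin (Or.inl ⟨a, rfl⟩)
  obtain ⟨d, hd⟩ := (hA.principal J).principal
  have hd0 : d ≠ 0 := by
    rintro rfl
    exact hJ (by rw [hd]; exact Submodule.span_zero_singleton A)
  refine hasPR_bl (fun _ : Fin 1 => (1 : A)) (fun _ => one_ne_zero) ?_ J ?_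
  · intro i
    have hi : i = 0 := Fin.fin_one_eq_zero i
    subst hi
    rw [hc]
    exact Algebra.Smooth.of_equiv (eA k A)
  · intro i
    have hi : i = 0 := Fin.fin_one_eq_zero i
    subst hi
    rw [hc]
    refine ⟨d, by rw [hd]; exact Submodule.mem_span_singleton_self d, hd0, fun a ha => ?_⟩
    rw [hd] at ha
    obtain ⟨c, rfl⟩ := Submodule.mem_span_singleton.1 ha
    rw [smul_eq_mul, map_mul, mul_div_cancel_right₀ _ (am_ne hd0)]
    exact ⟨c, rfl⟩

/-- Homogeneous ideals of polynomial rings with gradings of complexity at most two. -/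
theorem hasPR_aff [PerfectField k] (w : Fin n → (Fin r → ℤ))
    (hn : n ≤ Module.finrank ℤ (Submodule.span ℤ (Set.range w)) + 2)
    (J : Ideal (MvPolynomial (Fin n) k)) (hJ : J ≠ ⊥) (S : Set (MvPolynomial (Fin n) k))
    (hS : ∀ s ∈ S, ∃ d, IsWeightedHomogeneous w s d) (hJS : J = Ideal.span S) :
    HasPR k (MvPolynomial (Fin n) k) J := by
  have hsm : Algebra.Smooth k (MvPolynomial (Fin n) k) :=
    { formallySmooth := inferInstance
      finitePresentation := inferInstance }
  rcases Nat.lt_or_ge n 2 with h | h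
  · refine hasPR_pid ?_ J hJ
    rcases Nat.lt_or_ge n 1 with h' | h'
    · obtain rfl : n = 0 := by omega
      exact IsPrincipalIdealRing.of_surjective
        ((MvPolynomial.isEmptyAlgEquiv k (Fin 0)).symm : k →+* MvPolynomial (Fin 0) k)
        (MvPolynomial.isEmptyAlgEquiv k (Fin 0)).symm.surjective
    · obtain rfl : n = 1 := by omega
      exact IsPrincipalIdealRing.of_surjective
        ((MvPolynomial.uniqueAlgEquiv k (Fin 1)).symm : Polynomial k →+* MvPolynomial (Fin 1) k)
        (MvPolynomial.uniqueAlgEquiv k (Fin 1)).symm.surjective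
  · have h1 := finrank_ker w hn
    obtain ⟨w', h2, h3⟩ := exists_two h (2 - Module.finrank ℤ (LinearMap.ker (wt w))) w
      (by omega)
    obtain ⟨m, b⟩ := Submodule.basisOfPid (Pi.basisFun ℤ (Fin n)) (LinearMap.ker (wt w'))
    have hm : m = 2 := by
      rw [← h3, Module.finrank_eq_card_basis b, Fintype.card_fin]
    subst hm
    refine hasPR_graded (𝒜 := weightedHomogeneousSubmodule k w') (trdeg_homFrac w' b)
      (hasModel_homFrac w' b) J hJ S ?_ hJS
    intro s hs
    obtain ⟨d, hd⟩ := hS s hs
    by_cases h0 : s = 0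
    · subst h0
      exact ⟨0, Submodule.zero_mem _⟩
    obtain ⟨β, hβ⟩ : ∃ β, coeff β s ≠ 0 := by
      by_contra hcon
      push Not at hcon
      exact h0 (MvPolynomial.ext _ _ fun β => by rw [hcon β, coeff_zero])
    refine ⟨Finsupp.weight w' β, ?_⟩
    rw [mem_weightedHomogeneousSubmodule]
    intro α hα
    rw [← wt_nat, ← wt_nat, ← sub_eq_zero, ← map_sub]
    refine h2 ?_
    rw [LinearMap.mem_ker, map_sub, wt_nat, wt_nat, hd hα, hd hβ, sub_self]

end main

end Pool.Agent.Helper44x.DM
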