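import Pool.Agent.Helper44x.DM.VecMain

/-!
Monomial ideals: translations by vectors of monomials.
-/

set_option autoImplicit false
set_option linter.unusedVariables false
set_option linter.unusedSectionVars false

open TensorProduct AlgebraicGeometry CategoryTheory Pool.Agent.W558 Pool.Agent.H920R2

namespace Pool.Agent.Helper44x.DM

section mono

variable {k A : Type} [Field k] [CommRing A] [IsDomain A] [Algebra k A] [Algebra.Smooth k A]
  {n : ℕ} (x : Fin n → A) (hx : ∀ i, x i ≠ 0) (D : Fin n → Derivation k A A)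
  (hD1 : ∀ i, D i (x i) = 1) (hD0 : ∀ i j, j ≠ i → D i (x j) = 0)

/-- The isomorphism of `A` with its image in the fraction field. -/
noncomputable def eA (k A : Type) [Field k] [CommRing A] [IsDomain A] [Algebra k A] :
    A ≃ₐ[k] (gA k A).range :=
  AlgEquiv.ofInjective (gA k A) (IsFractionRing.injective A (FractionRing A))

/-- The tangent vector given by a derivation. -/
noncomputable def tvD (δ : Derivation k A A) {κ : Type} [Field κ] [Algebra k κ]
    (φ : (gA k A).range →ₐ[k] κ) : TV φ where
  D := (φ.comp (eA k A : A →ₐ[k] (gA k A).range)).toLinearMap ∘ₗ δ.toLinearMap ∘ₗ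
    ((eA k A).symm : (gA k A).range →ₐ[k] A).toLinearMap
  leib := by
    intro a b
    change φ (eA k A (δ ((eA k A).symm (a * b)))) = φ a * φ (eA k A (δ ((eA k A).symm b))) +
      φ b * φ (eA k A (δ ((eA k A).symm a)))
    rw [map_mul, Derivation.leibniz, smul_eq_mul, smul_eq_mul, map_add, map_mul, map_mul, map_add,
      map_mul, map_mul, AlgEquiv.apply_symm_apply, AlgEquiv.apply_symm_apply]

/-- The trivial model with the coordinate divisors. -/
noncomputable def lmA : LM (gA k A).range (gA k A).range Unit (Fin n) where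
  A := fun _ => (gA k A).range
  H := fun _ => 1
  x := fun _ i => gA k A (x i)
  sm := fun _ => Algebra.Smooth.of_equiv (eA k A)
  base := fun _ => le_rfl
  H0 := fun _ => one_ne_zero
  HR := fun _ => Subalgebra.one_mem _
  rt := fun _ _ => by rw [div_one]; exact Subalgebra.one_mem _
  gl := fun _ _ f hf => ⟨0, by rw [pow_zero, one_mul]; exact hf⟩
  dn := fun _ f hf => ⟨0, by rw [pow_zero, one_mul]; exact hf⟩
  cv := fun V hV => ⟨(), hV⟩
  xA := fun _ i => ⟨x i, rfl⟩
  x0 := fun _ i h => hx i (IsFractionRing.injective A (FractionRing A) (h.trans (map_zero _).symm))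
  gi := fun _ _ i => ⟨0, by
    have h : gA k A (x i) ≠ 0 := fun h =>
      hx i (IsFractionRing.injective A (FractionRing A) (h.trans (map_zero _).symm))
    rw [pow_zero, one_mul, div_self h]
    exact Subalgebra.one_mem _⟩
  snc := by
    intro _ κ _ _ φ i hi hφ
    have he : ∀ (a : A) (h : gA k A a ∈ (gA k A).range),
        (eA k A).symm ⟨gA k A a, h⟩ = a := fun a h => (eA k A).symm_apply_apply a
    refine ⟨tvD (D i) φ, ?_, ?_⟩
    · change φ (eA k A (D i ((eA k A).symm ⟨gA k A (x i), hi⟩))) = 1
      rw [he, hD1, map_one, map_one]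
    · intro j hj hji _
      change φ (eA k A (D i ((eA k A).symm ⟨gA k A (x j), hj⟩))) = 0
      rw [he, hD0 i j hji, map_zero, map_zero]

include hx hD1 hD0 in
/-- Ideals generated by monomials in coordinates. -/
theorem hasPR_mono [IsNoetherianRing A] (J : Ideal A) (hJ : J ≠ ⊥) (S : Set (Fin n → ℕ))
    (hS : J = Ideal.span ((fun a => ∏ i, x i ^ a i) '' S)) : HasPR k A J := by
  classical
  have hfg : (Submodule.span A ((fun a => ∏ i, x i ^ a i) '' S)).FG := by
    have : J.FG := IsNoetherian.noetherian J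
    rw [hS] at this
    exact this
  obtain ⟨F0, hF0S, hF0⟩ := (Submodule.fg_span_iff_fg_span_finset_subset _).1 hfg
  let G : Type := {y : A // y ∈ F0}
  choose a haS ha using fun y : G => hF0S y.2
  have hF : Fn (lmA x hx D hD1 hD0) (fun y : G => gA k A y.1) (fun y i => (a y i : ℤ)) := by
    intro y _
    refine ⟨1, one_ne_zero, Subalgebra.one_mem _, by rw [inv_one]; exact Subalgebra.one_mem _, ?_⟩
    rw [one_mul]
    have h1 := ha y
    change gA k A y.1 = ∏ i, gA k A (x i) ^ (a y i : ℤ)
    rw [← h1]
    simp only [map_prod, map_pow, zpow_natCast]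
  have hne : Nonempty G := by
    by_contra hcon
    rw [not_nonempty_iff] at hcon
    apply hJ
    rw [hS]
    change Submodule.span A _ = ⊥
    rw [hF0]
    refine Ideal.span_eq_bot.2 fun y hy => ?_
    exact (hcon.elim ⟨y, hy⟩ : y = 0)
  refine hasPR_of_LM (lmA x hx D hD1 hD0) (fun y : G => y.1) _ hF id J ?_
  rw [hS]
  change Submodule.span A _ = _
  rw [hF0]
  congr 1
  ext y
  simp [G]

end mono

section lin

open MvPolynomial

variable {k : Type} [Field k] {n m : ℕ} (a : Fin m → (Fin n →₀ ℕ))

/-- The vector of the monomials `c j * x ^ a j`. -/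
noncomputable def monVec : (Fin m → k) →+ (Fin m → MvPolynomial (Fin n) k) where
  toFun c := fun j => monomial (a j) (c j)
  map_zero' := by
    funext j
    rw [Pi.zero_apply, map_zero]
    rfl
  map_add' c c' := by
    funext j
    rw [Pi.add_apply, map_add]
    rfl

lemma monVec_apply (c : Fin m → k) (j : Fin m) : monVec a c j = monomial (a j) (c j) := rfl

/-- The ideal of the minors is generated by monomials. -/
theorem vecIdeal_mono (Γ : AddSubgroup (Fin m → MvPolynomial (Fin n) k))
    [Fintype (Multiplicative Γ)] [DecidableEq (Multiplicative Γ)]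
    (hc : ∀ g : Multiplicative Γ, ∃ c : Fin m → k, monVec a c = (g.toAdd : Fin m → _)) :
    ∃ S : Set (Fin n → ℕ), vecIdeal k Γ =
      Ideal.span ((fun b => ∏ i, (X i : MvPolynomial (Fin n) k) ^ b i) '' S) := by
  choose c hc using hc
  let e : (Multiplicative Γ → (Fin m →₀ ℕ)) → Multiplicative Γ → (Fin n →₀ ℕ) :=
    fun α h => ∑ j, α h j • a j
  let dd : (Multiplicative Γ → (Fin m →₀ ℕ)) → k := fun α =>
    (Matrix.of fun h g : Multiplicative Γ => ∏ j, c g j ^ α h j).det
  have hprod : ∀ (J : Finset (Fin m)) (b : Fin m → (Fin n →₀ ℕ)) (z : Fin m → k),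
      ∏ j ∈ J, (monomial (b j) (z j) : MvPolynomial (Fin n) k) =
        monomial (∑ j ∈ J, b j) (∏ j ∈ J, z j) := by
    classical
    intro J b z
    induction J using Finset.induction_on with
    | empty => rw [Finset.prod_empty, Finset.sum_empty, Finset.prod_empty]; rfl
    | insert i J hi ih => 
      rw [Finset.prod_insert hi, Finset.sum_insert hi, Finset.prod_insert hi, ih, monomial_mul]
  have hprod' : ∀ (J : Finset (Multiplicative Γ)) (b : Multiplicative Γ → (Fin n →₀ ℕ)),
      ∏ j ∈ J, (monomial (b j) 1 : MvPolynomial (Fin n) k) = monomial (∑ j ∈ J, b j) 1 := by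
    classical
    intro J b
    induction J using Finset.induction_on with
    | empty => rw [Finset.prod_empty, Finset.sum_empty]; rfl
    | insert i J hi ih => 
      rw [Finset.prod_insert hi, Finset.sum_insert hi, ih, monomial_mul, one_mul]
  have hmd : ∀ α, mdet Γ α = monomial (∑ h, e α h) 1 * C (dd α) := by
    intro α
    have h1 : (Matrix.of fun h g : Multiplicative Γ => ∏ j, (g.toAdd : Fin m → _) j ^ α h j) =
        Matrix.of fun h g : Multiplicative Γ => (monomial (e α h) (1 : k)) *
          (Matrix.of fun h g : Multiplicative Γ =>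
            (C (∏ j, c g j ^ α h j) : MvPolynomial (Fin n) k)) h g := by
      refine Matrix.ext fun h g => ?_
      change ∏ j, (g.toAdd : Fin m → MvPolynomial (Fin n) k) j ^ α h j =
        monomial (e α h) (1 : k) * C (∏ j, c g j ^ α h j)
      rw [mul_comm, C_mul_monomial, mul_one]
      have h2 : ∀ j, (g.toAdd : Fin m → MvPolynomial (Fin n) k) j ^ α h j =
          monomial (α h j • a j) (c g j ^ α h j) := by
        intro j
        rw [← hc g, monVec_apply, monomial_pow]
      simp only [h2]
      exact hprod _ _ _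
    unfold mdet
    rw [h1, Matrix.det_mul_column]
    congr 1
    · exact hprod' _ _
    · change (Matrix.of fun h g : Multiplicative Γ =>
        (C (∏ j, c g j ^ α h j) : MvPolynomial (Fin n) k)).det = C _
      rw [RingHom.map_det]
      rfl
  have hmono : ∀ b : Fin n →₀ ℕ, (monomial b 1 : MvPolynomial (Fin n) k) = ∏ i, X i ^ b i := by
    intro b
    rw [monomial_eq, C_1, one_mul, Finsupp.prod_fintype _ _ fun i => pow_zero _]
  refine ⟨{b | ∃ α, dd α ≠ 0 ∧ b = ⇑(∑ h, e α h)}, ?_⟩
  rw [vecIdeal_span]
  apply le_antisymm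
  · refine Ideal.span_le.2 ?_
    rintro _ ⟨α, rfl⟩
    rw [hmd]
    by_cases h0 : dd α = 0
    · rw [h0, C_0, mul_zero]
      exact Ideal.zero_mem _
    · refine Ideal.mul_mem_right _ _ (Ideal.subset_span ⟨_, ⟨α, h0, rfl⟩, ?_⟩)
      exact (hmono _).symm
  · refine Ideal.span_le.2 ?_
    rintro _ ⟨_, ⟨α, h0, rfl⟩, rfl⟩
    have h1 : (fun b : Fin n → ℕ => ∏ i, (X i : MvPolynomial (Fin n) k) ^ b i)
        (⇑(∑ h, e α h)) = mdet Γ α * C (dd α)⁻¹ := by
      rw [hmd, mul_assoc, ← C_mul, mul_inv_cancel₀ h0, C_1, mul_one, hmono]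
    rw [h1]
    exact Ideal.mul_mem_right _ _ (Ideal.subset_span ⟨α, rfl⟩)

/-- The ideal of the minors becomes principal on a smooth modification. -/
theorem hasPR_lin (Γ : AddSubgroup (Fin m → MvPolynomial (Fin n) k))
    [Fintype (Multiplicative Γ)] [DecidableEq (Multiplicative Γ)]
    (hc : ∀ g : Multiplicative Γ, ∃ c : Fin m → k, monVec a c = (g.toAdd : Fin m → _))
    (h : vecIdeal k Γ ≠ ⊥) :
    HasPR k (MvPolynomial (Fin n) k) (vecIdeal k Γ) := by
  have hsm : Algebra.Smooth k (MvPolynomial (Fin n) k) :=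
    { formallySmooth := inferInstance
      finitePresentation := inferInstance }
  obtain ⟨S, hS⟩ := vecIdeal_mono a Γ hc
  refine hasPR_mono (x := fun i : Fin n => (X i : MvPolynomial (Fin n) k)) (fun i => X_ne_zero i)
    (fun i => pderiv i) (fun i => pderiv_X_self i) (fun i j hji => pderiv_X_of_ne hji) _ h S hS

end lin

end Pool.Agent.Helper44x.DM
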