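import Pool.Agent.Helper44x.DM.HopfMain
import Pool.Agent.Helper44x.DM.Mono

/-!
Smooth blowups on which a given ideal becomes principal.
-/

set_option autoImplicit false
set_option linter.unusedVariables false
set_option linter.unusedSectionVars false

open TensorProduct AlgebraicGeometry CategoryTheory Pool.Agent.W558 Pool.Agent.H920R2

namespace Pool.Agent.Helper44x.DM

section bl

variable {k A : Type} [Field k] [CommRing A] [IsDomain A] [Algebra k A]

/-- The ring of functions on the chart `H i ≠ 0` of the blowup of the ideal generated by the `H j`. -/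
def blChart (k : Type) [Field k] [Algebra k A] {N : ℕ} (H : Fin (N + 1) → A)
    (i : Fin (N + 1)) : Subalgebra k (FractionRing A) :=
  Algebra.adjoin k (Set.range (algebraMap A (FractionRing A)) ∪
    Set.range fun j => algebraMap A (FractionRing A) (H j) / algebraMap A (FractionRing A) (H i))

variable {N : ℕ} (H : Fin (N + 1) → A)

lemma blChart_base (i : Fin (N + 1)) (a : A) :
    algebraMap A (FractionRing A) a ∈ blChart k H i :=
  Algebra.subset_adjoin (Or.inl ⟨a, rfl⟩)

lemma blChart_rt (i j : Fin (N + 1)) :
    algebraMap A (FractionRing A) (H j) / algebraMap A (FractionRing A) (H i) ∈ blChart k H i :=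
  Algebra.subset_adjoin (Or.inr ⟨j, rfl⟩)

/-- Smooth blowups as atlases. -/
theorem atl_bl (hH : ∀ i, H i ≠ 0) (hsm : ∀ i, Algebra.Smooth k (blChart k H i)) :
    Atl (IsScalarTower.toAlgHom k A (FractionRing A)) (fun i => blChart k H i)
      (fun i => algebraMap A (FractionRing A) (H i)) := by
  have h0 : ∀ i, algebraMap A (FractionRing A) (H i) ≠ 0 := fun i h =>
    hH i (IsFractionRing.injective A (FractionRing A) (h.trans (map_zero _).symm))
  refine
  { sm := hsm
    aa := fun t a => blChart_base H t a
    H0 := h0
    hA := fun t => ⟨H t, rfl⟩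
    rt := fun t t' => blChart_rt H t t'
    gl := ?_
    dn := ?_
    cv := ?_ }
  · intro t t' x hx
    change x ∈ Algebra.adjoin k _ at hx
    induction hx using Algebra.adjoin_induction with
    | mem x hx =>
      rcases hx with ⟨a, rfl⟩ | ⟨j, rfl⟩
      · exact ⟨0, by rw [pow_zero, one_mul]; exact blChart_base H t a⟩
      · refine ⟨1, ?_⟩
        have h1 : (algebraMap A (FractionRing A) (H t') / algebraMap A (FractionRing A) (H t)) ^ 1 *
            (algebraMap A (FractionRing A) (H j) / algebraMap A (FractionRing A) (H t')) =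
            algebraMap A (FractionRing A) (H j) / algebraMap A (FractionRing A) (H t) := by
          have := h0 t'
          have := h0 t
          field_simp
        rw [h1]
        exact blChart_rt H t j
    | algebraMap r => exact ⟨0, by
        rw [pow_zero, one_mul]; exact Subalgebra.algebraMap_mem _ _⟩
    | add x y _ _ hx hy =>
      obtain ⟨n, hn⟩ := hx
      obtain ⟨m, hm⟩ := hy
      refine ⟨n + m, ?_⟩
      have h1 := Subalgebra.pow_mem _ (blChart_rt (k := k) H t t') m
      have h2 := Subalgebra.pow_mem _ (blChart_rt (k := k) H t t') n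
      rw [show (algebraMap A (FractionRing A) (H t') / algebraMap A (FractionRing A) (H t)) ^
        (n + m) * (x + y) =
        (algebraMap A (FractionRing A) (H t') / algebraMap A (FractionRing A) (H t)) ^ m *
        ((algebraMap A (FractionRing A) (H t') / algebraMap A (FractionRing A) (H t)) ^ n * x) +
        (algebraMap A (FractionRing A) (H t') / algebraMap A (FractionRing A) (H t)) ^ n *
        ((algebraMap A (FractionRing A) (H t') / algebraMap A (FractionRing A) (H t)) ^ m * y)
        by ring]
      exact add_mem (mul_mem h1 hn) (mul_mem h2 hm)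
    | mul x y _ _ hx hy =>
      obtain ⟨n, hn⟩ := hx
      obtain ⟨m, hm⟩ := hy
      refine ⟨n + m, ?_⟩
      rw [show (algebraMap A (FractionRing A) (H t') / algebraMap A (FractionRing A) (H t)) ^
        (n + m) * (x * y) =
        ((algebraMap A (FractionRing A) (H t') / algebraMap A (FractionRing A) (H t)) ^ n * x) *
        ((algebraMap A (FractionRing A) (H t') / algebraMap A (FractionRing A) (H t)) ^ m * y)
        by ring]
      exact mul_mem hn hm
  · intro t x hx
    change x ∈ Algebra.adjoin k _ at hx
    change ∃ (n : ℕ) (a : A), algebraMap A (FractionRing A) (H t) ^ n * x =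
      algebraMap A (FractionRing A) a
    induction hx using Algebra.adjoin_induction with
    | mem x hx =>
      rcases hx with ⟨a, rfl⟩ | ⟨j, rfl⟩
      · exact ⟨0, a, by rw [pow_zero, one_mul]⟩
      · exact ⟨1, H j, by rw [pow_one, mul_div_cancel₀ _ (h0 t)]⟩
    | algebraMap r => exact ⟨0, algebraMap k A r, by
        rw [pow_zero, one_mul, ← IsScalarTower.algebraMap_apply]⟩
    | add x y _ _ hx hy =>
      obtain ⟨n, a, hn⟩ := hx
      obtain ⟨m, b, hm⟩ := hy
      refine ⟨n + m, H t ^ m * a + H t ^ n * b, ?_⟩
      rw [map_add, map_mul, map_mul, map_pow, map_pow, ← hn, ← hm]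
      ring
    | mul x y _ _ hx hy =>
      obtain ⟨n, a, hn⟩ := hx
      obtain ⟨m, b, hm⟩ := hy
      refine ⟨n + m, a * b, ?_⟩
      rw [map_mul, ← hn, ← hm]
      ring
  · intro V hV
    obtain ⟨t, ht⟩ : ∃ t, ∀ j, V.valuation (algebraMap A (FractionRing A) (H j)) ≤
        V.valuation (algebraMap A (FractionRing A) (H t)) := by
      obtain ⟨t, -, ht⟩ := Finset.exists_max_image Finset.univ
        (fun j => V.valuation (algebraMap A (FractionRing A) (H j))) Finset.univ_nonempty
      exact ⟨t, fun j => ht j (Finset.mem_univ j)⟩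
    refine ⟨t, fun x hx => ?_⟩
    change x ∈ Algebra.adjoin k _ at hx
    induction hx using Algebra.adjoin_induction with
    | mem x hx =>
      rcases hx with ⟨a, rfl⟩ | ⟨j, rfl⟩
      · exact hV a
      · rw [← V.valuation_le_one_iff, map_div₀]
        exact div_le_one_of_le₀ (ht j) zero_le'
    | algebraMap r =>
      rw [IsScalarTower.algebraMap_apply k A (FractionRing A)]
      exact hV _
    | add x y _ _ hx hy => exact add_mem hx hy
    | mul x y _ _ hx hy => exact mul_mem hx hy

/-- Ideals which become principal on a smooth blowup. -/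
theorem hasPR_bl (hH : ∀ i, H i ≠ 0) (hsm : ∀ i, Algebra.Smooth k (blChart k H i)) (I : Ideal A)
    (hI : ∀ i, ∃ d ∈ I, d ≠ 0 ∧ ∀ a ∈ I,
      algebraMap A (FractionRing A) a / algebraMap A (FractionRing A) d ∈ blChart k H i) :
    HasPR k A I :=
  ⟨Fin (N + 1), inferInstance, _, _, atl_bl H hH hsm, hI⟩

end bl

end Pool.Agent.Helper44x.DM
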