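import Pool.Agent.N98.SS.Serre
import Pool.Agent.N864.GT.Sm
import Pool.Agent.H920R2.Sr1

/-!
Flat descent of regularity and smoothness.
-/

set_option autoImplicit false
set_option linter.unusedVariables false
set_option linter.unusedSectionVars false

open CategoryTheory Abelian IsLocalRing R688.PC TensorProduct

universe u

namespace Pool.Agent.Helper44x.DM

section flat

variable {A C : Type u} [CommRing A] [IsLocalRing A] [IsNoetherianRing A] [CommRing C]
  [IsLocalRing C] [Algebra A C] [Module.Flat A C] [IsLocalHom (algebraMap A C)]

lemma ff : Module.FaithfullyFlat A C := Module.FaithfullyFlat.of_flat_of_isLocalHom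

/-- Projective dimensions descend along flat local homomorphisms. -/
theorem pd_descend (n : ℕ) : ∀ (M : Type u) [AddCommGroup M] [Module A M] [Module.Finite A M],
    HasProjectiveDimensionLT (ModuleCat.of C (C ⊗[A] M)) (n + 1) →
      HasProjectiveDimensionLT (ModuleCat.of A M) (n + 1) := by
  have hff : Module.FaithfullyFlat A C := ff
  induction n with
  | zero =>
    intro M _ _ _ h
    rw [← projective_iff_hasProjectiveDimensionLT_one, ← IsProjective.iff_projective] at h ⊢
    have h1 : Module.Flat C (C ⊗[A] M) := inferInstance
    have h2 : Module.Flat A M := Module.Flat.of_flat_tensorProduct A M C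
    have h3 : Module.Free A M := Module.free_of_flat_of_isLocalRing
    infer_instance
  | succ n ih =>
    intro M _ _ _ h
    obtain ⟨r, π, hπ⟩ := Module.Finite.exists_fin' A M
    have hS := scx_se (LinearMap.exact_subtype_ker_map π) (LinearMap.ker π).subtype_injective hπ
    have hP : Projective (ModuleCat.of A (Fin r → A)) := by
      rw [← IsProjective.iff_projective]
      infer_instance
    refine (hS.hasProjectiveDimensionLT_X₃_iff n hP).2 (ih _ ?_)
    have e1 : Function.Exact ((LinearMap.ker π).subtype.baseChange C) (π.baseChange C) :=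
      lTensor_exact C (LinearMap.exact_subtype_ker_map π) hπ
    have e2 : Function.Injective ((LinearMap.ker π).subtype.baseChange C) :=
      Module.Flat.lTensor_preserves_injective_linearMap (M := C) _ (LinearMap.ker π).subtype_injective
    have e3 : Function.Surjective (π.baseChange C) := LinearMap.lTensor_surjective C hπ
    have hS' := scx_se e1 e2 e3
    have hP' : Projective (ModuleCat.of C (C ⊗[A] (Fin r → A))) := by
      rw [← IsProjective.iff_projective]
      infer_instance
    exact (hS'.hasProjectiveDimensionLT_X₃_iff n hP').1 h

end flat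

/-- Regularity descends along flat local homomorphisms. -/
theorem regular_descend {A C : Type u} [CommRing A] [IsLocalRing A] [IsNoetherianRing A]
    [CommRing C] [IsRegularLocalRing C] [Algebra A C] [Module.Flat A C]
    [IsLocalHom (algebraMap A C)] : IsRegularLocalRing A := by
  obtain ⟨d, hd⟩ := Pool.Agent.H379R3.exists_dim_eq (B := C)
  have h1 : HasProjectiveDimensionLE (ModuleCat.of C (C ⊗[A] (A ⧸ maximalIdeal A))) d :=
    Pool.Agent.N98.SS.pd_regular d C hd _
  have h2 : HasProjectiveDimensionLT (ModuleCat.of A (A ⧸ maximalIdeal A)) (d + 1) :=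
    pd_descend d _ h1
  have h4 := @HasProjectiveDimensionLT.subsingleton _ _ _ _
    (ModuleCat.of A (A ⧸ maximalIdeal A)) (d + 1) h2
  obtain ⟨e, he⟩ : ∃ e : ℕ, ringKrullDim A ≤ e := by
    have h5 : ringKrullDim A ≠ ⊤ := ringKrullDim_ne_top
    have h6 : ringKrullDim A ≠ ⊥ := ringKrullDim_ne_bot
    generalize ringKrullDim A = x at h5 h6
    induction x with
    | bot => exact absurd rfl h6
    | coe x =>
      induction x with
      | top => exact absurd rfl h5
      | coe x => exact ⟨x, le_rfl⟩
  exact serre e A he (d + 1) (h4 (d + 1) le_rfl (ModuleCat.of A (A ⧸ maximalIdeal A)))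

end Pool.Agent.Helper44x.DM
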