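import Pool.Agent.Helper44x.DM.Descent
import Pool.Agent.R837.FN.Norm

/-!
Alternating forms: a domain is flat over a subring of finite degree if the values of an alternating
form generate an invertible ideal.
-/

set_option autoImplicit false
set_option linter.unusedVariables false
set_option linter.unusedSectionVars false

open Polynomial

universe u

namespace Pool.Agent.Helper44x.DM

section loc

variable {S T K L : Type u} [CommRing S] [IsDomain S] [CommRing T] [IsDomain T] [Field K] [Field L]
  [Algebra S T] [Algebra S K] [Algebra T L] [Algebra K L] [Algebra S L] [IsScalarTower S T L]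
  [IsScalarTower S K L] [IsFractionRing S K] [FaithfulSMul T L]

/-- The minimal polynomial of a multiple. -/
lemma minpoly_mul {x : K} (hx : x ≠ 0) {t : L} (ht : IsIntegral K t) :
    minpoly K (algebraMap K L x * t) = (minpoly K t).scaleRoots x := by
  symm
  have h1 : (aeval (algebraMap K L x * t)) ((minpoly K t).scaleRoots x) = 0 := by
    have := scaleRoots_aeval_eq_zero (A := L) (p := minpoly K t) (a := t) (r := x) (minpoly.aeval K t)
    exact this
  refine minpoly.unique K _ ((monic_scaleRoots_iff x).2 (minpoly.monic ht)) h1 ?_
  intro q hq hq0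
  rw [degree_scaleRoots]
  have h2 : (aeval t) (q.scaleRoots x⁻¹) = 0 := by
    have h3 := scaleRoots_aeval_eq_zero (A := L) (p := q) (a := algebraMap K L x * t) (r := x⁻¹) hq0
    rw [← mul_assoc, ← map_mul, inv_mul_cancel₀ hx, map_one, one_mul] at h3
    exact h3
  have h4 := minpoly.min K t ((monic_scaleRoots_iff x⁻¹).2 hq) h2
  rwa [degree_scaleRoots] at h4

/-- Elements of the small field which are regular at one point of the fibre. -/
theorem exists_frac [IsIntegrallyClosed S] [Algebra.IsIntegral S T] (Q : Ideal T) [Q.IsPrime] {x : K}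
    {t b : T} (ht : t ∉ Q) (h : algebraMap K L x * algebraMap T L t = algebraMap T L b) :
    ∃ a s : S, algebraMap S T s ∉ Q ∧ x * algebraMap S K s = algebraMap S K a := by
  by_cases hx : x = 0
  · refine ⟨0, 1, ?_, by rw [hx, zero_mul, map_zero]⟩
    rw [map_one]
    exact fun h => (inferInstance : Q.IsPrime).ne_top ((Ideal.eq_top_iff_one Q).2 h)
  have hint : IsIntegral S t := Algebra.IsIntegral.isIntegral t
  have hintb : IsIntegral S b := Algebra.IsIntegral.isIntegral b
  have hintL : IsIntegral S (algebraMap T L t) := hint.algebraMap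
  have hintbL : IsIntegral S (algebraMap T L b) := hintb.algebraMap
  have hinj : Function.Injective (algebraMap S L) := by
    rw [IsScalarTower.algebraMap_eq S K L]
    exact (algebraMap K L).injective.comp (IsFractionRing.injective S K)
  have hfaith : FaithfulSMul S L := (faithfulSMul_iff_algebraMap_injective S L).2 hinj
  have e1 : minpoly K (algebraMap T L t) = (minpoly S (algebraMap T L t)).map (algebraMap S K) :=
    minpoly.isIntegrallyClosed_eq_field_fractions' K hintL
  have e2 : minpoly K (algebraMap T L b) = (minpoly S (algebraMap T L b)).map (algebraMap S K) :=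
    minpoly.isIntegrallyClosed_eq_field_fractions' K hintbL
  have e3 : minpoly K (algebraMap T L b) = (minpoly K (algebraMap T L t)).scaleRoots x := by
    rw [← h]
    exact minpoly_mul hx hintL.tower_top
  set P := minpoly S (algebraMap T L t) with hP
  set n := P.natDegree with hn
  have hmon : P.Monic := minpoly.monic hintL
  -- some lower coefficient is outside Q
  have hex : ∃ i < n, algebraMap S T (P.coeff i) ∉ Q := by
    by_contra hcon
    push Not at hcon
    apply ht
    have h0 : aeval t P = 0 := by
      apply FaithfulSMul.algebraMap_injective T L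
      rw [← aeval_algebraMap_apply, minpoly.aeval, map_zero]
    rw [aeval_eq_sum_range, Finset.sum_range_succ, hmon.coeff_natDegree, one_smul] at h0
    have h1 : ∑ i ∈ Finset.range P.natDegree, P.coeff i • t ^ i ∈ Q := by
      refine Q.sum_mem fun i hi => ?_
      rw [Algebra.smul_def]
      exact Q.mul_mem_right _ (hcon i (Finset.mem_range.1 hi))
    have h2 : t ^ P.natDegree ∈ Q := by
      rw [← eq_neg_iff_add_eq_zero] at h0
      have h3 : t ^ P.natDegree = -∑ i ∈ Finset.range P.natDegree, P.coeff i • t ^ i := by
        rw [h0, neg_neg]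
      rw [h3]
      exact Q.neg_mem h1
    exact (inferInstance : Q.IsPrime).mem_of_pow_mem _ h2
  obtain ⟨i, hi, hiQ⟩ := hex
  set a := P.coeff i with ha
  -- the scaled coefficient is in S
  have h5 : algebraMap S K ((minpoly S (algebraMap T L b)).coeff i) =
      algebraMap S K a * x ^ (n - i) := by
    rw [← coeff_map, ← e2, e3, coeff_scaleRoots, e1, coeff_map,
      hmon.natDegree_map (algebraMap S K)]
  have h6 : IsIntegral S (x * algebraMap S K a) := by
    refine IsIntegral.of_pow (n := n - i) (by omega) ?_
    have h7 : (x * algebraMap S K a) ^ (n - i) = algebraMap S K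
        (a ^ (n - i - 1) * (minpoly S (algebraMap T L b)).coeff i) := by
      rw [map_mul, h5, map_pow, mul_pow]
      have h8 : algebraMap S K a ^ (n - i) = algebraMap S K a ^ (n - i - 1) * algebraMap S K a := by
        rw [← pow_succ]
        congr 1
        omega
      rw [h8]
      ring
    rw [h7]
    exact isIntegral_algebraMap
  obtain ⟨c, hc⟩ := IsIntegrallyClosed.isIntegral_iff.1 h6
  exact ⟨c, a, hiQ, hc.symm⟩

end loc

section form

variable {K L : Type u} [Field K] [Field L] [Algebra K L] {ι : Type} [Fintype ι] [DecidableEq ι]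
  [Nonempty ι]
  (D : L [⋀^ι]→ₗ[K] L) (hN : Module.finrank K L = Fintype.card ι)

include hN in
/-- Cramer's rule. -/
lemma cramer {r : ι → L} (hr : D r ≠ 0) (f : L) : ∃ c : ι → K, f = ∑ j, c j • r j ∧
    ∀ j, D (Function.update r j f) = c j • D r := by
  have hlin : LinearIndependent K r := by
    by_contra h
    exact hr (D.map_linearDependent r h)
  let b := basisOfLinearIndependentOfCardEqFinrank hlin hN.symm
  have hb : ∀ i, b i = r i := fun i => by
    rw [coe_basisOfLinearIndependentOfCardEqFinrank]
  refine ⟨fun j => b.repr f j, ?_, fun j => ?_⟩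
  · conv_lhs => rw [← b.sum_repr f]
    simp only [hb]
  · let φ : L →ₗ[K] L := D.toMultilinearMap.toLinearMap r j
    have h1 : φ = (LinearMap.toSpanSingleton K L (D r)) ∘ₗ (b.coord j) := by
      refine b.ext fun i => ?_
      change D (Function.update r j (b i)) = (b.repr (b i) j) • D r
      rw [hb, ← hb i, b.repr_self, hb]
      by_cases hij : i = j
      · subst hij
        rw [Function.update_eq_self, Finsupp.single_eq_same, one_smul]
      · rw [Finsupp.single_eq_of_ne (Ne.symm hij), zero_smul]
        exact D.map_update_self (v := r) (Ne.symm hij)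
    exact LinearMap.congr_fun h1 f

end form

section flat

variable {S T K L : Type u} [CommRing S] [IsDomain S] [CommRing T] [IsDomain T] [Field K] [Field L]
  [Algebra S T] [Algebra S K] [Algebra T L] [Algebra K L] [Algebra S L] [IsScalarTower S T L]
  [IsScalarTower S K L] [IsFractionRing S K] [FaithfulSMul T L] {ι : Type} [Fintype ι]
  [DecidableEq ι] [Nonempty ι] [IsIntegrallyClosed S] [Algebra.IsIntegral S T]
  (D : L [⋀^ι]→ₗ[K] L) (hN : Module.finrank K L = Fintype.card ι) (δ : L) (hδ : δ ≠ 0)
  (h1 : ∀ f : ι → T, ∃ b : T, D (fun i => algebraMap T L (f i)) = δ * algebraMap T L b)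
  (h2 : ∀ Q : Ideal T, Q.IsMaximal → ∃ (r : ι → T) (b : T), b ∉ Q ∧
    D (fun i => algebraMap T L (r i)) = δ * algebraMap T L b)

include hN hδ h1 h2

/-- Flatness. -/
theorem flat_of_form : Module.Flat S T := by
  classical
  have hSL : Function.Injective (algebraMap S L) := by
    rw [IsScalarTower.algebraMap_eq S K L]
    exact (algebraMap K L).injective.comp (IsFractionRing.injective S K)
  have hTL : Function.Injective (algebraMap T L) := FaithfulSMul.algebraMap_injective T L
  have hST : Function.Injective (algebraMap S T) := by
    intro a b hab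
    apply hSL
    rw [IsScalarTower.algebraMap_apply S T L, hab, ← IsScalarTower.algebraMap_apply S T L]
  apply Module.flat_of_localized_maximal
  intro P hP
  obtain ⟨Q, hQ, hQP⟩ := Ideal.exists_ideal_over_maximal_of_isIntegral (S := T) P (by
    rw [(RingHom.injective_iff_ker_eq_bot _).1 hST]
    exact bot_le)
  have hmem : ∀ s : S, algebraMap S T s ∉ Q ↔ s ∉ P := fun s => by
    rw [← hQP, Ideal.mem_comap]
  obtain ⟨r, b, hb, hD⟩ := h2 Q hQ
  have hbL : algebraMap T L b ≠ 0 := by
    intro h
    apply hb
    rw [hTL (h.trans (map_zero _).symm)]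
    exact Q.zero_mem
  have hD0 : D (fun i => algebraMap T L (r i)) ≠ 0 := by
    rw [hD]
    exact mul_ne_zero hδ hbL
  have hlin : LinearIndependent K (fun i => algebraMap T L (r i)) := by
    by_contra h
    exact hD0 (D.map_linearDependent _ h)
  -- coordinates
  have key : ∀ f : T, ∃ (a : ι → S) (s : S), s ∉ P ∧
      s • f = ∑ j, a j • r j := by
    intro f
    obtain ⟨c, hc, hc'⟩ := cramer D hN hD0 (algebraMap T L f)
    have h3 : ∀ j, ∃ a s : S, algebraMap S T s ∉ Q ∧ c j * algebraMap S K s = algebraMap S K a := by
      intro j
      obtain ⟨b', hb'⟩ := h1 (Function.update r j f)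
      refine exists_frac (L := L) Q hb (b := b') ?_
      have h4 := hc' j
      have h5 : (fun i => algebraMap T L (Function.update r j f i)) =
          Function.update (fun i => algebraMap T L (r i)) j (algebraMap T L f) := by
        funext i
        by_cases hij : i = j
        · subst hij
          rw [Function.update_self, Function.update_self]
        · rw [Function.update_of_ne hij, Function.update_of_ne hij]
      rw [h5, h4, hD, Algebra.smul_def] at hb'
      exact mul_left_cancel₀ hδ (by rw [← hb']; ring)
    choose a s hs hcs using h3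
    have hprod : ∀ j, ∃ s' : S, ∏ i, s i = s' * s j := fun j =>
      ⟨∏ i ∈ Finset.univ.erase j, s i, (Finset.prod_erase_mul _ _ (Finset.mem_univ j)).symm⟩
    choose s' hs' using hprod
    refine ⟨fun j => s' j * a j, ∏ i, s i, ?_, ?_⟩
    · rw [← hmem, map_prod]
      intro h
      obtain ⟨i, -, hi⟩ := (hQ.isPrime.prod_mem_iff).1 h
      exact hs i hi
    · apply hTL
      rw [Algebra.smul_def, map_mul, ← IsScalarTower.algebraMap_apply, hc, Finset.mul_sum, map_sum]
      refine Finset.sum_congr rfl fun j _ => ?_
      rw [Algebra.smul_def, Algebra.smul_def, map_mul, ← IsScalarTower.algebraMap_apply, map_mul,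
        ← mul_assoc]
      congr 1
      rw [hs' j, map_mul, mul_assoc, IsScalarTower.algebraMap_apply S K L (s j), ← map_mul,
        mul_comm _ (c j), hcs j, IsScalarTower.algebraMap_apply S K L (a j)]
  -- freeness
  let P' := Localization.AtPrime P
  let M' := LocalizedModule P.primeCompl T
  let mk : T →ₗ[S] M' := LocalizedModule.mkLinearMap P.primeCompl T
  let φ : (ι → P') →ₗ[P'] M' := Fintype.linearCombination P' (fun j => mk (r j))
  have hφ : ∀ c, φ c = ∑ j, c j • mk (r j) := fun c => rfl
  have hsurj : Function.Surjective φ := by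
    intro y
    obtain ⟨⟨f, t⟩, rfl⟩ := IsLocalizedModule.mk'_surjective P.primeCompl mk y
    obtain ⟨a, s, hs, hf⟩ := key f
    refine ⟨fun j => IsLocalization.mk' P' (a j) (⟨s, hs⟩ * t), ?_⟩
    rw [hφ]
    apply IsLocalizedModule.smul_injective mk (⟨s, hs⟩ * t)
    simp only [Submonoid.smul_def]
    have e1 : ((⟨s, hs⟩ * t : P.primeCompl) : S) • IsLocalizedModule.mk' mk f t = mk (s • f) := by
      rw [Submonoid.coe_mul, mul_smul, ← Submonoid.smul_def t, IsLocalizedModule.mk'_cancel',
        map_smul]
    rw [Function.uncurry_apply_pair, e1, hf, map_sum, Finset.smul_sum]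
    refine Finset.sum_congr rfl fun j _ => ?_
    rw [map_smul, ← smul_assoc, Algebra.smul_def ((⟨s, hs⟩ * t : P.primeCompl) : S), mul_comm,
      IsLocalization.mk'_spec, algebraMap_smul]
  have hinj : Function.Injective φ := by
    rw [injective_iff_map_eq_zero]
    intro c hc
    obtain ⟨u, hu⟩ := IsLocalization.exist_integer_multiples_of_finite P.primeCompl c
    choose a ha using hu
    have e1 : mk (∑ j, a j • r j) = 0 := by
      have e2 : (u : S) • φ c = mk (∑ j, a j • r j) := by
        rw [hφ, Finset.smul_sum, map_sum]
        refine Finset.sum_congr rfl fun j _ => ?_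
        rw [map_smul, ← smul_assoc, ← ha j, algebraMap_smul]
      rw [← e2, hc, smul_zero]
    rw [IsLocalizedModule.eq_zero_iff P.primeCompl mk] at e1
    obtain ⟨v, hv⟩ := e1
    have e3 : ∑ j, a j • r j = 0 := by
      have e4 : (v : S) • ∑ j, a j • r j = 0 := hv
      rw [Algebra.smul_def, mul_eq_zero] at e4
      refine e4.resolve_left fun h => ?_
      have : (v : S) = 0 := hST (h.trans (map_zero _).symm)
      exact v.2 (this ▸ P.zero_mem)
    have e5 : ∑ j, algebraMap S K (a j) • algebraMap T L (r j) = 0 := by
      have e6 := congrArg (algebraMap T L) e3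
      rw [map_zero, map_sum] at e6
      rw [← e6]
      refine Finset.sum_congr rfl fun j _ => ?_
      rw [Algebra.smul_def, Algebra.smul_def, map_mul, ← IsScalarTower.algebraMap_apply,
        ← IsScalarTower.algebraMap_apply]
    have e7 := Fintype.linearIndependent_iff.1 hlin _ e5
    funext j
    have e8 : a j = 0 := by
      apply IsFractionRing.injective S K
      rw [e7 j, map_zero]
    have e9 := ha j
    rw [e8, map_zero, Algebra.smul_def] at e9
    have hu : IsUnit (algebraMap S P' u) := IsLocalization.map_units P' u
    exact (hu.mul_right_eq_zero).1 e9.symm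
  have hfree : Module.Free P' M' := Module.Free.of_equiv (LinearEquiv.ofBijective φ ⟨hinj, hsurj⟩)
  have hflat : Module.Flat P' M' := Module.Flat.of_free
  exact Module.Flat.trans S P' M'

end flat

section smooth

variable {k S T K L : Type} [Field k] [PerfectField k] [CommRing S] [IsDomain S] [CommRing T]
  [IsDomain T] [Field K] [Field L] [Algebra k S] [Algebra k T] [Algebra S T] [IsScalarTower k S T]
  [Algebra S K] [Algebra T L] [Algebra K L] [Algebra S L] [IsScalarTower S T L]
  [IsScalarTower S K L] [IsFractionRing S K] [IsFractionRing T L] {ι : Type} [Fintype ι]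
  [DecidableEq ι] [Nonempty ι] [Algebra.IsIntegral S T] [Algebra.Smooth k T]
  (hST : ∀ (x : K) (b : T), algebraMap K L x = algebraMap T L b → ∃ a : S, algebraMap S K a = x)
  (D : L [⋀^ι]→ₗ[K] L) (hN : Module.finrank K L = Fintype.card ι) (δ : L) (hδ : δ ≠ 0)
  (h1 : ∀ f : ι → T, ∃ b : T, D (fun i => algebraMap T L (f i)) = δ * algebraMap T L b)
  (h2 : ∀ Q : Ideal T, Q.IsMaximal → ∃ (r : ι → T) (b : T), b ∉ Q ∧
    D (fun i => algebraMap T L (r i)) = δ * algebraMap T L b)

include hST hN hδ h1 h2

/-- If the values of an alternating form generate an invertible ideal and `T` is smooth, then so is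
`S`. -/
theorem smooth_of_form : Algebra.Smooth k S := by
  classical
  have hT : IsIntegrallyClosed T := Pool.Agent.R837.FN.Norm.of_smooth k T
  have hS : IsIntegrallyClosed S := by
    refine (isIntegrallyClosed_iff K).2 fun {x} hx => ?_
    have h3 : IsIntegral T (algebraMap K L x) := by
      have h4 : IsIntegral S (algebraMap K L x) := hx.algebraMap
      exact h4.tower_top
    obtain ⟨b, hb⟩ := IsIntegrallyClosed.isIntegral_iff.1 h3
    exact hST x b hb.symm
  have hflat : Module.Flat S T := flat_of_form D hN δ hδ h1 h2
  have hST' : Function.Injective (algebraMap S T) := by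
    have hSL : Function.Injective (algebraMap S L) := by
      rw [IsScalarTower.algebraMap_eq S K L]
      exact (algebraMap K L).injective.comp (IsFractionRing.injective S K)
    intro a b hab
    apply hSL
    rw [IsScalarTower.algebraMap_apply S T L, hab, ← IsScalarTower.algebraMap_apply S T L]
  have hftT : Algebra.FiniteType k T := inferInstance
  have hftST : Algebra.FiniteType S T := Algebra.FiniteType.of_restrictScalars_finiteType k S T
  have hfin : Module.Finite S T := Algebra.IsIntegral.finite
  have hft : Algebra.FiniteType k S := ⟨fg_of_fg_of_fg k S T hftT.1 hfin.1 hST'⟩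
  have hnoe : IsNoetherianRing S := Algebra.FiniteType.isNoetherianRing k S
  have hreg : IsRegularRing S := by
    refine { isRegularLocalRing_localization := fun q hq => ?_ }
    obtain ⟨Q, hQ, hQP⟩ := Ideal.exists_ideal_over_prime_of_isIntegral_of_isDomain (S := T) q (by
      rw [(RingHom.injective_iff_ker_eq_bot _).1 hST']
      exact bot_le)
    have hover : Q.LiesOver q := ⟨hQP.symm⟩
    let _ := Localization.AtPrime.algebraOfLiesOver q Q
    have hloc : IsLocalHom (algebraMap (Localization.AtPrime q) (Localization.AtPrime Q)) := by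
      rw [RingHom.algebraMap_toAlgebra]
      exact Localization.isLocalHom_localRingHom q Q (algebraMap S T) Ideal.LiesOver.over
    have hC : IsRegularLocalRing (Localization.AtPrime Q) := Pool.Agent.H920R2.regular_of_smooth
      (k := k) Q
    exact regular_descend (C := Localization.AtPrime Q)
  exact Pool.Agent.N864.GT.smooth_of_regular

end smooth

end Pool.Agent.Helper44x.DM
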