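import Pool.Agent.Helper44x.DM.Quot

/-!
Faithful actions have nonzero determinants.
-/

set_option autoImplicit false
set_option linter.unusedVariables false
set_option linter.unusedSectionVars false

open TensorProduct AlgebraicGeometry CategoryTheory Pool.Agent.W558 Pool.Agent.H920R2

namespace Pool.Agent.Helper44x.DM

section dt

variable {L V : Type} [Field L] [Group V] [Fintype V] [DecidableEq V] [MulSemiringAction V L]
  [FaithfulSMul V L]

/-- Some determinant of conjugates is not zero. -/
theorem exists_dt_ne : ∃ f : V → L, dt f ≠ 0 := by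
  classical
  let w : L → (V → L) := fun x g => g • x
  have hspan : Submodule.span L (Set.range w) = ⊤ := by
    by_contra hne
    obtain ⟨φ, hφ0, hφ⟩ := Submodule.exists_dual_map_eq_bot_of_lt_top
      (lt_top_iff_ne_top.2 hne) inferInstance
    let c : V → L := fun g => φ (Pi.single g 1)
    have hφc : ∀ u : V → L, φ u = ∑ g, c g * u g := by
      intro u
      conv_lhs => rw [← Finset.univ_sum_single u]
      rw [map_sum]
      refine Finset.sum_congr rfl fun g _ => ?_
      have : Pi.single g (u g) = u g • (Pi.single g 1 : V → L) := by
        rw [← Pi.single_smul, smul_eq_mul, mul_one]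
      rw [this, map_smul, smul_eq_mul, mul_comm]
    have h0 : ∀ x : L, ∑ g, c g * (g • x) = 0 := by
      intro x
      have h1 : φ (w x) ∈ Submodule.map φ (Submodule.span L (Set.range w)) :=
        Submodule.mem_map_of_mem (Submodule.subset_span ⟨x, rfl⟩)
      rw [hφ, Submodule.mem_bot, hφc] at h1
      exact h1
    let ψ : V → (L →* L) := fun g => (MulSemiringAction.toRingHom V L g : L →* L)
    have hψ : Function.Injective ψ := by
      intro g h hgh
      exact FaithfulSMul.eq_of_smul_eq_smul fun x : L => DFunLike.congr_fun hgh x
    have hli := (linearIndependent_monoidHom L L).comp ψ hψ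
    have h2 := Fintype.linearIndependent_iff.1 hli c (by
      funext x
      rw [Finset.sum_apply]
      exact h0 x)
    apply hφ0
    ext u
    rw [LinearMap.comp_apply, hφc]
    simp [h2]
  obtain ⟨κ, a, ha, hsp, hli⟩ := exists_linearIndependent' L w
  let b := Module.Basis.mk hli (by rw [hsp, hspan])
  let e : κ ≃ V := b.indexEquiv (Pi.basisFun L V)
  refine ⟨fun h => a (e.symm h), ?_⟩
  have h1 : LinearIndependent L (Matrix.of fun h g : V => g • a (e.symm h)).row :=
    hli.comp e.symm e.symm.injective
  rw [Matrix.linearIndependent_rows_iff_isUnit, Matrix.isUnit_iff_isUnit_det] at h1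
  exact h1.ne_zero

end dt

section ne

variable {k A C E L V : Type} [Field k] [IsAlgClosed k] [CommRing A] [IsDomain A] [Algebra k A]
  [CommRing C] [IsDomain C] [Algebra k C] [Algebra.Smooth k C]
  [Field E] [Algebra k E] [Algebra A E] [IsScalarTower k A E] [IsFractionRing A E] [Field L]
  [Algebra k L] [Algebra E L] [IsScalarTower k E L] (j : C →ₐ[k] L)
  (hβ : Function.Injective (beta A E j)) (hfr : ∀ x : L, ∃ a b : A ⊗[k] C, b ≠ 0 ∧
    x = beta A E j a / beta A E j b) [Group V] [Fintype V] [DecidableEq V]
  [MulSemiringAction V L] [SMulCommClass V k L] [FaithfulSMul V L]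
  (θ : V → A ⊗[k] C → A ⊗[k] C)
  (hE : ∀ (g : V) (e : E), g • algebraMap E L e = algebraMap E L e)
  (hθ : ∀ (g : V) (z : A ⊗[k] C), g • beta A E j z = beta A E j (θ g z))
  (I : Ideal A) (hI : ∀ y : C →ₐ[k] k, degIdeal θ y = I)

include hβ hfr hE hθ hI in
/-- The ideal of a faithful action is not zero. -/
theorem I_ne_bot : I ≠ ⊥ := by
  classical
  intro h0
  have h1 : ∀ c : V → C, dt (fun h => j (c h)) = 0 := by
    intro c
    rw [← beta_dz j θ hθ]
    have h2 : dz θ c = 0 := by
      let b := Module.Basis.ofVectorSpace k C
      let bA := Algebra.TensorProduct.basis A b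
      apply bA.repr.injective
      rw [map_zero]
      ext i
      have h3 := coord_mem b I (dz θ c) (fun y => by
        rw [ev_dz, ← hI y]
        exact Ideal.subset_span ⟨c, rfl⟩) i
      rw [h0, Ideal.mem_bot] at h3
      exact h3
    rw [h2, map_zero]
  -- all determinants of elements of `⊤ ⊗ C` are zero
  obtain ⟨U, hU⟩ : ∃ U : Subalgebra k E, ∀ e, e ∈ U := ⟨⊤, fun _ => trivial⟩
  have key : ∀ s : Finset V, ∀ f : V → L, (∀ h, f h ∈ TU U j) →
      (∀ h, h ∉ s → ∃ c, f h = j c) → dt f = 0 := by
    intro s
    induction s using Finset.induction_on with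
    | empty =>
      intro f hf hc
      choose c hc using fun h => hc h (Finset.notMem_empty h)
      have : f = fun h => j (c h) := funext hc
      rw [this]
      exact h1 c
    | insert i s hi ih =>
      intro f hf hc
      have h2 : ∀ z : U ⊗[k] C, dt (Function.update f i (psi U j z)) = 0 := by
        intro z
        induction z using TensorProduct.induction_on with
        | zero =>
          have h2 := dt_smul ‹DecidableEq V› ‹DecidableEq V› f i 0 (fun g => smul_zero g) (0 : L)
          rw [zero_mul, zero_mul] at h2
          rw [map_zero, h2]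
        | tmul u c =>
          rw [psi_tmul, dt_smul _ _ f i _ (fun g => hE g _), ih, mul_zero]
          · intro h
            by_cases hh : h = i
            · subst hh
              rw [Function.update_self]
              exact j_mem j U c
            · rw [Function.update_of_ne hh]
              exact hf h
          · intro h hs
            by_cases hh : h = i
            · subst hh
              rw [Function.update_self]
              exact ⟨c, rfl⟩
            · rw [Function.update_of_ne hh]
              exact hc h (by simp [hh, hs])
        | add x y hx hy =>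
          rw [map_add, dt_add, hx, hy, add_zero]
      obtain ⟨z, hz⟩ := hf i
      have h3 := h2 z
      have h4 : psi U j z = f i := hz
      rwa [h4, Function.update_eq_self] at h3
  obtain ⟨f, hf⟩ := exists_dt_ne (L := L) (V := V)
  apply hf
  -- clear denominators
  have hden : ∀ x : L, ∃ (N : L) (z : A ⊗[k] C), N ≠ 0 ∧ (∀ g : V, g • N = N) ∧
      x = N * beta A E j z := by
    intro x
    obtain ⟨a, b, hb, h⟩ := hfr x
    have hb0 : beta A E j b ≠ 0 := fun h0 => hb (hβ (h0.trans (map_zero _).symm))
    let N : L := ∏ g : V, g • beta A E j b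
    have hN0 : N ≠ 0 := Finset.prod_ne_zero_iff.2 fun g _ => by
      rw [Ne, smul_eq_zero_iff_eq]
      exact hb0
    have hNi : ∀ g : V, g • N = N := by
      intro g
      simp only [N]
      rw [Finset.smul_prod']
      exact Fintype.prod_equiv (Equiv.mulLeft g) _ _ fun h => by
        rw [Equiv.coe_mulLeft, mul_smul]
    refine ⟨N⁻¹, a * ∏ g ∈ Finset.univ.erase (1 : V), θ g b, inv_ne_zero hN0, fun g => ?_, ?_⟩
    · rw [smul_inv'', hNi]
    · have h3 : N = beta A E j b * ∏ g ∈ Finset.univ.erase (1 : V), g • beta A E j b := by
        have := Finset.mul_prod_erase Finset.univ (fun g : V => g • beta A E j b)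
          (Finset.mem_univ 1)
        rw [one_smul] at this
        exact this.symm
      rw [map_mul, map_prod]
      have h4 : ∏ g ∈ Finset.univ.erase (1 : V), beta A E j (θ g b) =
          ∏ g ∈ Finset.univ.erase (1 : V), g • beta A E j b :=
        Finset.prod_congr rfl fun g _ => (hθ g b).symm
      have h5 : (∏ g ∈ Finset.univ.erase (1 : V), g • beta A E j b) ≠ 0 := by
        intro h0
        exact hN0 (by rw [h3, h0, mul_zero])
      rw [h4, h, h3]
      field_simp
  choose N z hN0 hNi hz using hden
  have h5 : dt f = (∏ h, N (f h)) * dt (fun h => beta A E j (z (f h))) := by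
    unfold dt
    rw [← Matrix.det_mul_column]
    congr 1
    ext h g
    change g • f h = N (f h) * g • beta A E j (z (f h))
    conv_lhs => rw [hz (f h), smul_mul', hNi]
  rw [h5, key Finset.univ _ (fun h => beta_mem j (fun a => hU _) _)
    (fun h hh => absurd (Finset.mem_univ h) hh), mul_zero]

end ne

end Pool.Agent.Helper44x.DM
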