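import Pool.Agent.Helper44x.DM.Tp

/-!
Ideals generated by determinants of families of homogeneous functions.
-/

set_option autoImplicit false
set_option linter.unusedVariables false
set_option linter.unusedSectionVars false

open TensorProduct WithConv AlgebraicGeometry CategoryTheory Pool.Agent.W558 Pool.Agent.H920R2

namespace Pool.Agent.Helper44x.DM

section det

variable {k A C V : Type} [Field k] [CommRing A] [Algebra k A] [CommRing C] [Algebra k C]
  [Fintype V] [DecidableEq V]

/-- Determinants with entries from a spanning set. -/
theorem det_span (f : V → (C →ₐ[k] A)) (M : Set C) (hM : Submodule.span k M = ⊤) :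
    Ideal.span {d | ∃ c : V → C, d = (Matrix.of fun h g => f g (c h)).det} =
      Ideal.span {d | ∃ c : V → C, (∀ h, c h ∈ M) ∧ d = (Matrix.of fun h g => f g (c h)).det} := by
  apply le_antisymm
  · refine Ideal.span_le.2 ?_
    rintro d ⟨c, rfl⟩
    have key : ∀ s : Finset V, ∀ c : V → C, (∀ h, h ∉ s → c h ∈ M) →
        (Matrix.of fun h g => f g (c h)).det ∈ Ideal.span {d | ∃ c : V → C, (∀ h, c h ∈ M) ∧
          d = (Matrix.of fun h g => f g (c h)).det} := by
      intro s
      induction s using Finset.induction_on with
      | empty =>
        intro c hc
        exact Ideal.subset_span ⟨c, fun h => hc h (Finset.notMem_empty h), rfl⟩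
      | insert i s hi ih =>
        intro c hc
        have hrow : ∀ z : C, (Matrix.of fun h g => f g (Function.update c i z h)) =
            (Matrix.of fun h g => f g (c h)).updateRow i (fun g => f g z) := by
          intro z
          ext h g
          by_cases hh : h = i
          · subst hh
            rw [Matrix.updateRow_self]
            change f g (Function.update c h z h) = _
            rw [Function.update_self]
          · rw [Matrix.updateRow_ne hh]
            change f g (Function.update c i z h) = _
            rw [Function.update_of_ne hh]
            rfl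
        have h1 : ∀ z : C, z ∈ Submodule.span k M →
            (Matrix.of fun h g => f g (Function.update c i z h)).det ∈
            Ideal.span {d | ∃ c : V → C, (∀ h, c h ∈ M) ∧
              d = (Matrix.of fun h g => f g (c h)).det} := by
          intro z hz
          induction hz using Submodule.span_induction with
          | mem z hz =>
            refine ih _ fun h hs => ?_
            by_cases hh : h = i
            · subst hh
              rw [Function.update_self]
              exact hz
            · rw [Function.update_of_ne hh]
              exact hc h (by simp [hh, hs])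
          | zero =>
            rw [hrow]
            have e1 : (fun g => f g (0 : C)) = (0 : A) • fun _ : V => (0 : A) := by
              funext g
              rw [map_zero, Pi.smul_apply, smul_zero]
            rw [e1, Matrix.det_updateRow_smul, zero_mul]
            exact Ideal.zero_mem _
          | add y z _ _ hy hz =>
            rw [hrow] at hy hz ⊢
            have e1 : (fun g => f g (y + z)) = (fun g => f g y) + fun g => f g z := by
              funext g
              rw [Pi.add_apply, map_add]
            rw [e1, Matrix.det_updateRow_add]
            exact Ideal.add_mem _ hy hz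
          | smul a z _ hz =>
            rw [hrow] at hz ⊢
            have e1 : (fun g => f g (a • z)) = algebraMap k A a • fun g => f g z := by
              funext g
              rw [Pi.smul_apply, map_smul, algebraMap_smul]
            rw [e1, Matrix.det_updateRow_smul]
            exact Ideal.mul_mem_left _ _ hz
        have h2 := h1 (c i) (hM ▸ Submodule.mem_top)
        rwa [Function.update_eq_self] at h2
    exact key Finset.univ c fun h hh => absurd (Finset.mem_univ h) hh
  · refine Ideal.span_mono ?_
    rintro d ⟨c, -, rfl⟩
    exact ⟨c, rfl⟩

variable {r : ℕ}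

/-- Families of homogeneous functions give homogeneous ideals. -/
theorem det_hom (f : V → (C →ₐ[k] A)) (𝒜 : (Fin r → ℤ) → Submodule k A) [GradedAlgebra 𝒜]
    (hg : Algebra.adjoin k {c : C | ∃ d, ∀ g, f g c ∈ 𝒜 d} = ⊤) :
    ∃ S : Set A, (∀ s ∈ S, ∃ d, s ∈ 𝒜 d) ∧
      Ideal.span {d | ∃ c : V → C, d = (Matrix.of fun h g => f g (c h)).det} = Ideal.span S := by
  let M : Submonoid C :=
    { carrier := {c : C | ∃ d, ∀ g, f g c ∈ 𝒜 d}
      mul_mem' := by
        rintro a b ⟨d, hd⟩ ⟨e, he⟩
        exact ⟨d + e, fun g => by rw [map_mul]; exact SetLike.mul_mem_graded (hd g) (he g)⟩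
      one_mem' := ⟨0, fun g => by rw [map_one]; exact SetLike.one_mem_graded 𝒜⟩ }
  have hM : Submodule.span k (M : Set C) = ⊤ := by
    have h1 := Algebra.adjoin_eq_span k (M : Set C)
    rw [Submonoid.closure_eq] at h1
    rw [← h1]
    change Subalgebra.toSubmodule (Algebra.adjoin k {c : C | ∃ d, ∀ g, f g c ∈ 𝒜 d}) = ⊤
    rw [hg]
    rfl
  refine ⟨_, ?_, det_span f M hM⟩
  rintro _ ⟨c, hc, rfl⟩
  choose d hd using hc
  refine ⟨∑ h, d h, ?_⟩
  rw [Matrix.det_apply]
  refine Submodule.sum_mem _ fun σ _ => ?_
  have h1 : ∏ i, (Matrix.of fun h g => f g (c h)) (σ i) i ∈ 𝒜 (∑ h, d h) := by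
    rw [← Equiv.sum_comp σ d]
    exact SetLike.prod_mem_graded (A := 𝒜) (fun i => d (σ i)) _ fun i _ => hd _ _
  rcases Int.units_eq_one_or (Equiv.Perm.sign σ) with hσ | hσ
  · rw [hσ, one_smul]
    exact h1
  · rw [hσ, Units.neg_smul, one_smul]
    exact Submodule.neg_mem _ h1

end det

end Pool.Agent.Helper44x.DM
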