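import Pool.Agent.Helper44x.DM.Inv
import Pool.Agent.H920R2.Cu10
import Pool.Agent.W558.Atlas

/-!
Fibrewise actions of finite groups on products `X × Y` over `X`: charts of the quotient.
-/

set_option autoImplicit false
set_option linter.unusedVariables false
set_option linter.unusedSectionVars false

open TensorProduct

namespace Pool.Agent.Helper44x.DM

section psi

variable {k A C E L : Type} [Field k] [CommRing A] [Algebra k A] [CommRing C] [Algebra k C]
  [Field E] [Algebra k E] [Algebra A E] [IsScalarTower k A E] [Field L] [Algebra k L]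
  [Algebra E L] [IsScalarTower k E L] (j : C →ₐ[k] L)

/-- The embedding of `A ⊗ C`. -/
noncomputable def beta (A E : Type) [CommRing A] [Algebra k A] [Field E] [Algebra k E]
    [Algebra A E] [IsScalarTower k A E] [Algebra E L] [IsScalarTower k E L] (j : C →ₐ[k] L) :
    A ⊗[k] C →ₐ[k] L :=
  Algebra.TensorProduct.lift ((IsScalarTower.toAlgHom k E L).comp (IsScalarTower.toAlgHom k A E))
    j fun _ _ => Commute.all _ _

/-- The embedding of `U ⊗ C`, where `U` is a subalgebra of `E`. -/
noncomputable def psi (U : Subalgebra k E) (j : C →ₐ[k] L) : U ⊗[k] C →ₐ[k] L :=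
  Algebra.TensorProduct.lift ((IsScalarTower.toAlgHom k E L).comp U.val) j
    fun _ _ => Commute.all _ _

lemma beta_tmul (a : A) (c : C) : beta A E j (a ⊗ₜ c) = algebraMap E L (algebraMap A E a) * j c :=
  Algebra.TensorProduct.lift_tmul _ _ _ _ _

lemma psi_tmul (U : Subalgebra k E) (a : U) (c : C) :
    psi U j (a ⊗ₜ c) = algebraMap E L a * j c :=
  Algebra.TensorProduct.lift_tmul _ _ _ _ _

/-- The chart over `U`. -/
noncomputable def TU (U : Subalgebra k E) (j : C →ₐ[k] L) : Subalgebra k L := (psi U j).range

lemma j_mem (U : Subalgebra k E) (c : C) : j c ∈ TU U j :=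
  ⟨1 ⊗ₜ c, by
    change psi U j (1 ⊗ₜ c) = j c
    rw [psi_tmul, OneMemClass.coe_one, map_one, one_mul]⟩

lemma e_mem {U : Subalgebra k E} {u : E} (hu : u ∈ U) : algebraMap E L u ∈ TU U j :=
  ⟨⟨u, hu⟩ ⊗ₜ 1, by
    change psi U j (⟨u, hu⟩ ⊗ₜ 1) = _
    rw [psi_tmul, map_one, mul_one]⟩

lemma beta_mem {U : Subalgebra k E} (hU : ∀ a : A, algebraMap A E a ∈ U) (z : A ⊗[k] C) :
    beta A E j z ∈ TU U j := by
  induction z using TensorProduct.induction_on with
  | zero => rw [map_zero]; exact (TU U j).zero_mem
  | tmul a c =>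
    rw [beta_tmul]
    exact (TU U j).mul_mem (e_mem j (hU a)) (j_mem j U c)
  | add x y hx hy => rw [map_add]; exact (TU U j).add_mem hx hy

variable [IsDomain A] [IsFractionRing A E] (hβ : Function.Injective (beta A E j))

include hβ in
lemma linInd {ι : Type} (b : Module.Basis ι k C) : LinearIndependent E (fun i => j (b i)) := by
  let _ : Algebra A L := ((algebraMap E L).comp (algebraMap A E)).toAlgebra
  have t1 : IsScalarTower A E L := IsScalarTower.of_algebraMap_eq fun _ => rfl
  rw [← LinearIndependent.iff_fractionRing A E]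
  let bA := Algebra.TensorProduct.basis A b
  rw [linearIndependent_iff']
  intro s c hc i hi
  have h1 : beta A E j (∑ i ∈ s, c i • bA i) = 0 := by
    rw [← hc, map_sum]
    refine Finset.sum_congr rfl fun l _ => ?_
    rw [Algebra.TensorProduct.basis_apply, smul_tmul', smul_eq_mul, mul_one, beta_tmul,
      Algebra.smul_def]
    rfl
  have h2 : ∑ i ∈ s, c i • bA i = 0 := hβ (h1.trans (map_zero _).symm)
  exact (linearIndependent_iff'.1 bA.linearIndependent) s c h2 i hi

include hβ in
lemma psi_injective (U : Subalgebra k E) : Function.Injective (psi U j) := by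
  classical
  let b := Module.Basis.ofVectorSpace k C
  have hli := linInd j hβ b
  let bU := Algebra.TensorProduct.basis U b
  rw [injective_iff_map_eq_zero]
  intro z hz
  apply bU.repr.injective
  rw [map_zero]
  have h1 : z = ∑ i ∈ (bU.repr z).support, bU.repr z i • bU i := by
    conv_lhs => rw [← bU.linearCombination_repr z]
    rfl
  have h2 : ∑ i ∈ (bU.repr z).support, ((bU.repr z i : U) : E) • j (b i) = 0 := by
    rw [← hz]
    conv_rhs => rw [h1]
    rw [map_sum]
    refine Finset.sum_congr rfl fun l _ => ?_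
    rw [Algebra.TensorProduct.basis_apply, smul_tmul', smul_eq_mul, mul_one, psi_tmul,
      Algebra.smul_def]
  have h3 := (linearIndependent_iff'.1 hli) _ (fun i => ((bU.repr z i : U) : E)) h2
  ext i
  by_cases hi : i ∈ (bU.repr z).support
  · exact h3 i hi
  · rw [Finsupp.notMem_support_iff.1 hi]
    rfl

include hβ in
lemma smooth_TU (U : Subalgebra k E) [Algebra.Smooth k U] [Algebra.Smooth k C] :
    Algebra.Smooth k (TU U j) := by
  have h1 : Algebra.Smooth U (U ⊗[k] C) := inferInstance
  have h2 : Algebra.Smooth k (U ⊗[k] C) := Algebra.Smooth.comp k U (U ⊗[k] C)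
  exact Algebra.Smooth.of_equiv (AlgEquiv.ofInjective (psi U j) (psi_injective j hβ U))

end psi

section act

variable {k A C E L V : Type} [Field k] [CommRing A] [Algebra k A] [CommRing C] [Algebra k C]
  [Field E] [Algebra k E] [Algebra A E] [IsScalarTower k A E] [Field L] [Algebra k L]
  [Algebra E L] [IsScalarTower k E L] (j : C →ₐ[k] L) [Group V] [Fintype V] [DecidableEq V]
  [MulSemiringAction V L] (θ : V → A ⊗[k] C → A ⊗[k] C)
  (hE : ∀ (g : V) (e : E), g • algebraMap E L e = algebraMap E L e)
  (hθ : ∀ (g : V) (z : A ⊗[k] C), g • beta A E j z = beta A E j (θ g z))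

include hE hθ in
lemma TU_stable {U : Subalgebra k E} (hU : ∀ a : A, algebraMap A E a ∈ U) (g : V) (x : L)
    (hx : x ∈ TU U j) : g • x ∈ TU U j := by
  obtain ⟨z, rfl⟩ := hx
  change g • psi U j z ∈ _
  induction z using TensorProduct.induction_on with
  | zero => rw [map_zero, smul_zero]; exact (TU U j).zero_mem
  | tmul u c =>
    rw [psi_tmul, smul_mul', hE]
    refine (TU U j).mul_mem (e_mem j u.2) ?_
    have h1 : j c = beta A E j (1 ⊗ₜ c) := by
      rw [beta_tmul, map_one, map_one, one_mul]
    rw [h1, hθ]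
    exact beta_mem j hU _
  | add x y hx hy => rw [map_add, smul_add]; exact (TU U j).add_mem hx hy

/-- Values of the determinant on elements of the chart. -/
lemma dt_mem (hE : ∀ (g : V) (e : E), g • algebraMap E L e = algebraMap E L e)
    (U : Subalgebra k E) (δ : L) (hδ : δ ≠ 0)
    (h : ∀ c : V → C, dt (fun h => j (c h)) / δ ∈ TU U j) (f : V → L)
    (hf : ∀ h, f h ∈ TU U j) : dt f / δ ∈ TU U j := by
  have key : ∀ s : Finset V, ∀ f : V → L, (∀ h, f h ∈ TU U j) →
      (∀ h, h ∉ s → ∃ c, f h = j c) → dt f / δ ∈ TU U j := by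
    intro s
    induction s using Finset.induction_on with
    | empty =>
      intro f hf hc
      choose c hc using fun h => hc h (Finset.notMem_empty h)
      have : f = fun h => j (c h) := funext hc
      rw [this]
      exact h c
    | insert i s hi ih =>
      intro f hf hc
      have h1 : ∀ z : U ⊗[k] C, dt (Function.update f i (psi U j z)) / δ ∈ TU U j := by
        intro z
        induction z using TensorProduct.induction_on with
        | zero =>
          have h2 := dt_smul ‹DecidableEq V› ‹DecidableEq V› f i 0 (fun g => smul_zero g) (0 : L)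
          rw [zero_mul, zero_mul] at h2
          rw [map_zero, h2, zero_div]
          exact (TU U j).zero_mem
        | tmul u c =>
          rw [psi_tmul, dt_smul _ _ f i _ (fun g => hE g _), mul_div_assoc]
          refine (TU U j).mul_mem (e_mem j u.2) (ih _ ?_ ?_)
          · intro h
            by_cases hh : h = i
            · subst hh
              rw [Function.update_self]
              exact j_mem j U c
            · rw [Function.update_of_ne hh]
              exact hf h
          · intro h hs
            by_cases hh : h = i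
            · subst hh
              rw [Function.update_self]
              exact ⟨c, rfl⟩
            · rw [Function.update_of_ne hh]
              exact hc h (by simp [hh, hs])
        | add x y hx hy =>
          rw [map_add, dt_add, add_div]
          exact (TU U j).add_mem hx hy
      obtain ⟨z, hz⟩ := hf i
      have h2 := h1 z
      have h3 : psi U j z = f i := hz
      rwa [h3, Function.update_eq_self] at h2
  exact key Finset.univ f hf fun h hh => absurd (Finset.mem_univ h) hh

end act

section pts

variable {k A C : Type} [Field k] [CommRing A] [Algebra k A] [CommRing C] [Algebra k C]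

/-- Evaluation at a point of the second factor. -/
noncomputable def ev (A : Type) [CommRing A] [Algebra k A] (y : C →ₐ[k] k) : A ⊗[k] C →ₐ[A] A :=
  Algebra.TensorProduct.lift (AlgHom.id A A) ((Algebra.ofId k A).comp y) fun _ _ => Commute.all _ _

lemma ev_tmul (y : C →ₐ[k] k) (a : A) (c : C) : ev A y (a ⊗ₜ c) = a * algebraMap k A (y c) :=
  Algebra.TensorProduct.lift_tmul _ _ _ _ _

variable [IsAlgClosed k] [IsDomain C] [Algebra.FiniteType k C]

/-- Elements whose values at all points are in an ideal have coordinates in the ideal. -/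
lemma coord_mem {ι : Type} (b : Module.Basis ι k C) (I : Ideal A) (z : A ⊗[k] C)
    (hz : ∀ y : C →ₐ[k] k, ev A y z ∈ I) (i : ι) :
    (Algebra.TensorProduct.basis A b).repr z i ∈ I := by
  classical
  set bA := Algebra.TensorProduct.basis A b with hbA
  have h1 : z = ∑ i ∈ (bA.repr z).support, bA.repr z i • bA i := by
    conv_lhs => rw [← bA.linearCombination_repr z]
    rfl
  -- linear functionals on the quotient
  have key : ∀ l : (A ⧸ I) →ₗ[k] k, l (Ideal.Quotient.mk I (bA.repr z i)) = 0 := by
    intro l
    have h2 : ∑ i ∈ (bA.repr z).support, l (Ideal.Quotient.mk I (bA.repr z i)) • b i = 0 := by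
      by_contra hne
      obtain ⟨y, hy⟩ := Pool.Agent.H920R2.exists_point (k := k) hne
      apply hy
      have h3 := hz y
      rw [h1, map_sum] at h3
      have h4 : l (Ideal.Quotient.mk I (∑ i ∈ (bA.repr z).support,
          ev A y (bA.repr z i • bA i))) = 0 := by
        rw [Ideal.Quotient.eq_zero_iff_mem.2 h3, map_zero]
      rw [map_sum, map_sum] at h4
      rw [map_sum, ← h4]
      refine Finset.sum_congr rfl fun m _ => ?_
      rw [map_smul, hbA, Algebra.TensorProduct.basis_apply, map_smul, ev_tmul, one_mul,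
        smul_eq_mul, smul_eq_mul, mul_comm (bA.repr z m), ← Algebra.smul_def]
      have h5 : Ideal.Quotient.mk I (y (b m) • bA.repr z m) =
          y (b m) • Ideal.Quotient.mk I (bA.repr z m) := rfl
      rw [h5, map_smul, smul_eq_mul, mul_comm]
    by_cases hi : i ∈ (bA.repr z).support
    · exact (linearIndependent_iff'.1 b.linearIndependent) _ _ h2 i hi
    · rw [Finsupp.notMem_support_iff.1 hi, map_zero, map_zero]
  rw [← Ideal.Quotient.eq_zero_iff_mem]
  by_contra hne
  obtain ⟨l, hl⟩ := Module.Projective.exists_dual_ne_zero k hne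
  exact hl (key l)

/-- The maximal ideals are the kernels of the points. -/
lemma exists_pt {T : Type} [CommRing T] [Algebra k T] [Algebra.FiniteType k T] (Q : Ideal T)
    (hQ : Q.IsMaximal) : ∃ χ : T →ₐ[k] k, ∀ x, x ∈ Q ↔ χ x = 0 := by
  let _ : Field (T ⧸ Q) := Ideal.Quotient.field Q
  have hfin : Module.Finite k (T ⧸ Q) := finite_of_finite_type_of_isJacobsonRing k (T ⧸ Q)
  have hbij : Function.Bijective (algebraMap k (T ⧸ Q)) :=
    IsAlgClosed.algebraMap_bijective_of_isIntegral
  let e : k ≃ₐ[k] (T ⧸ Q) := AlgEquiv.ofBijective (Algebra.ofId k (T ⧸ Q)) hbij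
  refine ⟨(e.symm : (T ⧸ Q) →ₐ[k] k).comp (Ideal.Quotient.mkₐ k Q), fun x => ?_⟩
  rw [← Ideal.Quotient.eq_zero_iff_mem]
  change _ ↔ e.symm (Ideal.Quotient.mk Q x) = 0
  exact (map_eq_zero_iff e.symm e.symm.injective).symm

end pts

section deg

variable {k A C E L V : Type} [Field k] [IsAlgClosed k] [CommRing A] [IsDomain A] [Algebra k A]
  [CommRing C] [IsDomain C] [Algebra k C] [Algebra.Smooth k C]
  [Field E] [Algebra k E] [Algebra A E] [IsScalarTower k A E] [IsFractionRing A E] [Field L]
  [Algebra k L] [Algebra E L] [IsScalarTower k E L] (j : C →ₐ[k] L)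
  (hβ : Function.Injective (beta A E j)) (hfr : ∀ x : L, ∃ a b : A ⊗[k] C, b ≠ 0 ∧
    x = beta A E j a / beta A E j b) [Group V] [Fintype V] [DecidableEq V]
  [MulSemiringAction V L] [SMulCommClass V k L] [FaithfulSMul V L]
  (θ : V → A ⊗[k] C → A ⊗[k] C)
  (hE : ∀ (g : V) (e : E), g • algebraMap E L e = algebraMap E L e)
  (hθ : ∀ (g : V) (z : A ⊗[k] C), g • beta A E j z = beta A E j (θ g z))

/-- The ideal generated by the determinants at the point `y`. -/
def degIdeal (θ : V → A ⊗[k] C → A ⊗[k] C) (y : C →ₐ[k] k) : Ideal A :=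
  Ideal.span {d | ∃ c : V → C, d = (Matrix.of fun h g => ev A y (θ g (1 ⊗ₜ c h))).det}

/-- The determinant in `A ⊗ C`. -/
noncomputable def dz (θ : V → A ⊗[k] C → A ⊗[k] C) (c : V → C) : A ⊗[k] C :=
  (Matrix.of fun h g => θ g (1 ⊗ₜ c h)).det

lemma ev_dz (c : V → C) (y : C →ₐ[k] k) :
    ev A y (dz θ c) = (Matrix.of fun h g => ev A y (θ g (1 ⊗ₜ c h))).det := by
  unfold dz
  rw [AlgHom.map_det]
  rfl

include hθ in
lemma beta_dz (c : V → C) : beta A E j (dz θ c) = dt (fun h => j (c h)) := by
  unfold dz dt
  rw [AlgHom.map_det]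
  congr 1
  ext h g
  change beta A E j (θ g (1 ⊗ₜ c h)) = g • j (c h)
  rw [← hθ, beta_tmul, map_one, map_one, one_mul]

variable (I : Ideal A) (hI : ∀ y : C →ₐ[k] k, degIdeal θ y = I) (U : Subalgebra k E)
  (hU : ∀ a : A, algebraMap A E a ∈ U) (d : A) (hd : d ∈ I) (hd0 : d ≠ 0)
  (hdI : ∀ a ∈ I, algebraMap A E a / algebraMap A E d ∈ U)

include hθ hI hdI in
lemma dt_j_mem (c : V → C) :
    dt (fun h => j (c h)) / algebraMap E L (algebraMap A E d) ∈ TU U j := by
  classical
  let b := Module.Basis.ofVectorSpace k C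
  set bA := Algebra.TensorProduct.basis A b with hbA
  rw [← beta_dz j θ hθ]
  have h1 : dz θ c = ∑ i ∈ (bA.repr (dz θ c)).support, bA.repr (dz θ c) i • bA i := by
    conv_lhs => rw [← bA.linearCombination_repr (dz θ c)]
    rfl
  rw [h1, map_sum, Finset.sum_div]
  refine Subalgebra.sum_mem _ fun i _ => ?_
  have h2 : bA.repr (dz θ c) i ∈ I := by
    refine coord_mem b I (dz θ c) (fun y => ?_) i
    rw [ev_dz, ← hI y]
    exact Ideal.subset_span ⟨c, rfl⟩
  rw [hbA, Algebra.TensorProduct.basis_apply, smul_tmul', smul_eq_mul, mul_one, beta_tmul,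
    mul_div_right_comm, ← map_div₀]
  exact (TU U j).mul_mem (e_mem j (hdI _ h2)) (j_mem j U _)

include hθ hI hU hdI hd hd0 in
lemma dt_unit [Algebra.FiniteType k (TU U j)] (Q : Ideal (TU U j)) (hQ : Q.IsMaximal) :
    ∃ (r : V → TU U j) (b : TU U j), b ∉ Q ∧
      dt (fun i => (r i : L)) = algebraMap E L (algebraMap A E d) * b := by
  classical
  obtain ⟨χ, hχ⟩ := exists_pt (k := k) Q hQ
  let y : C →ₐ[k] k := χ.comp (j.codRestrict (TU U j) (j_mem j U))
  let iE : U →ₐ[k] TU U j :=
    ((IsScalarTower.toAlgHom k E L).comp U.val).codRestrict (TU U j) fun u => e_mem j u.2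
  let x : U →ₐ[k] k := χ.comp iE
  have hd0' : algebraMap A E d ≠ 0 := fun h => hd0 (IsFractionRing.injective A E
    (h.trans (map_zero _).symm))
  have hdL : algebraMap E L (algebraMap A E d) ≠ 0 := fun h => hd0' ((algebraMap E L).injective
    (h.trans (map_zero _).symm))
  -- the value at the point
  let q : (a : A) → a ∈ I → U := fun a ha => ⟨_, hdI a ha⟩
  have hex : ∃ c : V → C, ∃ h : ev A y (dz θ c) ∈ I, x (q _ h) ≠ 0 := by
    by_contra hcon
    push Not at hcon
    have key : ∀ a, ∀ ha : a ∈ I, x (q a ha) = 0 := by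
      intro a ha
      have ha' := ha
      rw [← hI y] at ha'
      unfold degIdeal at ha'
      revert ha
      induction ha' using Submodule.span_induction with
      | mem a h =>
        intro ha
        obtain ⟨c, hc⟩ := h
        rw [← ev_dz] at hc
        subst hc
        exact hcon c ha
      | zero =>
        intro ha
        have : q 0 ha = 0 := Subtype.ext (by
          change algebraMap A E 0 / _ = 0
          rw [map_zero, zero_div])
        rw [this, map_zero]
      | add a b ha' hb' iha ihb =>
        intro ha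
        have ha1 : a ∈ I := by rw [← hI y]; exact ha'
        have hb1 : b ∈ I := by rw [← hI y]; exact hb'
        have : q (a + b) ha = q a ha1 + q b hb1 := Subtype.ext (by
          change algebraMap A E (a + b) / _ = algebraMap A E a / _ + algebraMap A E b / _
          rw [map_add, add_div])
        rw [this, map_add, iha ha1, ihb hb1, add_zero]
      | smul s a ha' iha =>
        intro ha
        have ha1 : a ∈ I := by rw [← hI y]; exact ha'
        have : q (s • a) ha = ⟨algebraMap A E s, hU s⟩ * q a ha1 := Subtype.ext (by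
          change algebraMap A E (s * a) / _ = algebraMap A E s * (algebraMap A E a / _)
          rw [map_mul, mul_div_assoc])
        rw [this, map_mul, iha ha1, mul_zero]
    have h1 : q d hd = 1 := Subtype.ext (div_self hd0')
    have h2 := key d hd
    rw [h1, map_one] at h2
    exact one_ne_zero h2
  obtain ⟨c, hc, hne⟩ := hex
  refine ⟨fun h => ⟨j (c h), j_mem j U _⟩,
    ⟨dt (fun h => j (c h)) / algebraMap E L (algebraMap A E d),
      dt_j_mem j θ hθ I hI U d hdI c⟩, ?_, ?_⟩
  · rw [hχ]
    intro h0
    apply hne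
    -- both sides are sums over the basis
    let b := Module.Basis.ofVectorSpace k C
    let bA := Algebra.TensorProduct.basis A b
    have hbi : ∀ i, bA i = 1 ⊗ₜ b i := fun i => Algebra.TensorProduct.basis_apply b i
    have h1 : dz θ c = ∑ i ∈ (bA.repr (dz θ c)).support, bA.repr (dz θ c) i • bA i := by
      conv_lhs => rw [← bA.linearCombination_repr (dz θ c)]
      rfl
    have h2 : ∀ i, bA.repr (dz θ c) i ∈ I := by
      intro i
      refine coord_mem b I (dz θ c) (fun y => ?_) i
      rw [ev_dz, ← hI y]
      exact Ideal.subset_span ⟨c, rfl⟩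
    have e1 : (⟨dt (fun h => j (c h)) / algebraMap E L (algebraMap A E d),
        dt_j_mem j θ hθ I hI U d hdI c⟩ : TU U j) =
        ∑ i ∈ (bA.repr (dz θ c)).support, iE (q _ (h2 i)) * ⟨j (b i), j_mem j U _⟩ := by
      apply Subtype.ext
      rw [AddSubmonoidClass.coe_finsetSum]
      change dt (fun h => j (c h)) / algebraMap E L (algebraMap A E d) = _
      rw [← beta_dz j θ hθ]
      conv_lhs => rw [h1]
      rw [map_sum, Finset.sum_div]
      refine Finset.sum_congr rfl fun i _ => ?_
      rw [hbi, smul_tmul', smul_eq_mul, mul_one, beta_tmul, mul_div_right_comm, ← map_div₀]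
      rfl
    have e2 : q _ hc = ∑ i ∈ (bA.repr (dz θ c)).support,
        q _ (h2 i) * algebraMap k U (y (b i)) := by
      apply Subtype.ext
      rw [AddSubmonoidClass.coe_finsetSum]
      change algebraMap A E (ev A y (dz θ c)) / algebraMap A E d = _
      conv_lhs => rw [h1]
      rw [map_sum, map_sum, Finset.sum_div]
      refine Finset.sum_congr rfl fun i _ => ?_
      rw [map_smul, hbi, ev_tmul, one_mul, smul_eq_mul,
        map_mul, mul_div_right_comm, ← IsScalarTower.algebraMap_apply]
      rfl
    rw [e1, map_sum] at h0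
    rw [e2, map_sum, ← h0]
    refine Finset.sum_congr rfl fun i _ => ?_
    rw [map_mul, map_mul, AlgHom.commutes]
    rfl
  · change dt (fun h => j (c h)) = _ * (dt (fun h => j (c h)) / _)
    rw [mul_div_cancel₀ _ hdL]

include hβ hfr hE hθ hI hU hd hd0 hdI in
/-- The charts of the quotient are smooth. -/
theorem smooth_chart [Algebra.Smooth k U] : Algebra.Smooth k (inv V (TU U j)) := by
  have h1 := smooth_TU j hβ U
  have hd0' : algebraMap A E d ≠ 0 := fun h => hd0 (IsFractionRing.injective A E
    (h.trans (map_zero _).symm))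
  have hdL : algebraMap E L (algebraMap A E d) ≠ 0 := fun h => hd0' ((algebraMap E L).injective
    (h.trans (map_zero _).symm))
  refine smooth_inv (TU U j) (fun g x hx => TU_stable j θ hE hθ hU g x hx) ?_
    (algebraMap E L (algebraMap A E d)) hdL ?_ ?_
  · intro x
    obtain ⟨a, b, hb, h⟩ := hfr x
    exact ⟨_, beta_mem j hU a, _, beta_mem j hU b,
      fun h0 => hb (hβ (h0.trans (map_zero _).symm)), h⟩
  · intro f hf
    refine ⟨dt f / algebraMap E L (algebraMap A E d), ?_, ?_⟩
    · exact dt_mem j hE U _ hdL (dt_j_mem j θ hθ I hI U d hdI) f hf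
    · rw [mul_div_cancel₀ _ hdL]
  · intro Q hQ
    exact dt_unit j θ hθ I hI U hU d hd hd0 hdI Q hQ

end deg

end Pool.Agent.Helper44x.DM
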