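import Pool.Agent.Helper44x.DM.Surf

/-!
Smooth projective modifications on which a given homogeneous ideal becomes principal: affine
varieties with an action of a torus of complexity two.
-/

set_option autoImplicit false
set_option linter.unusedVariables false
set_option linter.unusedSectionVars false

open TensorProduct AlgebraicGeometry CategoryTheory Pool.Agent.W558 Pool.Agent.H920R2
open Pool.Agent.W466.RS.Gr

namespace Pool.Agent.Helper44x.DM

section gr

variable {k A : Type} [Field k] [CommRing A] [IsDomain A] [Algebra k A] {r : ℕ}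
  (𝒜 : (Fin r → ℤ) → Submodule k A) [GradedAlgebra 𝒜]

/-- Homogeneous elements as products of functions of degree zero and monomials. -/
theorem gr_gen (m : ℕ) (a : Fin m → A) (d : Fin m → (Fin r → ℤ)) (ha0 : ∀ b, a b ≠ 0)
    (hd : ∀ b, a b ∈ 𝒜 (d b)) :
    ∃ (n : ℕ) (z : Fin n → FractionRing A) (h : Fin m → homFrac 𝒜)
      (c : Fin m → Fin n → ℤ), AlgebraicIndependent (homFrac 𝒜) z ∧ (∀ b, h b ≠ 0) ∧
      ∀ b, algebraMap A (FractionRing A) (a b) = (h b : FractionRing A) * ∏ j, z j ^ c b j := by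
  classical
  let L : Submodule ℤ (Fin r → ℤ) := Submodule.span ℤ (Set.range d)
  obtain ⟨n, bL⟩ := Submodule.basisOfPid (Pi.basisFun ℤ (Fin r)) L
  have hL : ∀ l ∈ L, ∃ x : FractionRing A, x ≠ 0 ∧ HF 𝒜 l x := by
    intro l hl
    induction hl using Submodule.span_induction with
    | mem l hl =>
      obtain ⟨b, rfl⟩ := hl
      exact ⟨_, am_ne (ha0 b), HF.of_mem (hd b)⟩
    | zero => exact ⟨1, one_ne_zero, HF.one⟩
    | add l l' _ _ ih ih' =>
      obtain ⟨x, hx0, hx⟩ := ih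
      obtain ⟨y, hy0, hy⟩ := ih'
      exact ⟨x * y, mul_ne_zero hx0 hy0, hx.mul hy⟩
    | smul c l _ ih =>
      obtain ⟨x, hx0, hx⟩ := ih
      exact ⟨x ^ c, zpow_ne_zero _ hx0, hx.zpow hx0 c⟩
  choose z hz0 hz using fun j : Fin n => hL (bL j : Fin r → ℤ) (bL j).2
  have hdL : ∀ b, d b ∈ L := fun b => Submodule.subset_span ⟨b, rfl⟩
  let c : Fin m → Fin n → ℤ := fun b j => bL.repr ⟨d b, hdL b⟩ j
  have hc : ∀ b, ∑ j, c b j • (bL j : Fin r → ℤ) = d b := by
    intro b
    have h1 := bL.sum_repr ⟨d b, hdL b⟩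
    have h2 : ((∑ j, c b j • bL j : L) : Fin r → ℤ) = d b :=
      congrArg (Subtype.val : L → (Fin r → ℤ)) h1
    rw [AddSubmonoidClass.coe_finsetSum] at h2
    exact h2
  have hP : ∀ b, HF 𝒜 (d b) (∏ j, z j ^ c b j) := by
    intro b
    have h1 := HF.prod (𝒜 := 𝒜) Finset.univ (fun j => c b j • (bL j : Fin r → ℤ))
      (fun j => z j ^ c b j) (fun j _ => (hz j).zpow (hz0 j) _)
    rw [hc b] at h1
    exact h1
  have hP0 : ∀ b, ∏ j, z j ^ c b j ≠ 0 := fun b =>
    Finset.prod_ne_zero_iff.2 fun j _ => zpow_ne_zero _ (hz0 j)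
  have hh : ∀ b, algebraMap A (FractionRing A) (a b) * (∏ j, z j ^ c b j)⁻¹ ∈ homFrac 𝒜 := by
    intro b
    apply HF.mem
    have h1 := (HF.of_mem (hd b)).mul ((hP b).inv (hP0 b))
    rw [add_neg_cancel] at h1
    exact h1
  refine ⟨n, z, fun b => ⟨_, hh b⟩, c, ?_, ?_, ?_⟩
  · refine algInd (𝒜 := 𝒜) z (fun j => (bL j : Fin r → ℤ)) ?_ hz hz0
    have h1 := bL.linearIndependent
    exact h1.map' L.subtype (Submodule.ker_subtype L)
  · intro b h0
    have h1 : algebraMap A (FractionRing A) (a b) * (∏ j, z j ^ c b j)⁻¹ = 0 :=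
      congrArg Subtype.val h0
    exact mul_ne_zero (am_ne (ha0 b)) (inv_ne_zero (hP0 b)) h1
  · intro b
    change _ = algebraMap A (FractionRing A) (a b) * (∏ j, z j ^ c b j)⁻¹ * ∏ j, z j ^ c b j
    rw [inv_mul_cancel_right₀ (hP0 b)]

/-- Homogeneous generators. -/
lemma exists_hom_gens [Algebra.FiniteType k A] : ∃ G : Finset A,
    Algebra.adjoin k (G : Set A) = ⊤ ∧ ∀ g ∈ G, ∃ d, g ∈ 𝒜 d := by
  classical
  obtain ⟨S, hS⟩ := (inferInstance : Algebra.FiniteType k A)
  refine ⟨(S.biUnion fun s => (DirectSum.decompose 𝒜 s).support.image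
    fun d => ((DirectSum.decompose 𝒜 s) d : A)), ?_, ?_⟩
  · rw [eq_top_iff, ← hS]
    apply Algebra.adjoin_le
    intro s hs
    rw [← DirectSum.sum_support_decompose 𝒜 s]
    apply Subalgebra.sum_mem
    intro d hd
    apply Algebra.subset_adjoin
    rw [Finset.mem_coe, Finset.mem_biUnion]
    exact ⟨s, hs, Finset.mem_image.2 ⟨d, hd, rfl⟩⟩
  · intro g hg
    obtain ⟨s, hs, hg⟩ := Finset.mem_biUnion.1 hg
    obtain ⟨d, hd, rfl⟩ := Finset.mem_image.1 hg
    exact ⟨d, SetLike.coe_mem _⟩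

/-- Affine varieties with an action of a torus of complexity two and homogeneous ideals. -/
theorem hasPR_graded [PerfectField k] [Algebra.FiniteType k A]
    (h2 : Algebra.trdeg k (homFrac 𝒜) = 2) (hM : HasModel k (homFrac 𝒜)) (J : Ideal A)
    (hJ : J ≠ ⊥) (S : Set A) (hS : ∀ s ∈ S, ∃ d, s ∈ 𝒜 d) (hJS : J = Ideal.span S) :
    HasPR k A J := by
  classical
  have hnoe : IsNoetherianRing A := Algebra.FiniteType.isNoetherianRing k A
  have hfg : (Submodule.span A S).FG := by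
    have : J.FG := IsNoetherian.noetherian J
    rw [hJS] at this
    exact this
  obtain ⟨F0, hF0S, hF0⟩ := (Submodule.fg_span_iff_fg_span_finset_subset S).1 hfg
  obtain ⟨G0, hG0, hG0d⟩ := exists_hom_gens 𝒜
  let W : Finset A := (G0 ∪ F0).erase 0
  have hWd : ∀ x ∈ W, ∃ d, x ∈ 𝒜 d := by
    intro x hx
    rcases Finset.mem_union.1 (Finset.mem_of_mem_erase hx) with h | h
    · exact hG0d x h
    · exact hS x (hF0S h)
  let m := W.card
  let a : Fin m → A := fun b => (W.equivFin.symm b : A)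
  have ha : ∀ b, a b ∈ W := fun b => (W.equivFin.symm b).2
  have has : ∀ x ∈ W, ∃ b, a b = x := fun x hx => ⟨W.equivFin ⟨x, hx⟩, by simp [a]⟩
  have ha0 : ∀ b, a b ≠ 0 := fun b => (Finset.mem_erase.1 (ha b)).1
  choose d hd using fun b => hWd (a b) (ha b)
  obtain ⟨n, z, h, c, hz, hh, hac⟩ := gr_gen 𝒜 m a d ha0 hd
  obtain ⟨s⟩ := all_init k (homFrac 𝒜) hM
  obtain ⟨s', Γ, hΓ⟩ := all_log k (homFrac 𝒜) h2 s (Fin m) h hh
  obtain ⟨T1, I1, i1, i2, M1, Γ1, hΓ1⟩ :=
    all_tor k (homFrac 𝒜) (FractionRing A) s'.T s'.I (Fin m) s'.M h Γ hΓ n z hz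
  have hmono := fn_mono hΓ1 (ι := Fin m)
    (fun b => Sum.elim (fun b' => if b' = b then (1 : ℤ) else 0) (c b))
  have e1 : (fun i => ∏ b : Fin m ⊕ Fin n, (Sum.elim (fun b => algebraMap (homFrac 𝒜)
      (FractionRing A) (h b)) z) b ^ (Sum.elim (fun b' => if b' = i then (1 : ℤ) else 0) (c i)) b)
      = fun b => gA k A (a b) := by
    funext b
    rw [Fintype.prod_sum_type]
    refine Eq.trans ?_ (hac b).symm
    congr 1
    rw [Finset.prod_eq_single b]
    · simp
    · intro b' _ hb'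
      simp [hb']
    · simp
  rw [e1] at hmono
  have hinj : Function.Injective (gA k A) := IsFractionRing.injective A (FractionRing A)
  let Q : Set (Fin m) := {b | a b ∈ G0}
  have hR : (gA k A).range = Algebra.adjoin k ((fun b => gA k A (a b)) '' Q) := by
    apply le_antisymm
    · rintro _ ⟨x, rfl⟩
      have hx : x ∈ Algebra.adjoin k (G0 : Set A) := by rw [hG0]; trivial
      change gA k A x ∈ _
      induction hx using Algebra.adjoin_induction with
      | mem x hx =>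
        by_cases h0 : x = 0
        · rw [h0, map_zero]
          exact Subalgebra.zero_mem _
        · obtain ⟨b, rfl⟩ := has x (Finset.mem_erase.2 ⟨h0, Finset.mem_union_left _ hx⟩)
          exact Algebra.subset_adjoin ⟨b, hx, rfl⟩
      | algebraMap r => rw [AlgHom.commutes]; exact Subalgebra.algebraMap_mem _ _
      | add x y _ _ hx hy => rw [map_add]; exact Subalgebra.add_mem _ hx hy
      | mul x y _ _ hx hy => rw [map_mul]; exact Subalgebra.mul_mem _ hx hy
    · rw [Algebra.adjoin_le_iff]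
      rintro _ ⟨x, -, rfl⟩
      exact ⟨a x, rfl⟩
  have hfrac : ∀ x : FractionRing A, ∃ a ∈ (gA k A).range, ∃ b ∈ (gA k A).range,
      b ≠ 0 ∧ x = a * b⁻¹ := by
    intro x
    obtain ⟨a, b, hb, rfl⟩ := IsFractionRing.div_surjective A x
    refine ⟨_, ⟨a, rfl⟩, _, ⟨b, rfl⟩, ?_, div_eq_mul_inv _ _⟩
    intro h
    exact nonZeroDivisors.ne_zero hb (hinj (h.trans (map_zero _).symm))
  obtain ⟨T2, I2, j1, j2, M2, Γ2, hF2, -⟩ := all_restr k (FractionRing A) T1 I1 (Fin m) M1 _ _ hmono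
    Q (gA k A).range hR hfrac
  let ι : Type := {b : Fin m // a b ∈ F0}
  have hι : Nonempty ι := by
    by_contra hcon
    rw [not_nonempty_iff] at hcon
    apply hJ
    rw [hJS]
    change Submodule.span A S = ⊥
    rw [hF0]
    refine Ideal.span_eq_bot.2 fun x hx => ?_
    by_contra h0
    obtain ⟨b, rfl⟩ := has x (Finset.mem_erase.2 ⟨h0, Finset.mem_union_right _ hx⟩)
    exact hcon.elim ⟨b, hx⟩
  refine hasPR_of_LM M2 a Γ2 hF2 (fun b : ι => b.1) J ?_
  rw [hJS]
  change Submodule.span A S = _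
  rw [hF0]
  apply le_antisymm
  · refine Ideal.span_le.2 fun x hx => ?_
    by_cases h0 : x = 0
    · rw [h0]; exact Ideal.zero_mem _
    · obtain ⟨b, rfl⟩ := has x (Finset.mem_erase.2 ⟨h0, Finset.mem_union_right _ hx⟩)
      exact Ideal.subset_span ⟨⟨b, hx⟩, rfl⟩
  · refine Ideal.span_le.2 ?_
    rintro _ ⟨x, rfl⟩
    exact Ideal.subset_span x.2

end gr

end Pool.Agent.Helper44x.DM
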