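import Pool.Agent.Helper44x.DM.Fib

/-!
Translations by points of algebraic groups over an affine variety.
-/

set_option autoImplicit false
set_option linter.unusedVariables false
set_option linter.unusedSectionVars false

open TensorProduct WithConv

namespace Pool.Agent.Helper44x.DM

section hopf

variable {k A C : Type} [Field k] [CommRing A] [Algebra k A] [CommRing C] [HopfAlgebra k C]

/-- The map `c ↦ ∑ f (c₁) ⊗ c₂`. -/
noncomputable def tr (f : C →ₐ[k] A) : C →ₐ[k] A ⊗[k] C :=
  (Algebra.TensorProduct.map f (AlgHom.id k C)).comp (Bialgebra.comulAlgHom k C)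

/-- The translation by the point `f`: the map `a ⊗ c ↦ ∑ a * f (c₁) ⊗ c₂`. -/
noncomputable def lam (f : C →ₐ[k] A) : A ⊗[k] C →ₐ[A] A ⊗[k] C :=
  Algebra.TensorProduct.lift (Algebra.ofId A (A ⊗[k] C)) (tr f) fun _ _ => Commute.all _ _

lemma lam_tmul (f : C →ₐ[k] A) (a : A) (c : C) : lam f (a ⊗ₜ c) = (a ⊗ₜ 1) * tr f c :=
  Algebra.TensorProduct.lift_tmul _ _ _ _ _

lemma tr_apply (f : C →ₐ[k] A) (c : C) :
    tr f c = Algebra.TensorProduct.map f (AlgHom.id k C) (Coalgebra.comul (R := k) c) := rfl

lemma lam_one_tmul (f : C →ₐ[k] A) (c : C) : lam f (1 ⊗ₜ c) = tr f c := by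
  rw [lam_tmul, ← Algebra.TensorProduct.one_def, one_mul]

/-- The auxiliary map. -/
noncomputable def Ph (f g : C →ₐ[k] A) : C ⊗[k] (C ⊗[k] C) →ₐ[k] A ⊗[k] C :=
  Algebra.TensorProduct.lift ((Algebra.TensorProduct.includeLeft : A →ₐ[k] A ⊗[k] C).comp g)
    (Algebra.TensorProduct.map f (AlgHom.id k C)) fun _ _ => Commute.all _ _

lemma Ph_tmul (f g : C →ₐ[k] A) (x : C) (w : C ⊗[k] C) :
    Ph f g (x ⊗ₜ w) = (g x ⊗ₜ 1) * Algebra.TensorProduct.map f (AlgHom.id k C) w :=
  Algebra.TensorProduct.lift_tmul _ _ _ _ _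

lemma Ph_left (f g : C →ₐ[k] A) (w : C ⊗[k] C) :
    lam f (Algebra.TensorProduct.map g (AlgHom.id k C) w) =
      Ph f g ((Coalgebra.comul (R := k)).lTensor C w) := by
  induction w using TensorProduct.induction_on with
  | zero => rw [map_zero, map_zero, map_zero, map_zero]
  | tmul x y =>
    rw [Algebra.TensorProduct.map_tmul, lam_tmul, LinearMap.lTensor_tmul, Ph_tmul]
    rfl
  | add x y hx hy => rw [map_add, map_add, map_add, map_add, hx, hy]

lemma Ph_assoc (f g : C →ₐ[k] A) (u : C ⊗[k] C) (y : C) :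
    Ph f g (TensorProduct.assoc k C C C (u ⊗ₜ y)) =
      (Algebra.TensorProduct.lift g f (fun _ _ => Commute.all _ _) u) ⊗ₜ[k] y := by
  induction u using TensorProduct.induction_on with
  | zero => rw [TensorProduct.zero_tmul, map_zero, map_zero, map_zero, TensorProduct.zero_tmul]
  | tmul a b =>
    rw [TensorProduct.assoc_tmul, Ph_tmul, Algebra.TensorProduct.map_tmul,
      Algebra.TensorProduct.tmul_mul_tmul, one_mul, Algebra.TensorProduct.lift_tmul]
    rfl
  | add u v hu hv =>
    rw [TensorProduct.add_tmul, map_add, map_add, hu, hv, map_add, TensorProduct.add_tmul]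

lemma Ph_right (f g : WithConv (C →ₐ[k] A)) (w : C ⊗[k] C) :
    Algebra.TensorProduct.map (g * f).ofConv (AlgHom.id k C) w =
      Ph f.ofConv g.ofConv (TensorProduct.assoc k C C C
        ((Coalgebra.comul (R := k)).rTensor C w)) := by
  induction w using TensorProduct.induction_on with
  | zero => rw [map_zero, map_zero, map_zero, map_zero]
  | tmul x y =>
    rw [Algebra.TensorProduct.map_tmul, LinearMap.rTensor_tmul, Ph_assoc]
    congr 1
    exact AlgHom.convMul_apply g f x
  | add x y hx hy => rw [map_add, map_add, map_add, map_add, hx, hy]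

/-- Composition of translations. -/
lemma lam_tr (f g : WithConv (C →ₐ[k] A)) (c : C) :
    lam f.ofConv (tr g.ofConv c) = tr (g * f).ofConv c := by
  rw [tr_apply, tr_apply, Ph_left, Ph_right, Coalgebra.coassoc_apply]

lemma lam_lam (f g : WithConv (C →ₐ[k] A)) (z : A ⊗[k] C) :
    lam f.ofConv (lam g.ofConv z) = lam (g * f).ofConv z := by
  induction z using TensorProduct.induction_on with
  | zero => rw [map_zero, map_zero, map_zero]
  | tmul a c =>
    have h1 : (a ⊗ₜ[k] (1 : C)) = algebraMap A (A ⊗[k] C) a := rfl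
    rw [lam_tmul, lam_tmul, map_mul, lam_tr, h1, AlgHom.commutes]
  | add x y hx hy => rw [map_add, map_add, map_add, hx, hy]

lemma tr_one (c : C) : tr (1 : WithConv (C →ₐ[k] A)).ofConv c = 1 ⊗ₜ c := by
  have key : ∀ w : C ⊗[k] C, Algebra.TensorProduct.map (1 : WithConv (C →ₐ[k] A)).ofConv
      (AlgHom.id k C) w = Algebra.TensorProduct.map (Algebra.ofId k A) (AlgHom.id k C)
        ((Coalgebra.counit (R := k)).rTensor C w) := by
    intro w
    induction w using TensorProduct.induction_on with
    | zero => rw [map_zero, map_zero, map_zero]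
    | tmul x y =>
      rw [Algebra.TensorProduct.map_tmul, LinearMap.rTensor_tmul, Algebra.TensorProduct.map_tmul]
      rfl
    | add x y hx hy => rw [map_add, map_add, map_add, hx, hy]
  rw [tr_apply, key, Coalgebra.rTensor_counit_comul, Algebra.TensorProduct.map_tmul, map_one]
  rfl

lemma lam_one (z : A ⊗[k] C) : lam (1 : WithConv (C →ₐ[k] A)).ofConv z = z := by
  induction z using TensorProduct.induction_on with
  | zero => rw [map_zero]
  | tmul a c =>
    rw [lam_tmul, tr_one, Algebra.TensorProduct.tmul_mul_tmul, mul_one, one_mul]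
  | add x y hx hy => rw [map_add, hx, hy]

variable {V : Type} [Group V]

/-- The action of a group of points by translations. -/
noncomputable def thH (φ : V →* WithConv (C →ₐ[k] A)) : V →* ((A ⊗[k] C) ≃ₐ[A] (A ⊗[k] C)) where
  toFun g := AlgEquiv.ofAlgHom (lam (φ g⁻¹).ofConv) (lam (φ g).ofConv)
    (AlgHom.ext fun z => by
      rw [AlgHom.comp_apply, lam_lam, ← map_mul, mul_inv_cancel, map_one, lam_one]
      rfl)
    (AlgHom.ext fun z => by
      rw [AlgHom.comp_apply, lam_lam, ← map_mul, inv_mul_cancel, map_one, lam_one]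
      rfl)
  map_one' := AlgEquiv.ext fun z => by
    change lam (φ 1⁻¹).ofConv z = z
    rw [inv_one, map_one, lam_one]
  map_mul' g h := AlgEquiv.ext fun z => by
    change lam (φ (g * h)⁻¹).ofConv z = lam (φ g⁻¹).ofConv (lam (φ h⁻¹).ofConv z)
    rw [lam_lam, ← map_mul, mul_inv_rev]

lemma thH_apply (φ : V →* WithConv (C →ₐ[k] A)) (g : V) (z : A ⊗[k] C) :
    thH φ g z = lam (φ g⁻¹).ofConv z := rfl

end hopf

section pt

variable {k A C : Type} [Field k] [CommRing A] [Algebra k A] [CommRing C] [HopfAlgebra k C]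

/-- The right translation by a point. -/
noncomputable def rt (y : C →ₐ[k] k) : C →ₐ[k] C :=
  (Algebra.TensorProduct.rid k k C).toAlgHom.comp
    ((Algebra.TensorProduct.map (AlgHom.id k C) y).comp (Bialgebra.comulAlgHom k C))

lemma ev_tr (y : C →ₐ[k] k) (f : C →ₐ[k] A) (c : C) : ev A y (tr f c) = f (rt y c) := by
  have key : ∀ w : C ⊗[k] C, ev A y (Algebra.TensorProduct.map f (AlgHom.id k C) w) =
      f (Algebra.TensorProduct.rid k k C (Algebra.TensorProduct.map (AlgHom.id k C) y w)) := by
    intro w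
    induction w using TensorProduct.induction_on with
    | zero => rw [map_zero, map_zero, map_zero, map_zero, map_zero]
    | tmul a b =>
      rw [Algebra.TensorProduct.map_tmul, ev_tmul, Algebra.TensorProduct.map_tmul,
        Algebra.TensorProduct.rid_tmul, map_smul, Algebra.smul_def, mul_comm]
      rfl
    | add x y hx hy => rw [map_add, map_add, map_add, map_add, map_add, hx, hy]
  exact key _

/-- The auxiliary map. -/
noncomputable def Ps (y y' : C →ₐ[k] k) : (C ⊗[k] C) ⊗[k] C →ₐ[k] C :=
  Algebra.TensorProduct.lift ((ev C y).restrictScalars k) ((Algebra.ofId k C).comp y')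
    fun _ _ => Commute.all _ _

lemma Ps_tmul (y y' : C →ₐ[k] k) (u : C ⊗[k] C) (c : C) :
    Ps y y' (u ⊗ₜ c) = ev C y u * algebraMap k C (y' c) :=
  Algebra.TensorProduct.lift_tmul _ _ _ _ _

lemma rt_eq (y : C →ₐ[k] k) (c : C) : rt y c = ev C y (Coalgebra.comul (R := k) c) := by
  have h := ev_tr (A := C) y (AlgHom.id k C) c
  rw [tr_apply, Algebra.TensorProduct.map_id] at h
  exact h.symm

lemma Ps_left (y y' : C →ₐ[k] k) (w : C ⊗[k] C) :
    rt y (ev C y' w) = Ps y y' ((Coalgebra.comul (R := k)).rTensor C w) := by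
  induction w using TensorProduct.induction_on with
  | zero => rw [map_zero, map_zero, map_zero, map_zero]
  | tmul a b =>
    rw [ev_tmul, LinearMap.rTensor_tmul, Ps_tmul, map_mul, AlgHom.commutes, rt_eq]
  | add u v hu hv => rw [map_add, map_add, map_add, map_add, hu, hv]

lemma Ps_assoc (y y' : C →ₐ[k] k) (a : C) (u : C ⊗[k] C) :
    Ps y y' ((TensorProduct.assoc k C C C).symm (a ⊗ₜ u)) =
      a * algebraMap k C (Algebra.TensorProduct.lift y y' (fun _ _ => Commute.all _ _) u) := by
  induction u using TensorProduct.induction_on with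
  | zero => rw [TensorProduct.tmul_zero, map_zero, map_zero, map_zero, map_zero, mul_zero]
  | tmul b c =>
    rw [TensorProduct.assoc_symm_tmul, Ps_tmul, ev_tmul, Algebra.TensorProduct.lift_tmul,
      map_mul, mul_assoc]
  | add u v hu hv =>
    rw [TensorProduct.tmul_add, map_add, map_add, hu, hv, map_add, map_add, mul_add]

lemma Ps_right (y y' : WithConv (C →ₐ[k] k)) (w : C ⊗[k] C) :
    ev C (y * y').ofConv w = Ps y.ofConv y'.ofConv ((TensorProduct.assoc k C C C).symm
      ((Coalgebra.comul (R := k)).lTensor C w)) := by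
  induction w using TensorProduct.induction_on with
  | zero => rw [map_zero, map_zero, map_zero, map_zero]
  | tmul a b =>
    rw [LinearMap.lTensor_tmul, Ps_assoc, ev_tmul]
    congr 2
    exact AlgHom.convMul_apply y y' b
  | add u v hu hv => rw [map_add, map_add, map_add, map_add, hu, hv]

lemma rt_rt (y y' : WithConv (C →ₐ[k] k)) (c : C) :
    rt y.ofConv (rt y'.ofConv c) = rt (y * y').ofConv c := by
  rw [rt_eq y'.ofConv, Ps_left, rt_eq, Ps_right, Coalgebra.coassoc_symm_apply]

lemma rt_one (c : C) : rt (1 : WithConv (C →ₐ[k] k)).ofConv c = c := by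
  have key : ∀ w : C ⊗[k] C, ev C (1 : WithConv (C →ₐ[k] k)).ofConv w =
      TensorProduct.rid k C ((Coalgebra.counit (R := k)).lTensor C w) := by
    intro w
    induction w using TensorProduct.induction_on with
    | zero => rw [map_zero, map_zero, map_zero]
    | tmul a b =>
      rw [ev_tmul, LinearMap.lTensor_tmul, TensorProduct.rid_tmul, Algebra.smul_def, mul_comm]
      rfl
    | add u v hu hv => rw [map_add, map_add, map_add, hu, hv]
  rw [rt_eq, key, Coalgebra.lTensor_counit_comul, TensorProduct.rid_tmul, one_smul]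

lemma rt_surjective (y : C →ₐ[k] k) : Function.Surjective (rt y) := by
  intro c
  refine ⟨rt ((toConv y)⁻¹).ofConv c, ?_⟩
  have h1 := rt_rt (toConv y) (toConv y)⁻¹ c
  rw [mul_inv_cancel, rt_one] at h1
  exact h1

end pt

end Pool.Agent.Helper44x.DM
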