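import Pool.Agent.Helper44x.DM.Hopf
import Pool.Agent.Helper44x.DM.Graded

/-!
Quotients of products of affine varieties and algebraic groups by finite groups of translations.
-/

set_option autoImplicit false
set_option linter.unusedVariables false
set_option linter.unusedSectionVars false

open TensorProduct WithConv AlgebraicGeometry CategoryTheory Pool.Agent.W558 Pool.Agent.H920R2

namespace Pool.Agent.Helper44x.DM

section ideal

variable {k A C V : Type} [Field k] [CommRing A] [Algebra k A] [CommRing C] [HopfAlgebra k C]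
  [Group V] [Fintype V] [DecidableEq V]

/-- The ideal generated by the determinants `det (φ g (c h))`. -/
def trIdeal (φ : V →* WithConv (C →ₐ[k] A)) : Ideal A :=
  Ideal.span {d | ∃ c : V → C, d = (Matrix.of fun h g => (φ g).ofConv (c h)).det}

lemma det_inv (φ : V →* WithConv (C →ₐ[k] A)) (c : V → C) :
    (Matrix.of fun h g => (φ g⁻¹).ofConv (c h)).det =
      (Matrix.of fun h g => (φ g).ofConv (c h⁻¹)).det := by
  have h1 := Matrix.det_submatrix_equiv_self (Equiv.inv V)
    (Matrix.of fun h g => (φ g).ofConv (c h⁻¹))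
  rw [← h1]
  congr 1
  ext h g
  change (φ g⁻¹).ofConv (c h) = (φ g⁻¹).ofConv (c h⁻¹⁻¹)
  rw [inv_inv]

/-- Translations degenerate uniformly. -/
lemma deg_thH (φ : V →* WithConv (C →ₐ[k] A)) (y : C →ₐ[k] k) :
    degIdeal (fun g z => thH φ g z) y = trIdeal φ := by
  have key : ∀ c : V → C, (Matrix.of fun h g => ev A y (thH φ g (1 ⊗ₜ c h))).det =
      (Matrix.of fun h g => (φ g).ofConv (rt y (c h⁻¹))).det := by
    intro c
    rw [← det_inv φ (fun h => rt y (c h))]
    congr 1
    ext h g
    change ev A y (thH φ g (1 ⊗ₜ c h)) = (φ g⁻¹).ofConv (rt y (c h))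
    rw [thH_apply, lam_one_tmul, ev_tr]
  apply le_antisymm
  · refine Ideal.span_mono ?_
    rintro d ⟨c, rfl⟩
    exact ⟨fun h => rt y (c h⁻¹), key c⟩
  · refine Ideal.span_mono ?_
    rintro d ⟨c, rfl⟩
    choose c' hc' using fun h : V => rt_surjective y (c h)
    refine ⟨fun h => c' h⁻¹, ?_⟩
    rw [key]
    congr 1
    ext h g
    change (φ g).ofConv (c h) = (φ g).ofConv (rt y (c' h⁻¹⁻¹))
    rw [inv_inv, hc']

lemma thH_injective (φ : V →* WithConv (C →ₐ[k] A)) (hφ : Function.Injective φ)
    [Nonempty (C →ₐ[k] k)] : Function.Injective (thH φ) := by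
  obtain ⟨y⟩ := ‹Nonempty (C →ₐ[k] k)›
  intro g h hgh
  apply inv_injective
  apply hφ
  apply WithConv.ofConv_injective
  ext c
  obtain ⟨c', rfl⟩ := rt_surjective y c
  rw [← ev_tr, ← ev_tr, ← lam_one_tmul, ← lam_one_tmul, ← thH_apply, ← thH_apply, hgh]

/-- The invariants of the translations. -/
def ivH (φ : V →* WithConv (C →ₐ[k] A)) : Subalgebra k (A ⊗[k] C) where
  carrier := {z | ∀ g, lam (φ g).ofConv z = z}
  mul_mem' := fun {a b} ha hb g => by rw [map_mul, ha g, hb g]
  add_mem' := fun {a b} ha hb g => by rw [map_add, ha g, hb g]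
  algebraMap_mem' := fun c g => by
    rw [IsScalarTower.algebraMap_apply k A (A ⊗[k] C)]
    exact (lam (φ g).ofConv).commutes _

lemma ivH_eq (φ : V →* WithConv (C →ₐ[k] A)) : ivH φ = ivB (fun g => thH φ g) := by
  ext z
  constructor
  · intro h g
    exact h g⁻¹
  · intro h g
    have h1 := h g⁻¹
    rw [thH_apply, inv_inv] at h1
    exact h1

end ideal

section main

variable {k A C V : Type} [Field k] [IsAlgClosed k] [CommRing A] [IsDomain A] [Algebra k A]
  [Algebra.FiniteType k A] [CommRing C] [IsDomain C] [HopfAlgebra k C] [Algebra.Smooth k C]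
  [Group V] [Fintype V] [DecidableEq V]

/-- Resolution of quotients by translations. -/
theorem main_hopf (φ : V →* WithConv (C →ₐ[k] A)) (hφ : Function.Injective φ)
    (hX : trIdeal φ ≠ ⊥ → HasPR k A (trIdeal φ)) :
    IsVariety (X := Spec (CommRingCat.of (ivH φ)))
      (Spec.map (CommRingCat.ofHom (algebraMap k (ivH φ)))) ∧
    HasResolution (X := Spec (CommRingCat.of (ivH φ)))
      (Spec.map (CommRingCat.ofHom (algebraMap k (ivH φ)))) := by
  have hpt : Nonempty (C →ₐ[k] k) := by
    obtain ⟨y, -⟩ := Pool.Agent.H920R2.exists_point (k := k) (one_ne_zero (α := C))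
    exact ⟨y⟩
  rw [ivH_eq]
  exact main_thm (thH φ) (thH_injective φ hφ) (trIdeal φ) (deg_thH φ) hX

end main

end Pool.Agent.Helper44x.DM
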