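import Pool.Agent.Helper44x.DM.Det

/-!
Invariants of finite groups: if the determinants `det (g • f h)` generate an invertible ideal of a
smooth algebra, then the ring of invariants is smooth.
-/

set_option autoImplicit false
set_option linter.unusedVariables false
set_option linter.unusedSectionVars false

open Polynomial

namespace Pool.Agent.Helper44x.DM

section dt

variable {L V : Type} [Field L] [Group V] [Fintype V] [DecidableEq V] [MulSemiringAction V L]

/-- The determinant of the conjugates. -/
noncomputable def dt (f : V → L) : L := (Matrix.of fun h g : V => g • f h).det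

omit [DecidableEq V] in
lemma dt_update (d i' : DecidableEq V) (m : V → L) (i : V) (z : L) :
    @dt L V _ _ _ d _ (@Function.update V (fun _ => L) i' m i z) =
      (@Matrix.detRowAlternating V d _ L _)
      (@Function.update V (fun _ => V → L) i' (fun h g : V => g • m h) i (fun g => g • z)) := by
  have e : (fun h g : V => g • @Function.update V (fun _ => L) i' m i z h) =
      @Function.update V (fun _ => V → L) i' (fun h g : V => g • m h) i (fun g => g • z) := by
    funext h
    by_cases hh : h = i
    · subst hh
      rw [Function.update_self]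
      funext g
      rw [Function.update_self]
    · rw [Function.update_of_ne hh]
      funext g
      rw [Function.update_of_ne hh]
  rw [← e]
  rfl

omit [DecidableEq V] in
lemma dt_add (d i' : DecidableEq V) (m : V → L) (i : V) (x y : L) :
    @dt L V _ _ _ d _ (@Function.update V (fun _ => L) i' m i (x + y)) =
      @dt L V _ _ _ d _ (@Function.update V (fun _ => L) i' m i x) +
        @dt L V _ _ _ d _ (@Function.update V (fun _ => L) i' m i y) := by
  rw [dt_update d i', dt_update d i', dt_update d i']
  have h2 : ((fun g : V => g • x) + fun g => g • y) = fun g => g • (x + y) := by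
    funext g
    exact (smul_add g x y).symm
  rw [← h2]
  exact (@Matrix.detRowAlternating V d _ L _).map_update_add' _ _ _ _

omit [DecidableEq V] in
lemma dt_smul (d i' : DecidableEq V) (m : V → L) (i : V) (c : L) (hc : ∀ g : V, g • c = c)
    (x : L) : @dt L V _ _ _ d _ (@Function.update V (fun _ => L) i' m i (c * x)) =
      c * @dt L V _ _ _ d _ (@Function.update V (fun _ => L) i' m i x) := by
  rw [dt_update d i', dt_update d i']
  have h2 : (c • fun g : V => g • x) = fun g => g • (c * x) := by
    funext g
    change c * g • x = g • (c * x)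
    rw [smul_mul', hc g]
  rw [← h2]
  exact (@Matrix.detRowAlternating V d _ L _).map_update_smul' _ _ _ _

/-- The determinant as an alternating form over the fixed field. -/
noncomputable def dtForm : L [⋀^V]→ₗ[FixedPoints.subfield V L] L where
  toFun := dt
  map_update_add' := by
    intro inst m i x y
    exact dt_add _ inst m i x y
  map_update_smul' := by
    intro inst m i c x
    exact dt_smul _ inst m i c (fun g => c.2 g) x
  map_eq_zero_of_eq' := by
    intro f i j hij hne
    unfold dt
    exact Matrix.det_zero_of_row_eq hne (by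
      funext g
      change g • f i = g • f j
      rw [hij])

lemma dtForm_apply (f : V → L) : dtForm f = dt f := rfl

end dt

section inv

variable {k L V : Type} [Field k] [Field L] [Algebra k L] [Group V] [Fintype V] [DecidableEq V]
  [MulSemiringAction V L] [SMulCommClass V k L]

/-- The invariants in a subalgebra. -/
def inv (V : Type) [Group V] [MulSemiringAction V L] [SMulCommClass V k L]
    (T : Subalgebra k L) : Subalgebra k L where
  carrier := {x | x ∈ T ∧ ∀ g : V, g • x = x}
  mul_mem' := fun {a b} ha hb => ⟨T.mul_mem ha.1 hb.1, fun g => by rw [smul_mul', ha.2, hb.2]⟩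
  add_mem' := fun {a b} ha hb => ⟨T.add_mem ha.1 hb.1, fun g => by rw [smul_add, ha.2, hb.2]⟩
  algebraMap_mem' := fun c => ⟨T.algebraMap_mem c, fun g => by
    rw [Algebra.algebraMap_eq_smul_one, smul_comm, smul_one]⟩

lemma mem_inv {T : Subalgebra k L} {x : L} : x ∈ inv V T ↔ x ∈ T ∧ ∀ g : V, g • x = x := Iff.rfl

variable [PerfectField k] [FaithfulSMul V L]

/-- The polynomial of the conjugates has coefficients in the invariants. -/
lemma isIntegral_inv {T : Subalgebra k L} (hT : ∀ g : V, ∀ x ∈ T, g • x ∈ T) {x : L}
    (hx : x ∈ T) : IsIntegral (inv V T) x := by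
  let P : L[X] := ∏ g : V, (X - C (g • x))
  have hP : ∀ g : V, ∀ n, g • P.coeff n = P.coeff n := by
    intro g n
    have h1 : P.map (MulSemiringAction.toRingHom V L g) = P := by
      simp only [P, Polynomial.map_prod, Polynomial.map_sub, map_X, map_C]
      refine Fintype.prod_equiv (Equiv.mulLeft g) _ _ fun h => ?_
      rw [Equiv.coe_mulLeft, mul_smul]
      rfl
    conv_rhs => rw [← h1]
    rw [coeff_map]
    rfl
  have hPT : ∀ n, P.coeff n ∈ T := by
    have h2 : P ∈ (Polynomial.mapAlgHom T.val).range := by
      refine Subalgebra.prod_mem _ fun g _ => ?_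
      exact ⟨X - C ⟨g • x, hT g x hx⟩, by simp⟩
    obtain ⟨q, hq⟩ := h2
    intro n
    rw [← hq]
    change (Polynomial.map _ q).coeff n ∈ T
    rw [coeff_map]
    exact (q.coeff n).2
  have hmon : P.Monic := monic_prod_of_monic _ _ fun g _ => monic_X_sub_C _
  have hlift : P ∈ Polynomial.lifts (algebraMap (inv V T) L) := by
    rw [Polynomial.lifts_iff_coeff_lifts]
    intro n
    exact ⟨⟨P.coeff n, hPT n, fun g => hP g n⟩, rfl⟩
  obtain ⟨q, hq, -, hqm⟩ := Polynomial.lifts_and_degree_eq_and_monic hlift hmon
  refine ⟨q, hqm, ?_⟩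
  rw [← eval_map, hq]
  simp only [P, eval_prod, eval_sub, eval_X, eval_C]
  exact Finset.prod_eq_zero (Finset.mem_univ 1) (by rw [one_smul, sub_self])

section smooth

variable (T : Subalgebra k L) (hT : ∀ g : V, ∀ x ∈ T, g • x ∈ T) [Algebra.Smooth k T]
  (hfr : ∀ x : L, ∃ a ∈ T, ∃ b ∈ T, b ≠ 0 ∧ x = a / b) (δ : L) (hδ : δ ≠ 0)
  (h1 : ∀ f : V → L, (∀ h, f h ∈ T) → ∃ b ∈ T, dt f = δ * b)
  (h2 : ∀ Q : Ideal T, Q.IsMaximal → ∃ (r : V → T) (b : T), b ∉ Q ∧
    dt (fun i => (r i : L)) = δ * b)

include hT hfr hδ h1 h2

/-- Smoothness of the invariants. -/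
theorem smooth_inv : Algebra.Smooth k (inv V T) := by
  classical
  let S := inv V T
  let K := FixedPoints.subfield V L
  have hle : inv V T ≤ T := fun x hx => hx.1
  let _ : Algebra S T := (Subalgebra.inclusion hle).toAlgebra
  have t1 : IsScalarTower k S T := IsScalarTower.of_algebraMap_eq fun c => rfl
  have t2 : IsScalarTower S T L := IsScalarTower.of_algebraMap_eq fun c => rfl
  let iK : S →+* K :=
    { toFun := fun x => ⟨x, x.2.2⟩
      map_one' := rfl
      map_mul' := fun _ _ => rfl
      map_zero' := rfl
      map_add' := fun _ _ => rfl }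
  let _ : Algebra S K := iK.toAlgebra
  have t3 : IsScalarTower S K L := IsScalarTower.of_algebraMap_eq fun c => rfl
  have f1 : IsFractionRing T L := by
    have : FaithfulSMul T L := inferInstance
    refine IsFractionRing.of_field _ _ fun x => ?_
    obtain ⟨a, ha, b, hb, -, h⟩ := hfr x
    exact ⟨⟨a, ha⟩, ⟨b, hb⟩, h⟩
  have f2 : IsFractionRing S K := by
    have hf : FaithfulSMul S K := by
      rw [faithfulSMul_iff_algebraMap_injective]
      intro a b hab
      exact Subtype.ext (congrArg (fun z : K => (z : L)) hab)
    refine IsFractionRing.of_field _ _ fun x => ?_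
    obtain ⟨a, ha, b, hb, hb0, h⟩ := hfr x
    let N : L := ∏ g : V, g • b
    have hN0 : N ≠ 0 := Finset.prod_ne_zero_iff.2 fun g _ => by
      rw [Ne, smul_eq_zero_iff_eq]
      exact hb0
    have hNi : ∀ g : V, g • N = N := by
      intro g
      simp only [N]
      rw [Finset.smul_prod']
      exact Fintype.prod_equiv (Equiv.mulLeft g) _ _ fun h => by
        rw [Equiv.coe_mulLeft, mul_smul]
    have hNT : N ∈ T := Subalgebra.prod_mem _ fun g _ => hT g b hb
    have hxN : (x : L) * N ∈ T := by
      have h3 : N = b * ∏ g ∈ Finset.univ.erase (1 : V), g • b := by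
        have := Finset.mul_prod_erase Finset.univ (fun g : V => g • b) (Finset.mem_univ 1)
        rw [one_smul] at this
        exact this.symm
      rw [h, h3, ← mul_assoc, div_mul_cancel₀ _ hb0]
      exact T.mul_mem ha (Subalgebra.prod_mem _ fun g _ => hT g b hb)
    refine ⟨⟨(x : L) * N, hxN, fun g => ?_⟩, ⟨N, hNT, hNi⟩, ?_⟩
    · rw [smul_mul', hNi, x.2 g]
    · apply Subtype.ext
      change (x : L) = (x : L) * N / N
      rw [mul_div_cancel_right₀ _ hN0]
  have i1 : Algebra.IsIntegral S T := ⟨fun x => by
    have h3 := isIntegral_inv (V := V) hT x.2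
    exact (isIntegral_algebraMap_iff (A := T) (B := L) Subtype.val_injective).1 h3⟩
  have hN : Module.finrank K L = Fintype.card V := FixedPoints.finrank_eq_card V L
  refine smooth_of_form (T := T) (K := K) (L := L) ?_ (dtForm (L := L) (V := V)) hN δ hδ ?_ ?_
  · intro x b h
    exact ⟨⟨x, by
      change (x : L) = (b : L) at h
      rw [h]
      exact b.2, x.2⟩, rfl⟩
  · intro f
    obtain ⟨b, hb, h⟩ := h1 (fun h => f h) fun h => (f h).2
    exact ⟨⟨b, hb⟩, h⟩
  · intro Q hQ
    obtain ⟨r, b, hb, h⟩ := h2 Q hQ
    exact ⟨r, b, hb, h⟩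

end smooth

end inv

end Pool.Agent.Helper44x.DM
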