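import Pool.Agent.Helper44x.DM.Faith
import Pool.Agent.H920R2.Trans

/-!
Fibrewise actions of finite groups on products `X × Y` over `X`: resolution of the quotient.
-/

set_option autoImplicit false
set_option linter.unusedVariables false
set_option linter.unusedSectionVars false

open TensorProduct AlgebraicGeometry CategoryTheory Pool.Agent.W558 Pool.Agent.H920R2

namespace Pool.Agent.Helper44x.DM

/-- There is a smooth projective modification of `Spec A`, given by an atlas, on which the ideal
`I` becomes principal. -/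
def HasPR (k A : Type) [Field k] [CommRing A] [IsDomain A] [Algebra k A] (I : Ideal A) : Prop :=
  ∃ (T : Type) (_ : Finite T) (U : T → Subalgebra k (FractionRing A)) (H : T → FractionRing A),
    Atl (IsScalarTower.toAlgHom k A (FractionRing A)) U H ∧
    ∀ t, ∃ d ∈ I, d ≠ 0 ∧ ∀ a ∈ I,
      algebraMap A (FractionRing A) a / algebraMap A (FractionRing A) d ∈ U t

section main

variable {k A C V : Type} [Field k] [IsAlgClosed k] [CommRing A] [IsDomain A] [Algebra k A]
  [Algebra.FiniteType k A] [CommRing C] [IsDomain C] [Algebra k C] [Algebra.Smooth k C]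
  [Group V] [Fintype V] [DecidableEq V]

/-- The ring of invariants is finitely generated. -/
theorem finiteType_ivB [IsDomain (A ⊗[k] C)] (θ : V →* ((A ⊗[k] C) ≃ₐ[A] (A ⊗[k] C)))
    (hint : ∀ z : A ⊗[k] C, IsIntegral (ivB (fun g => θ g)) z) :
    Algebra.FiniteType k (ivB (fun g => θ g)) := by
  have h1 : Algebra.IsIntegral (ivB (fun g => θ g)) (A ⊗[k] C) := ⟨hint⟩
  have h2 : Algebra.FiniteType k (A ⊗[k] C) := by
    have : Algebra.FiniteType A (A ⊗[k] C) := inferInstance
    exact Algebra.FiniteType.trans (S := A) inferInstance this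
  have h3 : Algebra.FiniteType (ivB (fun g => θ g)) (A ⊗[k] C) :=
    Algebra.FiniteType.of_restrictScalars_finiteType k _ _
  have h4 : Module.Finite (ivB (fun g => θ g)) (A ⊗[k] C) := Algebra.IsIntegral.finite
  exact ⟨fg_of_fg_of_fg k _ (A ⊗[k] C) h2.1 h4.1 Subtype.val_injective⟩

/-- Resolution of quotients by uniformly degenerating actions. -/
theorem main_ft (θ : V →* ((A ⊗[k] C) ≃ₐ[A] (A ⊗[k] C))) (hinj : Function.Injective θ)
    (I : Ideal A) (hI : ∀ y : C →ₐ[k] k, degIdeal (fun g z => θ g z) y = I)
    (hX : I ≠ ⊥ → HasPR k A I) :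
    Algebra.FiniteType k (ivB (fun g => θ g)) ∧
    HasResolution (X := Spec (CommRingCat.of (ivB (fun g => θ g))))
      (Spec.map (CommRingCat.ofHom (algebraMap k (ivB (fun g => θ g))))) := by
  classical
  have hdom : IsDomain (A ⊗[k] C) := isDomain_tensor
  let E := FractionRing A
  let L := FractionRing (A ⊗[k] C)
  have hfAB : Function.Injective (algebraMap A (A ⊗[k] C)) :=
    FaithfulSMul.algebraMap_injective A (A ⊗[k] C)
  have hfAL : FaithfulSMul A L := by
    rw [faithfulSMul_iff_algebraMap_injective, IsScalarTower.algebraMap_eq A (A ⊗[k] C) L]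
    exact (IsFractionRing.injective (A ⊗[k] C) L).comp hfAB
  let _ : Algebra E L := FractionRing.liftAlgebra A L
  have t1 : IsScalarTower A E L := FractionRing.isScalarTower_liftAlgebra A L
  have t2 : IsScalarTower k E L := by
    refine IsScalarTower.of_algebraMap_eq fun c => ?_
    rw [IsScalarTower.algebraMap_apply k A E, ← IsScalarTower.algebraMap_apply A E L,
      ← IsScalarTower.algebraMap_apply k A L]
  let j : C →ₐ[k] L := (IsScalarTower.toAlgHom k (A ⊗[k] C) L).comp
    Algebra.TensorProduct.includeRight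
  have hbeta : ∀ z, beta A E j z = algebraMap (A ⊗[k] C) L z := by
    intro z
    induction z using TensorProduct.induction_on with
    | zero => rw [map_zero, map_zero]
    | tmul a c =>
      rw [beta_tmul, ← IsScalarTower.algebraMap_apply A E L,
        IsScalarTower.algebraMap_apply A (A ⊗[k] C) L]
      change _ * algebraMap (A ⊗[k] C) L (1 ⊗ₜ c) = _
      rw [← map_mul, Algebra.TensorProduct.algebraMap_apply, Algebra.algebraMap_self,
        RingHom.id_apply, Algebra.TensorProduct.tmul_mul_tmul, mul_one, one_mul]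
    | add x y hx hy => rw [map_add, map_add, hx, hy]
  have hβ : Function.Injective (beta A E j) := by
    intro x y hxy
    rw [hbeta, hbeta] at hxy
    exact IsFractionRing.injective (A ⊗[k] C) L hxy
  have hfr : ∀ x : L, ∃ a b : A ⊗[k] C, b ≠ 0 ∧ x = beta A E j a / beta A E j b := by
    intro x
    obtain ⟨a, b, hb, rfl⟩ := IsFractionRing.div_surjective (A ⊗[k] C) x
    exact ⟨a, b, nonZeroDivisors.ne_zero hb, by rw [hbeta, hbeta]⟩
  let σ : V →* (L ≃ₐ[E] L) := (IsFractionRing.fieldEquivOfAlgEquivHom E L).comp θ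
  have hσinj : Function.Injective σ :=
    (IsFractionRing.fieldEquivOfAlgEquivHom_injective A (A ⊗[k] C) E L).comp hinj
  let _ : MulSemiringAction V L := MulSemiringAction.compHom L σ
  have hsm : ∀ (g : V) (x : L), g • x = σ g x := fun _ _ => rfl
  have hE : ∀ (g : V) (e : E), g • algebraMap E L e = algebraMap E L e := fun g e =>
    (σ g).commutes e
  have hθ : ∀ (g : V) (z : A ⊗[k] C), g • beta A E j z = beta A E j (θ g z) := by
    intro g z
    rw [hsm, hbeta, hbeta]
    exact IsFractionRing.fieldEquivOfAlgEquiv_algebraMap E L L (θ g) z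
  have i1 : SMulCommClass V k L := ⟨fun g c x => by
    rw [Algebra.smul_def, Algebra.smul_def, smul_mul', IsScalarTower.algebraMap_apply k E L, hE]⟩
  have i2 : FaithfulSMul V L := ⟨fun {g h} hgh => hσinj (AlgEquiv.ext fun x => hgh x)⟩
  obtain ⟨T, hT, U, H, hA, hd⟩ := hX (I_ne_bot j hβ hfr (fun g z => θ g z) hE hθ I hI)
  have hatl := atl_quot j hβ hfr (fun g => θ g) hE hθ I hI U H hA hd
  have hft := finiteType_ivB θ (integral_gq j hβ (fun g => θ g) hE hθ)
  exact ⟨hft, hasResolution_of_atl _ (gq_injective j hβ (fun g => θ g)) hatl⟩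

/-- Resolution of quotients by uniformly degenerating actions. -/
theorem main_thm (θ : V →* ((A ⊗[k] C) ≃ₐ[A] (A ⊗[k] C))) (hinj : Function.Injective θ)
    (I : Ideal A) (hI : ∀ y : C →ₐ[k] k, degIdeal (fun g z => θ g z) y = I)
    (hX : I ≠ ⊥ → HasPR k A I) :
    IsVariety (X := Spec (CommRingCat.of (ivB (fun g => θ g))))
      (Spec.map (CommRingCat.ofHom (algebraMap k (ivB (fun g => θ g))))) ∧
    HasResolution (X := Spec (CommRingCat.of (ivB (fun g => θ g))))
      (Spec.map (CommRingCat.ofHom (algebraMap k (ivB (fun g => θ g))))) := by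
  have hdom : IsDomain (A ⊗[k] C) := isDomain_tensor
  obtain ⟨hft, h⟩ := main_ft θ hinj I hI hX
  exact ⟨isVariety_spec, h⟩

end main

end Pool.Agent.Helper44x.DM
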