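import Pool.Agent.Helper44x.DM.Main

/-!
Fibrewise actions on products given by pushouts of algebras.
-/

set_option autoImplicit false
set_option linter.unusedVariables false
set_option linter.unusedSectionVars false

open TensorProduct AlgebraicGeometry CategoryTheory Pool.Agent.W558 Pool.Agent.H920R2

namespace Pool.Agent.Helper44x.DM

section push

variable {k A C B V : Type} [Field k] [CommRing A] [Algebra k A] [CommRing C] [Algebra k C]
  [CommRing B] [Algebra k B] [Algebra A B] [Algebra C B] [IsScalarTower k A B]
  [IsScalarTower k C B] [Algebra.IsPushout k A C B] [Group V] [MulSemiringAction V B]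
  [SMulCommClass V A B]

/-- The action on the tensor product. -/
noncomputable def thP (k A C B V : Type) [Field k] [CommRing A] [Algebra k A] [CommRing C]
    [Algebra k C] [CommRing B] [Algebra k B] [Algebra A B] [Algebra C B] [IsScalarTower k A B]
    [IsScalarTower k C B] [Algebra.IsPushout k A C B] [Group V] [MulSemiringAction V B]
    [SMulCommClass V A B] : V →* ((A ⊗[k] C) ≃ₐ[A] (A ⊗[k] C)) :=
  (AlgEquiv.autCongr (Algebra.IsPushout.equiv k A C B).symm).toMonoidHom.comp
    (MulSemiringAction.toAlgAut V A B)

lemma thP_apply (g : V) (z : A ⊗[k] C) : thP k A C B V g z =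
    (Algebra.IsPushout.equiv k A C B).symm (g • (Algebra.IsPushout.equiv k A C B z)) := rfl

lemma thP_injective [FaithfulSMul V B] : Function.Injective (thP k A C B V) := by
  intro g h hgh
  apply FaithfulSMul.eq_of_smul_eq_smul (α := B)
  intro b
  have h1 := DFunLike.congr_fun hgh ((Algebra.IsPushout.equiv k A C B).symm b)
  rw [thP_apply, thP_apply, AlgEquiv.apply_symm_apply] at h1
  exact (Algebra.IsPushout.equiv k A C B).symm.injective h1

/-- The two descriptions of the invariants. -/
noncomputable def ivPEquiv [SMulCommClass V k B] :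
    ivB (fun g => thP k A C B V g) ≃ₐ[k] FixedPoints.subalgebra k B V := by
  refine AlgEquiv.ofBijective (((((Algebra.IsPushout.equiv k A C B).toAlgHom.restrictScalars k).comp
    (ivB (fun g => thP k A C B V g)).val)).codRestrict (FixedPoints.subalgebra k B V) ?_) ⟨?_, ?_⟩
  · intro z g
    have h1 := z.2 g
    rw [thP_apply] at h1
    have h2 := congrArg (Algebra.IsPushout.equiv k A C B) h1
    rw [AlgEquiv.apply_symm_apply] at h2
    exact h2
  · intro z w h
    have h1 : Algebra.IsPushout.equiv k A C B z = Algebra.IsPushout.equiv k A C B w :=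
      congrArg (fun x : FixedPoints.subalgebra k B V => (x : B)) h
    exact Subtype.ext ((Algebra.IsPushout.equiv k A C B).injective h1)
  · rintro ⟨f, hf⟩
    refine ⟨⟨(Algebra.IsPushout.equiv k A C B).symm f, fun g => ?_⟩, ?_⟩
    · rw [thP_apply, AlgEquiv.apply_symm_apply]
      congr 1
      exact hf g
    · exact Subtype.ext ((Algebra.IsPushout.equiv k A C B).apply_symm_apply f)

variable [IsAlgClosed k] [IsDomain A] [Algebra.FiniteType k A] [IsDomain C] [Algebra.Smooth k C]
  [Fintype V] [DecidableEq V] [FaithfulSMul V B]

/-- Resolution of quotients by uniformly degenerating actions. -/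
theorem main_push [SMulCommClass V k B] (I : Ideal A)
    (hI : ∀ (y : C →ₐ[k] k) (r : B →ₐ[A] A), (∀ c, r (algebraMap C B c) = algebraMap k A (y c)) →
      Ideal.span {d | ∃ c : V → C, d = (Matrix.of fun h g : V => r (g • algebraMap C B (c h))).det}
        = I)
    (hX : I ≠ ⊥ → HasPR k A I) :
    IsVariety (X := Spec (CommRingCat.of (FixedPoints.subalgebra k B V)))
      (Spec.map (CommRingCat.ofHom (algebraMap k (FixedPoints.subalgebra k B V)))) ∧
    HasResolution (X := Spec (CommRingCat.of (FixedPoints.subalgebra k B V)))
      (Spec.map (CommRingCat.ofHom (algebraMap k (FixedPoints.subalgebra k B V)))) := by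
  have hdom : IsDomain (A ⊗[k] C) := isDomain_tensor
  have hdomB : IsDomain B := (Algebra.IsPushout.equiv k A C B).symm.toMulEquiv.isDomain _
  have hdeg : ∀ y : C →ₐ[k] k, degIdeal (fun g z => thP k A C B V g z) y = I := by
    intro y
    have h1 := hI y ((ev A y).comp (Algebra.IsPushout.equiv k A C B).symm.toAlgHom) ?_
    · rw [← h1]
      unfold degIdeal
      congr 1
      ext d
      constructor
      · rintro ⟨c, rfl⟩
        refine ⟨c, ?_⟩
        congr 1
        ext h g
        change ev A y (thP k A C B V g (1 ⊗ₜ c h)) =
          ev A y ((Algebra.IsPushout.equiv k A C B).symm (g • algebraMap C B (c h)))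
        rw [thP_apply, Algebra.IsPushout.equiv_tmul, map_one, one_mul]
      · rintro ⟨c, rfl⟩
        refine ⟨c, ?_⟩
        congr 1
        ext h g
        change ev A y ((Algebra.IsPushout.equiv k A C B).symm (g • algebraMap C B (c h))) =
          ev A y (thP k A C B V g (1 ⊗ₜ c h))
        rw [thP_apply, Algebra.IsPushout.equiv_tmul, map_one, one_mul]
    · intro c
      change ev A y ((Algebra.IsPushout.equiv k A C B).symm (algebraMap C B c)) = _
      rw [Algebra.IsPushout.equiv_symm_algebraMap_right, ev_tmul, one_mul]
  have h1 := main_ft (thP k A C B V) thP_injective I hdeg hX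
  have hft : Algebra.FiniteType k (FixedPoints.subalgebra k B V) := h1.1.equiv ivPEquiv
  exact ⟨isVariety_spec, hasResolution_congr ivPEquiv h1.2⟩

end push

end Pool.Agent.Helper44x.DM
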