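import Pool.Agent.Helper44x.DM.Fib

/-!
Fibrewise actions of finite groups on products `X × Y` over `X`: the atlas of the resolution of the
quotient.
-/

set_option autoImplicit false
set_option linter.unusedVariables false
set_option linter.unusedSectionVars false

open TensorProduct AlgebraicGeometry CategoryTheory Pool.Agent.W558 Pool.Agent.H920R2

namespace Pool.Agent.Helper44x.DM

section atl

variable {k A C E L V : Type} [Field k] [IsAlgClosed k] [CommRing A] [IsDomain A] [Algebra k A]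
  [CommRing C] [IsDomain C] [Algebra k C] [Algebra.Smooth k C]
  [Field E] [Algebra k E] [Algebra A E] [IsScalarTower k A E] [IsFractionRing A E] [Field L]
  [Algebra k L] [Algebra E L] [IsScalarTower k E L] (j : C →ₐ[k] L)
  (hβ : Function.Injective (beta A E j)) (hfr : ∀ x : L, ∃ a b : A ⊗[k] C, b ≠ 0 ∧
    x = beta A E j a / beta A E j b) [Group V] [Fintype V] [DecidableEq V]
  [MulSemiringAction V L] [SMulCommClass V k L] [FaithfulSMul V L]
  (θ : V → ((A ⊗[k] C) ≃ₐ[A] (A ⊗[k] C)))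
  (hE : ∀ (g : V) (e : E), g • algebraMap E L e = algebraMap E L e)
  (hθ : ∀ (g : V) (z : A ⊗[k] C), g • beta A E j z = beta A E j (θ g z))

/-- The invariants. -/
def ivB (θ : V → ((A ⊗[k] C) ≃ₐ[A] (A ⊗[k] C))) : Subalgebra k (A ⊗[k] C) where
  carrier := {z | ∀ g, θ g z = z}
  mul_mem' := fun {a b} ha hb g => by rw [map_mul, ha g, hb g]
  add_mem' := fun {a b} ha hb g => by rw [map_add, ha g, hb g]
  algebraMap_mem' := fun c g => by
    rw [IsScalarTower.algebraMap_apply k A (A ⊗[k] C)]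
    exact (θ g).commutes _

lemma mem_ivB {z : A ⊗[k] C} : z ∈ ivB θ ↔ ∀ g, θ g z = z := Iff.rfl

/-- The map to the field. -/
noncomputable def gq : ivB θ →ₐ[k] L := (beta A E j).comp (ivB θ).val

include hβ in
lemma gq_injective : Function.Injective (gq (E := E) j θ) :=
  hβ.comp Subtype.val_injective

include hβ hθ in
lemma mem_range_gq {x : L} (hx : ∃ z, x = beta A E j z) (hi : ∀ g : V, g • x = x) :
    ∃ a : ivB θ, x = gq (E := E) j θ a := by
  obtain ⟨z, rfl⟩ := hx
  refine ⟨⟨z, fun g => hβ ?_⟩, rfl⟩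
  rw [← hθ]
  exact hi g

include hE in
lemma glue {U U' : Subalgebra k E} {ρ : E} (hρ : ρ ∈ U)
    (h : ∀ x ∈ U', ∃ n : ℕ, ρ ^ n * x ∈ U) {x : L} (hx : x ∈ TU U' j) :
    ∃ n : ℕ, algebraMap E L ρ ^ n * x ∈ TU U j := by
  obtain ⟨z, rfl⟩ := hx
  change ∃ n : ℕ, algebraMap E L ρ ^ n * psi U' j z ∈ TU U j
  have hup : ∀ (x : L) (n m : ℕ), algebraMap E L ρ ^ n * x ∈ TU U j →
      algebraMap E L ρ ^ (n + m) * x ∈ TU U j := by
    intro x n m hx
    rw [pow_add, mul_comm (_ ^ n), mul_assoc]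
    exact (TU U j).mul_mem ((TU U j).pow_mem (e_mem j hρ) m) hx
  induction z using TensorProduct.induction_on with
  | zero => exact ⟨0, by rw [map_zero, mul_zero]; exact (TU U j).zero_mem⟩
  | tmul u c =>
    obtain ⟨n, hn⟩ := h u u.2
    refine ⟨n, ?_⟩
    rw [psi_tmul, ← mul_assoc, ← map_pow, ← map_mul]
    exact (TU U j).mul_mem (e_mem j hn) (j_mem j U c)
  | add x y hx hy =>
    obtain ⟨n, hn⟩ := hx
    obtain ⟨m, hm⟩ := hy
    refine ⟨n + m, ?_⟩
    rw [map_add, mul_add]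
    refine (TU U j).add_mem (hup _ n m hn) ?_
    rw [add_comm n m]
    exact hup _ m n hm

lemma denom {U : Subalgebra k E} {ρ : E} (hρ : ∃ a : A, ρ = algebraMap A E a)
    (h : ∀ x ∈ U, ∃ (n : ℕ) (a : A), ρ ^ n * x = algebraMap A E a) {x : L} (hx : x ∈ TU U j) :
    ∃ (n : ℕ) (z : A ⊗[k] C), algebraMap E L ρ ^ n * x = beta A E j z := by
  obtain ⟨a0, ha0⟩ := hρ
  obtain ⟨z, rfl⟩ := hx
  change ∃ (n : ℕ) (w : A ⊗[k] C), algebraMap E L ρ ^ n * psi U j z = beta A E j w
  have hup : ∀ (x : L) (n m : ℕ) (w : A ⊗[k] C), algebraMap E L ρ ^ n * x = beta A E j w →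
      ∃ w' : A ⊗[k] C, algebraMap E L ρ ^ (n + m) * x = beta A E j w' := by
    intro x n m w hw
    refine ⟨((a0 ^ m) ⊗ₜ[k] (1 : C)) * w, ?_⟩
    rw [map_mul, ← hw, beta_tmul, map_one, mul_one, map_pow, map_pow, ← ha0, pow_add]
    ring
  induction z using TensorProduct.induction_on with
  | zero => exact ⟨0, 0, by rw [map_zero, mul_zero, map_zero]⟩
  | tmul u c =>
    obtain ⟨n, a, hn⟩ := h u u.2
    refine ⟨n, a ⊗ₜ c, ?_⟩
    rw [psi_tmul, ← mul_assoc, ← map_pow, ← map_mul, hn, beta_tmul]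
  | add x y hx hy =>
    obtain ⟨n, w, hn⟩ := hx
    obtain ⟨m, w', hm⟩ := hy
    obtain ⟨v, hv⟩ := hup _ n m w hn
    obtain ⟨v', hv'⟩ := hup _ m n w' hm
    refine ⟨n + m, v + v', ?_⟩
    rw [map_add, mul_add, hv, map_add]
    rw [add_comm n m, hv']

variable (I : Ideal A) (hI : ∀ y : C →ₐ[k] k, degIdeal (fun g z => θ g z) y = I)
  {T : Type} (U : T → Subalgebra k E) (H : T → E)
  (hA : Atl (IsScalarTower.toAlgHom k A E) U H)
  (hd : ∀ t, ∃ d ∈ I, d ≠ 0 ∧ ∀ a ∈ I, algebraMap A E a / algebraMap A E d ∈ U t)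

include hβ hθ hE in
/-- Elements of `A ⊗ C` are integral over the invariants. -/
lemma integral_gq (z : A ⊗[k] C) : IsIntegral (ivB θ) z := by
  let T : Subalgebra k L := (beta A E j).range
  have hT : ∀ g : V, ∀ x ∈ T, g • x ∈ T := by
    rintro g _ ⟨w, rfl⟩
    exact ⟨θ g w, (hθ g w).symm⟩
  have h1 := isIntegral_inv (V := V) (T := T) hT (x := beta A E j z) ⟨z, rfl⟩
  let φ : ivB θ →+* inv V T :=
    { toFun := fun x => ⟨beta A E j x, ⟨x, rfl⟩, fun g => by rw [hθ, x.2 g]⟩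
      map_one' := Subtype.ext (map_one _)
      map_mul' := fun _ _ => Subtype.ext (map_mul _ _ _)
      map_zero' := Subtype.ext (map_zero _)
      map_add' := fun _ _ => Subtype.ext (map_add _ _ _) }
  have hφ : Function.Bijective φ := by
    constructor
    · intro x y hxy
      exact Subtype.ext (hβ (congrArg Subtype.val hxy))
    · rintro ⟨x, ⟨w, hw⟩, hi⟩
      obtain ⟨a, ha⟩ := mem_range_gq j hβ θ hθ (x := x) ⟨w, hw.symm⟩ hi
      exact ⟨a, Subtype.ext ha.symm⟩
  let e := RingEquiv.ofBijective φ hφ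
  obtain ⟨P, hP, hPz⟩ := h1
  refine ⟨P.map (e.symm : inv V T →+* ivB θ), hP.map _, hβ ?_⟩
  rw [map_zero, Polynomial.eval₂_map]
  change (beta A E j : A ⊗[k] C →+* L) _ = 0
  rw [Polynomial.hom_eval₂]
  have h2 : ((beta A E j : A ⊗[k] C →+* L).comp ((algebraMap (ivB θ) (A ⊗[k] C)).comp
      (e.symm : inv V T →+* ivB θ))) = algebraMap (inv V T) L := by
    ext x
    change ((e (e.symm x) : inv V T) : L) = x
    rw [e.apply_symm_apply]
  rw [h2]
  exact hPz

include hβ hfr hE hθ hI hA hd in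
theorem atl_quot : Atl (gq (E := E) j θ) (fun t => inv V (TU (U t) j))
    (fun t => algebraMap E L (H t)) where
  sm := by
    intro t
    have := hA.sm t
    obtain ⟨d, hdI, hd0, hd⟩ := hd t
    exact smooth_chart j hβ hfr (fun g z => θ g z) hE hθ I hI (U t) (hA.aa t) d hdI hd0 hd
  aa := fun t a => ⟨beta_mem j (hA.aa t) a, fun g => by
    change g • beta A E j a = beta A E j a
    rw [hθ, a.2 g]⟩
  H0 := fun t h => hA.H0 t ((algebraMap E L).injective (h.trans (map_zero _).symm))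
  hA := by
    intro t
    obtain ⟨b, hb⟩ := hA.hA t
    obtain ⟨a, ha⟩ := mem_range_gq j hβ θ hθ (x := algebraMap E L (H t)) ⟨b ⊗ₜ 1, by
      rw [beta_tmul, map_one, mul_one, hb]
      rfl⟩ (fun g => hE g _)
    exact ⟨a, ha⟩
  rt := fun t t' => by
    rw [← map_div₀]
    exact ⟨e_mem j (hA.rt t t'), fun g => hE g _⟩
  gl := by
    intro t t' x hx
    obtain ⟨n, hn⟩ := glue j hE (hA.rt t t') (hA.gl t t') hx.1
    rw [map_div₀] at hn
    refine ⟨n, hn, fun g => ?_⟩
    rw [smul_mul', hx.2 g, smul_pow', smul_div₀', hE, hE]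
  dn := by
    intro t x hx
    obtain ⟨n, z, hz⟩ := denom (A := A) j (hA.hA t) (hA.dn t) hx.1
    obtain ⟨a, ha⟩ := mem_range_gq j hβ θ hθ ⟨z, hz⟩ (fun g => by
      rw [smul_mul', hx.2 g, smul_pow', hE])
    exact ⟨n, a, ha⟩
  cv := by
    intro W hW
    have hB : ∀ z : A ⊗[k] C, beta A E j z ∈ W := by
      intro z
      let φ : ivB θ →+* W :=
        { toFun := fun x => ⟨gq (E := E) j θ x, hW x⟩
          map_one' := Subtype.ext (map_one _)
          map_mul' := fun _ _ => Subtype.ext (map_mul _ _ _)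
          map_zero' := Subtype.ext (map_zero _)
          map_add' := fun _ _ => Subtype.ext (map_add _ _ _) }
      have h1 : IsIntegral W (beta A E j z) :=
        (integral_gq j hβ θ hE hθ z).map_of_comp_eq φ (beta A E j : A ⊗[k] C →+* L) rfl
      obtain ⟨y, hy⟩ := IsIntegrallyClosed.isIntegral_iff.1 h1
      rw [← hy]
      exact y.2
    obtain ⟨t, ht⟩ := hA.cv (W.comap (algebraMap E L)) (fun a => by
      rw [ValuationSubring.mem_comap]
      have h1 := hB (a ⊗ₜ 1)
      rw [beta_tmul, map_one, mul_one] at h1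
      exact h1)
    refine ⟨t, ?_⟩
    rintro x ⟨⟨z, rfl⟩, -⟩
    change psi (U t) j z ∈ W
    induction z using TensorProduct.induction_on with
    | zero => rw [map_zero]; exact W.zero_mem
    | tmul u c =>
      rw [psi_tmul]
      refine W.mul_mem _ _ (ValuationSubring.mem_comap.1 (ht u u.2)) ?_
      have h1 := hB (1 ⊗ₜ c)
      rw [beta_tmul, map_one, map_one, one_mul] at h1
      exact h1
    | add x y hx hy => rw [map_add]; exact W.add_mem _ _ hx hy

end atl

end Pool.Agent.Helper44x.DM
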