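import Pool.Agent.Helper44x.DM.Main
import Pool.Agent.W558.S.All
import Pool.Agent.W558.Add

/-!
Smooth projective modifications on which a given ideal becomes principal: log smooth models and
surfaces.
-/

set_option autoImplicit false
set_option linter.unusedVariables false
set_option linter.unusedSectionVars false

open TensorProduct AlgebraicGeometry CategoryTheory Pool.Agent.W558 Pool.Agent.H920R2

namespace Pool.Agent.Helper44x.DM

section lm

variable {k A : Type} [Field k] [CommRing A] [IsDomain A] [Algebra k A]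

/-- The embedding in the fraction field. -/
noncomputable abbrev gA (k A : Type) [Field k] [CommRing A] [IsDomain A] [Algebra k A] :
    A →ₐ[k] FractionRing A := IsScalarTower.toAlgHom k A (FractionRing A)

/-- Models on which the generators of an ideal are monomials. -/
theorem hasPR_of_LM {T I : Type} [Finite T] [Fintype I] [DecidableEq I]
    (M : LM (gA k A).range (gA k A).range T I) {G : Type} [Finite G] (f : G → A)
    (Γ : G → I → ℤ) (hF : Fn M (fun b => gA k A (f b)) Γ) {ι : Type} [Finite ι] [Nonempty ι]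
    (u : ι → G) (J : Ideal A) (hJ : J = Ideal.span (Set.range fun i => f (u i))) :
    HasPR k A J := by
  classical
  obtain ⟨T', I', iT, iI, iD, M', Γ', hE, hC⟩ := princ_all (fun b => gA k A (f b)) M Γ
  have hF' := hE.fn hF
  refine ⟨T', iT, M'.A, M'.H,
    { sm := M'.sm
      aa := fun t a => M'.base t ⟨a, rfl⟩
      H0 := M'.H0
      hA := fun t => ?_
      rt := M'.rt
      gl := M'.gl
      dn := fun t x hx => ?_
      cv := fun V hV => M'.cv V ?_ }, fun t => ?_⟩
  · obtain ⟨b, hb⟩ := M'.HR t
    exact ⟨b, hb.symm⟩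
  · obtain ⟨n, b, hb⟩ := M'.dn t x hx
    exact ⟨n, b, hb.symm⟩
  · rintro _ ⟨b, rfl⟩
    exact hV b
  · obtain ⟨a, ha⟩ := exists_min M' t (fun i : ι => Γ' (u i)) (fun a b => hC (u a) (u b))
    have hne : Nonempty T' := nonempty_T M'
    refine ⟨f (u a), hJ ▸ Ideal.subset_span ⟨a, rfl⟩, ?_, ?_⟩
    · intro h0
      have h1 := Fn.ne hF' (u a)
      exact h1 (by rw [h0, map_zero])
    · intro x hx
      rw [hJ] at hx
      induction hx using Submodule.span_induction with
      | mem x h =>
        obtain ⟨b, rfl⟩ := h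
        exact div_mem_of_le M' t _ _ hF' (ha b)
      | zero => rw [map_zero, zero_div]; exact (M'.A t).zero_mem
      | add x y _ _ hx hy => rw [map_add, add_div]; exact (M'.A t).add_mem hx hy
      | smul s x _ hx =>
        rw [smul_eq_mul, map_mul, mul_div_assoc]
        exact (M'.A t).mul_mem (M'.base t ⟨s, rfl⟩) hx

end lm

section surf

variable {k A : Type} [Field k] [PerfectField k] [CommRing A] [IsDomain A] [Algebra k A]
  [Algebra.FiniteType k A]

/-- Surfaces. -/
theorem hasPR_surface (h2 : Algebra.trdeg k (FractionRing A) = 2)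
    (hM : HasModel k (FractionRing A)) (J : Ideal A) (hJ : J ≠ ⊥) : HasPR k A J := by
  classical
  have hnoe : IsNoetherianRing A := Algebra.FiniteType.isNoetherianRing k A
  obtain ⟨F0, hF0⟩ : J.FG := IsNoetherian.noetherian J
  obtain ⟨G0, hG0⟩ := (inferInstance : Algebra.FiniteType k A).1
  have hinj : Function.Injective (gA k A) := IsFractionRing.injective A (FractionRing A)
  let G : Type := {x : A // x ∈ (G0 ∪ F0).erase 0}
  let f : G → A := fun x => x.1
  let g : G → FractionRing A := fun x => gA k A x.1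
  have hg : ∀ b, g b ≠ 0 := fun b h =>
    (Finset.mem_erase.1 b.2).1 (hinj (h.trans (map_zero _).symm))
  obtain ⟨s⟩ := all_init k (FractionRing A) hM
  obtain ⟨s', Γ, hΓ⟩ := all_log k (FractionRing A) h2 s G g hg
  let S : Set G := {x | x.1 ∈ G0}
  have hR : (gA k A).range = Algebra.adjoin k (g '' S) := by
    apply le_antisymm
    · rintro _ ⟨a, rfl⟩
      have ha : a ∈ Algebra.adjoin k (G0 : Set A) := by rw [hG0]; trivial
      change gA k A a ∈ _
      induction ha using Algebra.adjoin_induction with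
      | mem x hx =>
        by_cases h0 : x = 0
        · rw [h0, map_zero]
          exact Subalgebra.zero_mem _
        · exact Algebra.subset_adjoin ⟨⟨x, Finset.mem_erase.2 ⟨h0,
            Finset.mem_union_left _ hx⟩⟩, hx, rfl⟩
      | algebraMap r => rw [AlgHom.commutes]; exact Subalgebra.algebraMap_mem _ _
      | add x y _ _ hx hy => rw [map_add]; exact Subalgebra.add_mem _ hx hy
      | mul x y _ _ hx hy => rw [map_mul]; exact Subalgebra.mul_mem _ hx hy
    · rw [Algebra.adjoin_le_iff]
      rintro _ ⟨x, -, rfl⟩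
      exact ⟨x.1, rfl⟩
  have hfrac : ∀ x : FractionRing A, ∃ a ∈ (gA k A).range, ∃ b ∈ (gA k A).range,
      b ≠ 0 ∧ x = a * b⁻¹ := by
    intro x
    obtain ⟨a, b, hb, rfl⟩ := IsFractionRing.div_surjective A x
    refine ⟨_, ⟨a, rfl⟩, _, ⟨b, rfl⟩, ?_, div_eq_mul_inv _ _⟩
    intro h
    exact nonZeroDivisors.ne_zero hb (hinj (h.trans (map_zero _).symm))
  obtain ⟨T', I', iT, iI, M', Γ', hF', -⟩ := all_restr k (FractionRing A) s'.T s'.I G s'.M g Γ hΓ S
    (gA k A).range hR hfrac
  let ι : Type := {x : A // x ∈ F0.erase 0}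
  have hι : Nonempty ι := by
    by_contra hcon
    rw [not_nonempty_iff] at hcon
    apply hJ
    rw [← hF0, Ideal.span_eq_bot]
    intro x hx
    by_contra h0
    exact hcon.elim ⟨x, Finset.mem_erase.2 ⟨h0, hx⟩⟩
  let u : ι → G := fun x => ⟨x.1, Finset.mem_erase.2 ⟨(Finset.mem_erase.1 x.2).1,
    Finset.mem_union_right _ (Finset.mem_of_mem_erase x.2)⟩⟩
  refine hasPR_of_LM M' f Γ' hF' u J ?_
  rw [← hF0]
  apply le_antisymm
  · rw [Ideal.span_le]
    intro x hx
    by_cases h0 : x = 0
    · rw [h0]; exact Ideal.zero_mem _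
    · exact Ideal.subset_span ⟨⟨x, Finset.mem_erase.2 ⟨h0, hx⟩⟩, rfl⟩
  · rw [Ideal.span_le]
    rintro _ ⟨x, rfl⟩
    exact Ideal.subset_span (Finset.mem_of_mem_erase x.2)

end surf

end Pool.Agent.Helper44x.DM
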