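import Pool.Agent.Helper44x.DM.Aff

/-!
Transport of smooth modifications, polynomial rings in homogeneous variables, and ideals generated
by determinants of families of homogeneous functions.
-/

set_option autoImplicit false
set_option linter.unusedVariables false
set_option linter.unusedSectionVars false

open TensorProduct AlgebraicGeometry CategoryTheory Pool.Agent.W558 Pool.Agent.H920R2

namespace Pool.Agent.Helper44x.DM

section tp

variable {k A B : Type} [Field k] [CommRing A] [IsDomain A] [Algebra k A] [CommRing B]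
  [IsDomain B] [Algebra k B]

/-- Transport along isomorphisms. -/
theorem hasPR_congr (e : A ≃ₐ[k] B) (I : Ideal B) (h : HasPR k A (I.comap e)) :
    HasPR k B I := by
  obtain ⟨T, hT, U, H, hA, hd⟩ := h
  let φ : FractionRing A ≃ₐ[k] FractionRing B := IsFractionRing.algEquivOfAlgEquiv e
  have hφ : ∀ a, φ (algebraMap A (FractionRing A) a) = algebraMap B (FractionRing B) (e a) :=
    fun a => IsFractionRing.algEquivOfAlgEquiv_algebraMap e a
  have hm : ∀ (S : Subalgebra k (FractionRing A)) (x : FractionRing A),
      φ x ∈ S.map (φ : FractionRing A →ₐ[k] FractionRing B) ↔ x ∈ S := by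
    intro S x
    constructor
    · rintro ⟨y, hy, hyx⟩
      have : y = x := φ.injective hyx
      exact this ▸ hy
    · intro hx
      exact ⟨x, hx, rfl⟩
  refine ⟨T, hT, fun t => (U t).map (φ : FractionRing A →ₐ[k] FractionRing B), fun t => φ (H t),
    { sm := fun t => ?_
      aa := fun t b => ?_
      H0 := fun t h0 => hA.H0 t (φ.injective (h0.trans (map_zero φ).symm))
      hA := fun t => ?_
      rt := fun t t' => ?_
      gl := fun t t' x hx => ?_
      dn := fun t x hx => ?_
      cv := fun V hV => ?_ }, fun t => ?_⟩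
  · have := hA.sm t
    exact Algebra.Smooth.of_equiv (Subalgebra.equivMapOfInjective (U t)
      (φ : FractionRing A →ₐ[k] FractionRing B) φ.injective)
  · have h1 := hA.aa t (e.symm b)
    refine ⟨_, h1, ?_⟩
    change φ (algebraMap A (FractionRing A) (e.symm b)) = algebraMap B (FractionRing B) b
    rw [hφ, e.apply_symm_apply]
  · obtain ⟨b, hb⟩ := hA.hA t
    refine ⟨e b, ?_⟩
    rw [hb]
    exact hφ b
  · rw [← map_div₀]
    exact (hm _ _).2 (hA.rt t t')
  · obtain ⟨y, hy, rfl⟩ := hx
    obtain ⟨n, hn⟩ := hA.gl t t' y hy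
    refine ⟨n, ?_⟩
    change (φ (H t') / φ (H t)) ^ n * φ y ∈ _
    rw [← map_div₀, ← map_pow, ← map_mul]
    exact (hm _ _).2 hn
  · obtain ⟨y, hy, rfl⟩ := hx
    obtain ⟨n, a, hn⟩ := hA.dn t y hy
    refine ⟨n, e a, ?_⟩
    change φ (H t) ^ n * φ y = algebraMap B (FractionRing B) (e a)
    rw [← map_pow, ← map_mul, hn]
    exact hφ a
  · obtain ⟨t, ht⟩ := hA.cv (V.comap (φ : FractionRing A →+* FractionRing B)) (fun a => by
      rw [ValuationSubring.mem_comap]
      have h1 := hV (e a)
      change algebraMap B (FractionRing B) (e a) ∈ V at h1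
      rw [← hφ] at h1
      exact h1)
    refine ⟨t, ?_⟩
    rintro _ ⟨y, hy, rfl⟩
    exact (ValuationSubring.mem_comap).1 (ht y hy)
  · obtain ⟨d, hdI, hd0, hdd⟩ := hd t
    refine ⟨e d, hdI, fun h => hd0 (e.injective (h.trans (map_zero e).symm)), fun b hb => ?_⟩
    have h1 := hdd (e.symm b) (by
      rw [Ideal.mem_comap]
      rwa [e.apply_symm_apply])
    have h2 := (hm _ _).2 h1
    rw [map_div₀, hφ, hφ, e.apply_symm_apply] at h2
    exact h2

variable {n r : ℕ}

/-- Polynomial rings in homogeneous variables. -/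
theorem hasPR_poly [PerfectField k] (𝒜 : (Fin r → ℤ) → Submodule k A) [GradedAlgebra 𝒜]
    (x : Fin n → A) (d : Fin n → (Fin r → ℤ)) (hx : AlgebraicIndependent k x)
    (hg : Algebra.adjoin k (Set.range x) = ⊤) (hd : ∀ i, x i ∈ 𝒜 (d i))
    (hn : n ≤ Module.finrank ℤ (Submodule.span ℤ (Set.range d)) + 2)
    (J : Ideal A) (hJ : J ≠ ⊥) (S : Set A) (hS : ∀ s ∈ S, ∃ e, s ∈ 𝒜 e)
    (hJS : J = Ideal.span S) : HasPR k A J := by
  classical
  let _ : GradedAlgebra (MvPolynomial.weightedHomogeneousSubmodule k d) :=
    MvPolynomial.weightedGradedAlgebra k d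
  have hb : Function.Bijective (MvPolynomial.aeval x : MvPolynomial (Fin n) k →ₐ[k] A) := by
    refine ⟨hx, ?_⟩
    rw [← AlgHom.range_eq_top, ← Algebra.adjoin_range_eq_range_aeval, hg]
  let e : MvPolynomial (Fin n) k ≃ₐ[k] A := AlgEquiv.ofBijective _ hb
  have he : ∀ f, e f = MvPolynomial.aeval x f := fun _ => rfl
  -- the gradings correspond
  have h1 : ∀ (c : Fin r → ℤ) (f : MvPolynomial (Fin n) k),
      MvPolynomial.IsWeightedHomogeneous d f c → e f ∈ 𝒜 c := by
    intro c f hf
    rw [f.as_sum, map_sum]
    refine Submodule.sum_mem _ fun α hα => ?_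
    rw [he, MvPolynomial.aeval_monomial, ← Algebra.smul_def]
    refine Submodule.smul_mem _ _ ?_
    rw [Finsupp.prod_fintype _ _ fun i => pow_zero _,
      ← hf (MvPolynomial.mem_support_iff.1 hα), Finsupp.weight_apply,
      Finsupp.sum_fintype _ _ fun i => by rw [zero_smul]]
    exact SetLike.prod_mem_graded (A := 𝒜) (fun j => α j • d j) _ fun j _ =>
      SetLike.pow_mem_graded _ (hd j)
  have h2 : ∀ (c : Fin r → ℤ) (a : A), a ∈ 𝒜 c →
      MvPolynomial.IsWeightedHomogeneous d (e.symm a) c := by
    intro c a ha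
    have h3 := MvPolynomial.sum_weightedHomogeneousComponent d (e.symm a)
    have hfin := MvPolynomial.weightedHomogeneousComponent_finsupp (w := d) (e.symm a)
    have h4 : e (∑ᶠ m, MvPolynomial.weightedHomogeneousComponent d m (e.symm a)) = a := by
      rw [h3, e.apply_symm_apply]
    rw [finsum_eq_sum _ hfin, map_sum] at h4
    have h5 : ∀ m, m ≠ c → MvPolynomial.weightedHomogeneousComponent d m (e.symm a) = 0 := by
      intro m hm
      by_contra h0
      have h6 : ((DirectSum.decompose 𝒜 a) m : A) =
          e (MvPolynomial.weightedHomogeneousComponent d m (e.symm a)) := by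
        rw [← h4, DirectSum.decompose_sum, DFinsupp.finsetSum_apply,
          AddSubmonoidClass.coe_finsetSum, Finset.sum_eq_single m]
        · rw [DirectSum.decompose_of_mem 𝒜 (h1 m _
            (MvPolynomial.weightedHomogeneousComponent_isWeightedHomogeneous m _)),
            DirectSum.of_eq_same, h4]
        · intro m' _ hm'
          rw [DirectSum.decompose_of_mem 𝒜 (h1 m' _
            (MvPolynomial.weightedHomogeneousComponent_isWeightedHomogeneous m' _)),
            DirectSum.of_eq_of_ne]
          · rfl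
          · exact hm'.symm
        · intro hm'
          exact absurd (hfin.mem_toFinset.2 h0) hm'
      rw [DirectSum.decompose_of_mem 𝒜 ha, DirectSum.of_eq_of_ne] at h6
      · exact h0 (e.injective (h6.symm.trans (map_zero e).symm))
      · exact hm
    rw [← MvPolynomial.mem_weightedHomogeneousSubmodule, ← h3]
    refine finsum_induction (fun z => z ∈ MvPolynomial.weightedHomogeneousSubmodule k d c)
      (Submodule.zero_mem _) (fun _ _ => Submodule.add_mem _) ?_
    intro m
    by_cases hm : m = c
    · subst hm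
      exact MvPolynomial.weightedHomogeneousComponent_isWeightedHomogeneous m _
    · change MvPolynomial.weightedHomogeneousComponent d m (e.symm a) ∈ _
      rw [h5 m hm]
      exact Submodule.zero_mem _
  refine hasPR_congr e J ?_
  refine hasPR_aff d hn _ ?_ (e ⁻¹' S) ?_ ?_
  · intro h0
    apply hJ
    rw [eq_bot_iff]
    intro y hy
    have h3 : e.symm y ∈ J.comap e := by
      rw [Ideal.mem_comap]
      rwa [e.apply_symm_apply]
    rw [h0] at h3
    have h4 : e.symm y = 0 := h3
    have h5 : y = 0 := e.symm.injective (h4.trans (map_zero e.symm).symm)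
    exact h5
  · intro s hs
    obtain ⟨c, hc⟩ := hS _ hs
    have h3 := h2 c _ hc
    rw [e.symm_apply_apply] at h3
    exact ⟨c, h3⟩
  · rw [hJS]
    have h3 : (Ideal.span S).comap e = (Ideal.span S).map (e.symm : A →+* _) := by
      exact (Ideal.map_comap_of_equiv (I := Ideal.span S) e.symm.toRingEquiv).symm
    rw [h3, Ideal.map_span]
    congr 1
    ext y
    constructor
    · rintro ⟨z, hz, rfl⟩
      change e (e.symm z) ∈ S
      rwa [e.apply_symm_apply]
    · intro hy
      exact ⟨e y, hy, e.symm_apply_apply y⟩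

end tp

end Pool.Agent.Helper44x.DM
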