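import Pool.Agent.Helper44x.DM.Graded

/-!
Quotients of products of affine varieties and affine spaces by finite groups of translations.
-/

set_option autoImplicit false
set_option linter.unusedVariables false
set_option linter.unusedSectionVars false

open TensorProduct AlgebraicGeometry CategoryTheory Pool.Agent.W558 Pool.Agent.H920R2

namespace Pool.Agent.Helper44x.DM

section shift

open MvPolynomial

variable {A : Type} [CommRing A] {m : ℕ}

/-- The translation by a vector. -/
noncomputable def shift (v : Fin m → A) : MvPolynomial (Fin m) A →ₐ[A] MvPolynomial (Fin m) A :=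
  aeval fun j => X j + C (v j)

lemma shift_X (v : Fin m → A) (j : Fin m) : shift v (X j) = X j + C (v j) := aeval_X _ _

lemma shift_shift (v w : Fin m → A) (f : MvPolynomial (Fin m) A) :
    shift v (shift w f) = shift (v + w) f := by
  have h : (shift v).comp (shift w) = shift (v + w) := by
    apply MvPolynomial.algHom_ext
    intro j
    rw [AlgHom.comp_apply, shift_X, map_add, shift_X, shift_X, Pi.add_apply, C_add, add_assoc]
    congr 2
    exact (shift v).commutes (w j)
  exact DFunLike.congr_fun h f

lemma shift_zero (f : MvPolynomial (Fin m) A) : shift (0 : Fin m → A) f = f := by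
  have h : shift (0 : Fin m → A) = AlgHom.id A _ := by
    apply MvPolynomial.algHom_ext
    intro j
    rw [shift_X, Pi.zero_apply, C_0, add_zero]
    rfl
  rw [h]
  rfl

variable {k : Type} [Field k] [Algebra k A]

/-- The identification of the two descriptions of polynomials. -/
noncomputable def eV (k A : Type) [Field k] [CommRing A] [Algebra k A] (m : ℕ) :
    A ⊗[k] MvPolynomial (Fin m) k ≃ₐ[A] MvPolynomial (Fin m) A :=
  algebraTensorAlgEquiv k A

/-- The action of a group of vectors by translations. -/
noncomputable def thV (k : Type) [Field k] [Algebra k A] (Γ : AddSubgroup (Fin m → A)) :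
    Multiplicative Γ →*
      ((A ⊗[k] MvPolynomial (Fin m) k) ≃ₐ[A] (A ⊗[k] MvPolynomial (Fin m) k)) where
  toFun g := AlgEquiv.ofAlgHom
    (((eV k A m).symm.toAlgHom.comp (shift (g.toAdd : Fin m → A))).comp (eV k A m).toAlgHom)
    (((eV k A m).symm.toAlgHom.comp (shift (-(g.toAdd : Fin m → A)))).comp (eV k A m).toAlgHom)
    (AlgHom.ext fun z => by
      change (eV k A m).symm (shift _ ((eV k A m) ((eV k A m).symm (shift _ ((eV k A m) z))))) = z
      rw [AlgEquiv.apply_symm_apply, shift_shift, add_neg_cancel, shift_zero,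
        AlgEquiv.symm_apply_apply])
    (AlgHom.ext fun z => by
      change (eV k A m).symm (shift _ ((eV k A m) ((eV k A m).symm (shift _ ((eV k A m) z))))) = z
      rw [AlgEquiv.apply_symm_apply, shift_shift, neg_add_cancel, shift_zero,
        AlgEquiv.symm_apply_apply])
  map_one' := AlgEquiv.ext fun z => by
    change (eV k A m).symm (shift ((0 : Γ) : Fin m → A) ((eV k A m) z)) = z
    rw [ZeroMemClass.coe_zero, shift_zero, AlgEquiv.symm_apply_apply]
  map_mul' g h := AlgEquiv.ext fun z => by
    change (eV k A m).symm (shift ((g.toAdd + h.toAdd : Γ) : Fin m → A) ((eV k A m) z)) =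
      (eV k A m).symm (shift _ ((eV k A m) ((eV k A m).symm (shift _ ((eV k A m) z)))))
    rw [AlgEquiv.apply_symm_apply, shift_shift]
    rfl

lemma thV_apply (Γ : AddSubgroup (Fin m → A)) (g : Multiplicative Γ)
    (z : A ⊗[k] MvPolynomial (Fin m) k) :
    thV k Γ g z = (eV k A m).symm (shift (g.toAdd : Fin m → A) (eV k A m z)) := rfl

lemma ev_eV (y : MvPolynomial (Fin m) k →ₐ[k] k) (F : MvPolynomial (Fin m) A) :
    ev A y ((eV k A m).symm F) = aeval (fun j => algebraMap k A (y (X j))) F := by
  have h : (ev A y).comp (eV k A m).symm.toAlgHom =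
      aeval (fun j => algebraMap k A (y (X j))) := by
    apply MvPolynomial.algHom_ext
    intro j
    rw [aeval_X]
    change ev A y ((algebraTensorAlgEquiv k A).symm (X j)) = _
    rw [algebraTensorAlgEquiv_symm_X, ev_tmul, one_mul]
  exact DFunLike.congr_fun h F

lemma ev_thV (Γ : AddSubgroup (Fin m → A)) (g : Multiplicative Γ)
    (y : MvPolynomial (Fin m) k →ₐ[k] k) (c : MvPolynomial (Fin m) k) :
    ev A y (thV k Γ g (1 ⊗ₜ c)) =
      aeval (fun j => algebraMap k A (y (X j)) + (g.toAdd : Fin m → A) j) c := by
  rw [thV_apply, ev_eV]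
  have h1 : eV k A m (1 ⊗ₜ c) = map (algebraMap k A) c := by
    change algebraTensorAlgEquiv k A (1 ⊗ₜ c) = _
    rw [algebraTensorAlgEquiv_tmul, one_smul]
  rw [h1]
  have h2 : ((aeval (fun j => algebraMap k A (y (X j))) : MvPolynomial (Fin m) A →ₐ[A] A).comp
      (shift (g.toAdd : Fin m → A))).toRingHom.comp (map (algebraMap k A)) =
      (aeval (fun j => algebraMap k A (y (X j)) + (g.toAdd : Fin m → A) j) :
        MvPolynomial (Fin m) k →ₐ[k] A).toRingHom := by
    apply MvPolynomial.ringHom_ext
    · intro r
      simp [shift]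
    · intro j
      change aeval _ (shift _ (map (algebraMap k A) (X j))) = aeval _ (X j)
      rw [map_X, shift_X, map_add, aeval_X, aeval_C, aeval_X]
      rfl
  exact DFunLike.congr_fun h2 c

/-- The ideal generated by the determinants of the values of polynomials. -/
def vecIdeal (k : Type) [Field k] [Algebra k A] (Γ : AddSubgroup (Fin m → A))
    [Fintype (Multiplicative Γ)] [DecidableEq (Multiplicative Γ)] : Ideal A :=
  Ideal.span {d | ∃ c : Multiplicative Γ → MvPolynomial (Fin m) k,
    d = (Matrix.of fun h g : Multiplicative Γ => aeval (g.toAdd : Fin m → A) (c h)).det}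

/-- The translation of polynomials by a point. -/
noncomputable def tp (y : Fin m → k) : MvPolynomial (Fin m) k →ₐ[k] MvPolynomial (Fin m) k :=
  aeval fun j => X j + C (y j)

lemma aeval_tp (y : Fin m → k) (v : Fin m → A) (c : MvPolynomial (Fin m) k) :
    aeval v (tp y c) = aeval (fun j => algebraMap k A (y j) + v j) c := by
  have h : (aeval v : MvPolynomial (Fin m) k →ₐ[k] A).comp (tp y) =
      aeval (fun j => algebraMap k A (y j) + v j) := by
    apply MvPolynomial.algHom_ext
    intro j
    rw [AlgHom.comp_apply, tp, aeval_X, aeval_X, map_add, aeval_X, aeval_C, add_comm]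
  exact DFunLike.congr_fun h c

lemma tp_surjective (y : Fin m → k) : Function.Surjective (tp y) := by
  intro c
  refine ⟨shift (-y) c, ?_⟩
  have h1 : ∀ f, tp y f = shift y f := fun f => rfl
  rw [h1, shift_shift, add_neg_cancel, shift_zero]

variable (Γ : AddSubgroup (Fin m → A)) [Fintype (Multiplicative Γ)]
  [DecidableEq (Multiplicative Γ)]

/-- Translations degenerate uniformly. -/
lemma deg_thV (y : MvPolynomial (Fin m) k →ₐ[k] k) :
    degIdeal (fun g z => thV k Γ g z) y = vecIdeal k Γ := by
  have key : ∀ c : Multiplicative Γ → MvPolynomial (Fin m) k,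
      (Matrix.of fun h g => ev A y (thV k Γ g (1 ⊗ₜ c h))).det =
      (Matrix.of fun h g : Multiplicative Γ => aeval (g.toAdd : Fin m → A)
        (tp (fun j => y (X j)) (c h))).det := by
    intro c
    congr 1
    ext h g
    change ev A y (thV k Γ g (1 ⊗ₜ c h)) = aeval (g.toAdd : Fin m → A)
        (tp (fun j => y (X j)) (c h))
    rw [ev_thV, aeval_tp]
  apply le_antisymm
  · refine Ideal.span_mono ?_
    rintro d ⟨c, rfl⟩
    exact ⟨_, key c⟩
  · refine Ideal.span_mono ?_
    rintro d ⟨c, rfl⟩
    choose c' hc' using fun h => tp_surjective (fun j => y (X j)) (c h)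
    refine ⟨c', ?_⟩
    rw [key]
    simp only [hc']

end shift

end Pool.Agent.Helper44x.DM
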