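import Pool.Agent.Helper44x.DM.Vec

/-!
Quotients of products of affine varieties and affine spaces by finite groups of translations:
resolution.
-/

set_option autoImplicit false
set_option linter.unusedVariables false
set_option linter.unusedSectionVars false

open TensorProduct AlgebraicGeometry CategoryTheory Pool.Agent.W558 Pool.Agent.H920R2

namespace Pool.Agent.Helper44x.DM

section main

open MvPolynomial

variable {k A : Type} [Field k] [CommRing A] [Algebra k A] {m : ℕ}
  (Γ : AddSubgroup (Fin m → A))

/-- The invariants of the translations. -/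
def ivV (k : Type) [Field k] [Algebra k A] (Γ : AddSubgroup (Fin m → A)) :
    Subalgebra k (MvPolynomial (Fin m) A) where
  carrier := {f | ∀ v ∈ Γ, aeval (fun j => X j + C (v j)) f = f}
  mul_mem' := fun {a b} ha hb v hv => by rw [map_mul, ha v hv, hb v hv]
  add_mem' := fun {a b} ha hb v hv => by rw [map_add, ha v hv, hb v hv]
  algebraMap_mem' := fun c v _ => by
    rw [IsScalarTower.algebraMap_apply k A (MvPolynomial (Fin m) A)]
    exact (aeval (fun j => X j + C (v j)) :
      MvPolynomial (Fin m) A →ₐ[A] MvPolynomial (Fin m) A).commutes _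

lemma thV_injective : Function.Injective (thV k Γ) := by
  obtain ⟨y⟩ : Nonempty (MvPolynomial (Fin m) k →ₐ[k] k) := ⟨aeval 0⟩
  intro g h hgh
  have h1 : ∀ j, (g.toAdd : Fin m → A) j = (h.toAdd : Fin m → A) j := by
    intro j
    have h2 := ev_thV Γ g y (X j)
    have h3 := ev_thV Γ h y (X j)
    rw [hgh, h3] at h2
    rw [aeval_X, aeval_X] at h2
    exact (add_left_cancel h2).symm
  have h4 : g.toAdd = h.toAdd := Subtype.ext (funext h1)
  exact Multiplicative.toAdd.injective h4

/-- The two descriptions of the invariants. -/
noncomputable def ivEquiv : ivB (fun g => thV k Γ g) ≃ₐ[k] ivV k Γ := by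
  refine AlgEquiv.ofBijective ((((eV k A m).toAlgHom.restrictScalars k).comp
    (ivB (fun g => thV k Γ g)).val).codRestrict (ivV k Γ) ?_) ⟨?_, ?_⟩
  · intro z v hv
    have h1 := z.2 (Multiplicative.ofAdd ⟨v, hv⟩)
    rw [thV_apply] at h1
    have h2 := congrArg (eV k A m) h1
    rw [AlgEquiv.apply_symm_apply] at h2
    exact h2
  · intro z w h
    have h1 : eV k A m z = eV k A m w := congrArg Subtype.val h
    exact Subtype.ext ((eV k A m).injective h1)
  · rintro ⟨f, hf⟩
    refine ⟨⟨(eV k A m).symm f, fun g => ?_⟩, ?_⟩
    · rw [thV_apply, AlgEquiv.apply_symm_apply]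
      congr 1
      exact hf _ (g.toAdd).2
    · exact Subtype.ext ((eV k A m).apply_symm_apply f)

/-- The determinants of the values of monomials. -/
noncomputable def mdet (Γ : AddSubgroup (Fin m → A)) [Fintype (Multiplicative Γ)]
    [DecidableEq (Multiplicative Γ)] (α : Multiplicative Γ → (Fin m →₀ ℕ)) : A :=
  (Matrix.of fun h g : Multiplicative Γ => ∏ j, (g.toAdd : Fin m → A) j ^ α h j).det

/-- The ideal of the minors is generated by the minors of monomials. -/
theorem vecIdeal_span [Fintype (Multiplicative Γ)] [DecidableEq (Multiplicative Γ)] :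
    vecIdeal k Γ = Ideal.span (Set.range (mdet Γ)) := by
  classical
  apply le_antisymm
  · refine Ideal.span_le.2 ?_
    rintro d ⟨c, rfl⟩
    -- multilinearity
    have key : ∀ s : Finset (Multiplicative Γ), ∀ c : Multiplicative Γ → MvPolynomial (Fin m) k,
        (∀ h, h ∉ s → ∃ α : Fin m →₀ ℕ, c h = monomial α 1) →
        (Matrix.of fun h g : Multiplicative Γ => aeval (g.toAdd : Fin m → A) (c h)).det ∈
          Ideal.span (Set.range (mdet Γ)) := by
      intro s
      induction s using Finset.induction_on with
      | empty =>
        intro c hc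
        choose α hα using fun h => hc h (Finset.notMem_empty h)
        refine Ideal.subset_span ⟨α, ?_⟩
        change (Matrix.of fun h g : Multiplicative Γ =>
          ∏ j, (g.toAdd : Fin m → A) j ^ α h j).det = _
        congr 1
        ext h g
        change ∏ j, (g.toAdd : Fin m → A) j ^ α h j = aeval (g.toAdd : Fin m → A) (c h)
        rw [hα, aeval_monomial, map_one, one_mul, Finsupp.prod_fintype _ _ fun i => pow_zero _]
      | insert i s hi ih =>
        intro c hc
        have hrow : ∀ f : MvPolynomial (Fin m) k,
            (Matrix.of fun h g : Multiplicative Γ => aeval (g.toAdd : Fin m → A)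
              (Function.update c i f h)) =
            (Matrix.of fun h g : Multiplicative Γ => aeval (g.toAdd : Fin m → A) (c h)).updateRow
              i (fun g => aeval (g.toAdd : Fin m → A) f) := by
          intro f
          ext h g
          by_cases hh : h = i
          · subst hh
            rw [Matrix.updateRow_self]
            change aeval _ (Function.update c h f h) = _
            rw [Function.update_self]
          · rw [Matrix.updateRow_ne hh]
            change aeval _ (Function.update c i f h) = _
            rw [Function.update_of_ne hh]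
            rfl
        have h1 : ∀ f : MvPolynomial (Fin m) k,
            (Matrix.of fun h g : Multiplicative Γ => aeval (g.toAdd : Fin m → A)
              (Function.update c i f h)).det ∈ Ideal.span (Set.range (mdet Γ)) := by
          intro f
          induction f using MvPolynomial.induction_on' with
          | monomial u a =>
            have e1 : (fun g : Multiplicative Γ => aeval (g.toAdd : Fin m → A)
                (monomial u a : MvPolynomial (Fin m) k)) = algebraMap k A a •
                fun g : Multiplicative Γ => aeval (g.toAdd : Fin m → A)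
                  (monomial u 1 : MvPolynomial (Fin m) k) := by
              funext g
              rw [Pi.smul_apply, aeval_monomial, aeval_monomial, map_one, one_mul, smul_eq_mul]
            rw [hrow, e1, Matrix.det_updateRow_smul, ← hrow]
            refine Ideal.mul_mem_left _ _ (ih _ fun h hs => ?_)
            by_cases hh : h = i
            · subst hh
              rw [Function.update_self]
              exact ⟨u, rfl⟩
            · rw [Function.update_of_ne hh]
              exact hc h (by simp [hh, hs])
          | add p q hp hq =>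
            have e1 : (fun g : Multiplicative Γ => aeval (g.toAdd : Fin m → A) (p + q)) =
                (fun g : Multiplicative Γ => aeval (g.toAdd : Fin m → A) p) +
                fun g : Multiplicative Γ => aeval (g.toAdd : Fin m → A) q := by
              funext g
              rw [Pi.add_apply, map_add]
            rw [hrow, e1, Matrix.det_updateRow_add, ← hrow, ← hrow]
            exact Ideal.add_mem _ hp hq
        have h2 := h1 (c i)
        rwa [Function.update_eq_self] at h2
    exact key Finset.univ c fun h hh => absurd (Finset.mem_univ h) hh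
  · refine Ideal.span_le.2 ?_
    rintro _ ⟨α, rfl⟩
    refine Ideal.subset_span ⟨fun h => monomial (α h) 1, ?_⟩
    change (Matrix.of fun h g : Multiplicative Γ =>
      ∏ j, (g.toAdd : Fin m → A) j ^ α h j).det = _
    congr 1
    ext h g
    change ∏ j, (g.toAdd : Fin m → A) j ^ α h j =
      aeval (g.toAdd : Fin m → A) (monomial (α h) 1)
    rw [aeval_monomial, map_one, one_mul, Finsupp.prod_fintype _ _ fun i => pow_zero _]

/-- The ideal of the minors is generated by homogeneous elements. -/
theorem vecIdeal_hom [Fintype (Multiplicative Γ)] [DecidableEq (Multiplicative Γ)] {r : ℕ}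
    (𝒜 : (Fin r → ℤ) → Submodule k A) [GradedAlgebra 𝒜] (a : Fin m → (Fin r → ℤ))
    (ha : ∀ v ∈ Γ, ∀ j, v j ∈ 𝒜 (a j)) :
    ∃ S : Set A, (∀ s ∈ S, ∃ d, s ∈ 𝒜 d) ∧ vecIdeal k Γ = Ideal.span S := by
  classical
  refine ⟨Set.range (mdet Γ), ?_, vecIdeal_span Γ⟩
  rintro _ ⟨α, rfl⟩
  refine ⟨∑ h, ∑ j, α h j • a j, ?_⟩
  unfold mdet
  rw [Matrix.det_apply]
  refine Submodule.sum_mem _ fun σ _ => ?_
  have h1 : ∏ i, (Matrix.of fun h g : Multiplicative Γ =>
      ∏ j, (g.toAdd : Fin m → A) j ^ α h j) (σ i) i ∈ 𝒜 (∑ h, ∑ j, α h j • a j) := by
    rw [← Equiv.sum_comp σ (fun h => ∑ j, α h j • a j)]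
    refine SetLike.prod_mem_graded (A := 𝒜) (fun i => ∑ j, α (σ i) j • a j) _ fun i _ => ?_
    refine SetLike.prod_mem_graded (A := 𝒜) (fun j => α (σ i) j • a j) _ fun j _ => ?_
    exact SetLike.pow_mem_graded _ (ha _ (i.toAdd).2 j)
  rcases Int.units_eq_one_or (Equiv.Perm.sign σ) with hσ | hσ
  · rw [hσ, one_smul]
    exact h1
  · rw [hσ, Units.neg_smul, one_smul]
    exact Submodule.neg_mem _ h1

variable [IsAlgClosed k] [IsDomain A] [Algebra.FiniteType k A] [Finite Γ]

/-- Resolution of quotients by groups of vectors. -/
theorem main_vec [Fintype (Multiplicative Γ)] [DecidableEq (Multiplicative Γ)]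
    (hX : vecIdeal k Γ ≠ ⊥ → HasPR k A (vecIdeal k Γ)) :
    IsVariety (X := Spec (CommRingCat.of (ivV k Γ)))
      (Spec.map (CommRingCat.ofHom (algebraMap k (ivV k Γ)))) ∧
    HasResolution (X := Spec (CommRingCat.of (ivV k Γ)))
      (Spec.map (CommRingCat.ofHom (algebraMap k (ivV k Γ)))) := by
  have hdom : IsDomain (A ⊗[k] MvPolynomial (Fin m) k) := isDomain_tensor
  have hsm : Algebra.Smooth k (MvPolynomial (Fin m) k) :=
    { formallySmooth := inferInstance
      finitePresentation := inferInstance }
  have h1 := main_ft (thV k Γ) (thV_injective Γ) (vecIdeal k Γ) (deg_thV Γ) hX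
  have hft : Algebra.FiniteType k (ivV k Γ) := h1.1.equiv (ivEquiv Γ)
  exact ⟨isVariety_spec, hasResolution_congr (ivEquiv Γ) h1.2⟩

end main

end Pool.Agent.Helper44x.DM
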